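import Mathlib

/-! Deletion counts of words: `B u` is the number of orders in which the letters of `u` can be
deleted so that all the words seen are proper (no two consecutive letters equal). -/

namespace Pool.Agent.R987.FD

variable {α : Type*}

/-- a word is proper if consecutive letters differ -/
abbrev Pr (u : List α) : Prop := List.IsChain (· ≠ ·) u

/-- sum of `F` over all one-letter deletions of a word -/
def ds : (List α → ℕ) → List α → ℕ
  | _, [] => 0
  | F, x :: u => F u + ds (fun v => F (x :: v)) u

@[simp] lemma ds_nil (F : List α → ℕ) : ds F [] = 0 := rfl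

@[simp] lemma ds_cons (F : List α → ℕ) (x : α) (u : List α) :
    ds F (x :: u) = F u + ds (fun v => F (x :: v)) u := rfl

lemma ds_append (u v : List α) : ∀ F : List α → ℕ,
    ds F (u ++ v) = ds (fun t => F (t ++ v)) u + ds (fun t => F (u ++ t)) v := by
  induction u with
  | nil => intro F; simp
  | cons x u ih =>
    intro F
    simp only [List.cons_append, ds_cons, ih]
    ring

lemma ds_mono (u : List α) : ∀ F G : List α → ℕ,
    (∀ v, v.length + 1 = u.length → F v ≤ G v) → ds F u ≤ ds G u := by
  induction u with
  | nil => intro F G _; simp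
  | cons x u ih =>
    intro F G h
    simp only [ds_cons]
    have h1 : F u ≤ G u := h u (by simp)
    have h2 := ih (fun v => F (x :: v)) (fun v => G (x :: v))
      (fun v hv => h (x :: v) (by simp [hv]))
    omega

lemma ds_congr (u : List α) (F G : List α → ℕ)
    (h : ∀ v, v.length + 1 = u.length → F v = G v) : ds F u = ds G u :=
  le_antisymm (ds_mono u F G fun v hv => (h v hv).le) (ds_mono u G F fun v hv => (h v hv).ge)

lemma ds_ge (F : List α → ℕ) (a b : List α) (x : α) : F (a ++ b) ≤ ds F (a ++ x :: b) := by
  rw [ds_append]
  simp only [ds_cons]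
  omega

lemma ds_const_le (u : List α) : ∀ (F : List α → ℕ) (M : ℕ), (∀ v, F v ≤ M) →
    ds F u ≤ u.length * M := by
  induction u with
  | nil => intro F M _; simp
  | cons x u ih =>
    intro F M h
    simp only [ds_cons, List.length_cons]
    have h1 := h u
    have h2 := ih (fun v => F (x :: v)) M (fun v => h _)
    nlinarith

section B
variable [DecidableEq α]

def Bn : ℕ → List α → ℕ
  | 0, _ => 1
  | n + 1, u => if Pr u then ds (Bn n) u else 0

/-- the number of deletion orders -/
def B (u : List α) : ℕ := Bn u.length u

@[simp] lemma B_nil : B ([] : List α) = 1 := rfl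

lemma B_eq {u : List α} (h : Pr u) (hu : u ≠ []) : B u = ds B u := by
  obtain ⟨x, t, rfl⟩ := List.exists_cons_of_ne_nil hu
  unfold B
  simp only [List.length_cons, Bn, if_pos h]
  apply ds_congr
  intro v hv
  have : v.length = t.length := by simpa using hv
  rw [this]

lemma B_of_not {u : List α} (h : ¬ Pr u) : B u = 0 := by
  cases u with
  | nil => exact absurd List.IsChain.nil h
  | cons x t =>
    unfold B
    simp only [List.length_cons, Bn, if_neg h]

lemma B_mono {a b : List α} {x : α} (h : Pr (a ++ x :: b)) : B (a ++ b) ≤ B (a ++ x :: b) := by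
  rw [B_eq h (by simp)]
  exact ds_ge B a b x

lemma B_tail_le {x : α} {t : List α} (h : Pr (x :: t)) : B t ≤ B (x :: t) :=
  B_mono (a := []) h

omit [DecidableEq α] in
lemma Pr_tail {x : α} {t : List α} (h : Pr (x :: t)) : Pr t := h.tail

lemma B_pos {u : List α} (h : Pr u) : 0 < B u := by
  induction u with
  | nil => simp
  | cons x t ih => exact lt_of_lt_of_le (ih (Pr_tail h)) (B_tail_le h)

lemma B_pos_iff {u : List α} : 0 < B u ↔ Pr u := by
  constructor
  · intro h
    by_contra hc
    rw [B_of_not hc] at h
    exact absurd h (lt_irrefl 0)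
  · exact B_pos

lemma two_pow_le (n : ℕ) : ∀ u : List α, u.length = n + 1 → Pr u → 2 ^ n ≤ B u := by
  induction n with
  | zero => intro u hu h; have := B_pos h; rw [pow_zero]; omega
  | succ n ih =>
    intro u hu h
    obtain ⟨x, t, rfl⟩ : ∃ x t, u = x :: t := by
      cases u with
      | nil => simp at hu
      | cons x t => exact ⟨x, t, rfl⟩
    have ht : t.length = n + 1 := by simpa using hu
    have htn : t ≠ [] := by intro h0; simp [h0] at ht
    rw [B_eq h (by simp), ds_cons]
    have h1 : 2 ^ n ≤ B t := ih t ht (Pr_tail h)
    -- last letter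
    obtain ⟨s, y, rfl⟩ : ∃ s y, t = s ++ [y] := ⟨t.dropLast, t.getLast htn,
      (List.dropLast_append_getLast htn).symm⟩
    have hp : Pr (x :: s) := by
      have : Pr ((x :: s) ++ [y]) := by simpa using h
      exact (List.isChain_append.1 this).1
    have h2 : 2 ^ n ≤ B (x :: s) := ih _ (by simpa using ht) hp
    have h3 : B (x :: s) ≤ ds (fun v => B (x :: v)) (s ++ [y]) := by
      have := ds_ge (fun v => B (x :: v)) s [] y
      simpa using this
    rw [pow_succ]; omega

end B

section D
variable [DecidableEq α]

/-- number of defects: triples of consecutive letters `x y z` with `x ≠ z` -/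
def D : List α → ℕ
  | x :: y :: z :: t => (if x = z then 0 else 1) + D (y :: z :: t)
  | _ => 0

@[simp] lemma D_nil : D ([] : List α) = 0 := rfl
@[simp] lemma D_one (x : α) : D [x] = 0 := rfl
@[simp] lemma D_two (x y : α) : D [x, y] = 0 := rfl
@[simp] lemma D_three (x y z : α) (t : List α) :
    D (x :: y :: z :: t) = (if x = z then 0 else 1) + D (y :: z :: t) := rfl

lemma D_cons_le (x : α) (u : List α) : D u ≤ D (x :: u) := by
  match u with
  | [] => simp
  | [y] => simp
  | y :: z :: t => rw [D_three]; omega

lemma D_cons_le' (x : α) (u : List α) : D (x :: u) ≤ D u + 1 := by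
  match u with
  | [] => simp
  | [y] => simp
  | y :: z :: t => rw [D_three]; split_ifs <;> omega

lemma D_overlap (a : List α) (x y : α) (b : List α) :
    D (a ++ x :: y :: b) = D (a ++ [x, y]) + D (x :: y :: b) := by
  induction a with
  | nil => simp
  | cons c a ih =>
    match a with
    | [] => simp [D_three]
    | [d] =>
      simp only [List.cons_append, List.nil_append] at ih ⊢
      rw [D_three, ih, D_three c d x]
      omega
    | d :: e :: a =>
      simp only [List.cons_append] at ih ⊢
      rw [D_three, ih, D_three c d e]
      omega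

lemma D_append_le (a b : List α) : D a + D b ≤ D (a ++ b) := by
  induction a with
  | nil => simp
  | cons c a ih =>
    match a with
    | [] => simpa using D_cons_le c b
    | [d] =>
      have h1 := D_cons_le c (d :: b)
      simp only [List.cons_append, List.nil_append] at ih ⊢
      simp only [D_two, D_one] at ih ⊢
      omega
    | d :: e :: a =>
      simp only [List.cons_append] at ih ⊢
      rw [D_three, D_three]
      omega

lemma D_left_le (a b : List α) : D a ≤ D (a ++ b) := le_trans (Nat.le_add_right _ _) (D_append_le a b)
lemma D_right_le (a b : List α) : D b ≤ D (a ++ b) := le_trans (Nat.le_add_left _ _) (D_append_le a b)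

lemma D_snoc_le (a : List α) (y : α) : D (a ++ [y]) ≤ D a + 1 := by
  induction a with
  | nil => simp
  | cons c a ih =>
    match a with
    | [] => simp
    | [d] => simp only [List.cons_append, List.nil_append, D_three, D_two]; split_ifs <;> omega
    | d :: e :: a =>
      simp only [List.cons_append] at ih ⊢
      rw [D_three, D_three]
      omega

/-- deleting a defect letter keeps at least `D u - 3` defects -/
lemma D_del (a b : List α) (x y z : α) :
    D (a ++ x :: y :: z :: b) ≤ D (a ++ x :: z :: b) + 3 := by
  rw [D_overlap a x y (z :: b), D_overlap a x z b, D_three]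
  have h1 : D (a ++ [x, y]) ≤ D (a ++ [x, z]) + 1 := by
    have e1 := D_snoc_le (a ++ [x]) y
    have e2 := D_left_le (a ++ [x]) [z]
    simp only [List.append_assoc, List.cons_append, List.nil_append] at e1 e2
    omega
  have h2 : D (y :: z :: b) ≤ D (z :: b) + 1 := D_cons_le' _ _
  have h3 : D (z :: b) ≤ D (x :: z :: b) := D_cons_le _ _
  split_ifs <;> omega

lemma ds_defects (F : List α → ℕ) (M : ℕ) (u : List α) : ∀ (a : List α) (x : α),
    (∀ (a' : List α) (x' y z : α) (b : List α), a ++ x :: u = a' ++ x' :: y :: z :: b →
      x' ≠ z → M ≤ F (a' ++ x' :: z :: b)) →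
    M * D (x :: u) ≤ ds (fun v => F (a ++ x :: v)) u := by
  induction u with
  | nil => intro a x _; simp
  | cons y u ih =>
    intro a x h
    match u with
    | [] => simp
    | z :: t =>
      rw [ds_cons, D_three]
      have h2 := ih (a ++ [x]) y (by
        intro a' x' y' z' b e hne
        exact h a' x' y' z' b (by simpa using e) hne)
      simp only [List.append_assoc, List.cons_append, List.nil_append] at h2
      by_cases hxz : x = z
      · rw [if_pos hxz]
        calc M * (0 + D (y :: z :: t)) = M * D (y :: z :: t) := by ring
          _ ≤ _ := le_trans h2 (Nat.le_add_left _ _)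
      · rw [if_neg hxz]
        have h1 := h a x y z t rfl hxz
        calc M * (1 + D (y :: z :: t)) = M + M * D (y :: z :: t) := by ring
          _ ≤ _ := Nat.add_le_add h1 h2

lemma Pr_del {a b : List α} {x y z : α} (h : Pr (a ++ x :: y :: z :: b)) (hxz : x ≠ z) :
    Pr (a ++ x :: z :: b) := by
  obtain ⟨h1, h2, h3⟩ := List.isChain_append.1 h
  refine List.isChain_append.2 ⟨h1, ?_, ?_⟩
  · rw [List.isChain_cons_cons] at h2 ⊢
    exact ⟨hxz, Pr_tail h2.2⟩
  · intro p hp q hq
    exact h3 p hp q (by simpa using hq)

lemma factorial_le (t : ℕ) : ∀ u : List α, Pr u → 3 * t ≤ D u → t.factorial ≤ B u := by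
  induction t with
  | zero => intro u h _; have := B_pos h; rw [Nat.factorial_zero]; omega
  | succ t ih =>
    intro u h hD
    match u, hD with
    | [], hD => simp at hD
    | x :: u, hD =>
      rw [B_eq h (by simp), ds_cons]
      have key := ds_defects B t.factorial u [] x (by
        intro a' x' y z b e hne
        simp only [List.nil_append] at e
        apply ih
        · rw [e] at h; exact Pr_del h hne
        · rw [e] at hD
          have := D_del a' b x' y z
          omega)
      simp only [List.nil_append] at key
      calc (t + 1).factorial = t.factorial * (t + 1) := by rw [Nat.factorial_succ]; ring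
        _ ≤ t.factorial * D (x :: u) := Nat.mul_le_mul le_rfl (by omega)
        _ ≤ _ := le_trans key (Nat.le_add_left _ _)

end D

/-- the alternating word `s t s t …` of length `k` -/
def alt (s t : α) : ℕ → List α
  | 0 => []
  | k + 1 => s :: alt t s k

@[simp] lemma alt_zero (s t : α) : alt s t 0 = [] := rfl
@[simp] lemma alt_succ (s t : α) (k : ℕ) : alt s t (k + 1) = s :: alt t s k := rfl

@[simp] lemma alt_length (k : ℕ) : ∀ s t : α, (alt s t k).length = k := by
  induction k with
  | zero => intro s t; rfl
  | succ k ih => intro s t; simp [ih]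

/-- the alternating word `… s t s` of length `k` (in the letters `s,t`) that ends with `s` -/
def la (s t : α) : ℕ → List α
  | 0 => []
  | k + 1 => la t s k ++ [s]

@[simp] lemma la_zero (s t : α) : la s t 0 = [] := rfl
lemma la_succ (s t : α) (k : ℕ) : la s t (k + 1) = la t s k ++ [s] := rfl

@[simp] lemma la_length (k : ℕ) : ∀ s t : α, (la s t k).length = k := by
  induction k with
  | zero => intro s t; rfl
  | succ k ih => intro s t; simp [la_succ, ih]

lemma la_eq_alt (k : ℕ) : ∀ s t : α, la s t k = if Even k then alt t s k else alt s t k := by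
  induction k with
  | zero => intro s t; simp
  | succ k ih =>
    intro s t
    -- alt of length k+1 = alt of length k ++ [last]
    have aux : ∀ (n : ℕ) (p q : α), alt p q (n + 1) = alt p q n ++ [if Even n then p else q] := by
      intro n
      induction n with
      | zero => intro p q; simp
      | succ n ihn =>
        intro p q
        rw [alt_succ, ihn q p, alt_succ]
        simp only [List.cons_append]
        congr 3
        by_cases hn : Even n <;> simp [hn, Nat.even_add_one]
    rw [la_succ, ih t s]
    by_cases hk : Even k
    · rw [if_pos hk, if_neg (by simpa [Nat.even_add_one] using hk), aux, if_pos hk]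
    · rw [if_neg hk, if_pos (by simpa [Nat.even_add_one] using hk), aux, if_neg hk]

lemma alt_snoc (n : ℕ) : ∀ (p q : α), alt p q (n + 1) = alt p q n ++ [if Even n then p else q] := by
  induction n with
  | zero => intro p q; simp
  | succ n ihn =>
    intro p q
    rw [alt_succ, ihn q p, alt_succ]
    simp only [List.cons_append]
    congr 3
    by_cases hn : Even n <;> simp [hn, Nat.even_add_one]

lemma la_cons (k : ℕ) : ∀ s t : α, ∃ c, (c = s ∨ c = t) ∧ la s t (k + 1) = c :: la s t k := by
  induction k with
  | zero => intro s t; exact ⟨s, Or.inl rfl, rfl⟩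
  | succ k ih =>
    intro s t
    obtain ⟨c, hc, e⟩ := ih t s
    refine ⟨c, hc.symm, ?_⟩
    rw [la_succ, e, la_succ]
    rfl

lemma la_tail (k : ℕ) (s t : α) : (la s t (k + 1)).tail = la s t k := by
  obtain ⟨c, -, e⟩ := la_cons k s t
  rw [e]; rfl

lemma alt_Pr {s t : α} (h : s ≠ t) (k : ℕ) : Pr (alt s t k) := by
  induction k generalizing s t with
  | zero => exact List.IsChain.nil
  | succ k ih =>
    match k with
    | 0 => exact List.IsChain.singleton _
    | k + 1 =>
      have := ih h.symm
      rw [alt_succ, alt_succ]
      rw [alt_succ] at this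
      exact List.isChain_cons_cons.2 ⟨h, this⟩

lemma mem_alt (k : ℕ) : ∀ {s t c : α}, c ∈ alt s t k → c = s ∨ c = t := by
  induction k with
  | zero => intro s t c h; simp at h
  | succ k ih =>
    intro s t c h
    rw [alt_succ, List.mem_cons] at h
    rcases h with h | h
    · exact Or.inl h
    · exact (ih h).symm

lemma mem_la (k : ℕ) {s t c : α} (h : c ∈ la s t k) : c = s ∨ c = t := by
  rw [la_eq_alt] at h
  split_ifs at h
  · exact (mem_alt k h).symm
  · exact mem_alt k h

lemma la_Pr {s t : α} (h : s ≠ t) (k : ℕ) : Pr (la s t k) := by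
  rw [la_eq_alt]
  split_ifs
  · exact alt_Pr h.symm k
  · exact alt_Pr h k

section
variable [DecidableEq α]

lemma D_alt (k : ℕ) : ∀ s t : α, D (alt s t k) = 0 := by
  induction k with
  | zero => intro s t; rfl
  | succ k ih =>
    intro s t
    match k with
    | 0 => rfl
    | 1 => rfl
    | k + 2 =>
      have := ih t s
      rw [alt_succ, alt_succ, alt_succ] at *
      rw [D_three, if_pos rfl, this]

lemma D_la (k : ℕ) (s t : α) : D (la s t k) = 0 := by
  rw [la_eq_alt]; split_ifs <;> exact D_alt _ _ _

/-- a word without defects is alternating -/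
lemma eq_alt_of_D {u : List α} : ∀ {x y : α}, D (x :: y :: u) = 0 →
    x :: y :: u = alt x y (u.length + 2) := by
  induction u with
  | nil => intro x y _; rfl
  | cons z u ih =>
    intro x y h
    rw [D_three] at h
    have hxz : x = z := by
      by_contra hne
      rw [if_neg hne] at h
      omega
    have h2 : D (y :: z :: u) = 0 := by omega
    subst hxz
    rw [List.length_cons, alt_succ, ← ih h2]

end

end Pool.Agent.R987.FD
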