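import Pool.Agent.R987.FD.Lower

/-! Words whose block image avoids a colour. -/

namespace Pool.Agent.R987.FD

open Finset

abbrev A := Fin 4
abbrev C := Fin 3

/-- sliding block image -/
def Wn (r : ℕ) (γ : List A → C) : List A → List C
  | [] => []
  | x :: u => if r ≤ u.length + 1 then γ ((x :: u).take r) :: Wn r γ u else []

variable {r : ℕ} {γ : List A → C}

lemma Wn_get (hr : 1 ≤ r) (u : List A) : ∀ i, (Wn r γ u)[i]? =
    if i + r ≤ u.length then some (γ ((u.drop i).take r)) else none := by
  induction u with
  | nil =>
    intro i
    rw [if_neg (by simp; omega)]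
    simp [Wn]
  | cons x u ih =>
    intro i
    unfold Wn
    by_cases h : r ≤ u.length + 1
    · rw [if_pos h]
      cases i with
      | zero =>
        rw [if_pos (by simpa using h)]
        rfl
      | succ i =>
        rw [List.getElem?_cons_succ, ih]
        simp only [List.length_cons, List.drop_succ_cons]
        by_cases h2 : i + r ≤ u.length
        · rw [if_pos h2, if_pos (by omega)]
        · rw [if_neg h2, if_neg (by omega)]
    · rw [if_neg h, if_neg (by simp only [List.length_cons]; omega)]
      simp

lemma Wn_length (hr : 1 ≤ r) (u : List A) : (Wn r γ u).length = u.length + 1 - r := by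
  induction u with
  | nil => simp [Wn]; omega
  | cons x u ih =>
    unfold Wn
    by_cases h : r ≤ u.length + 1
    · rw [if_pos h]
      simp only [List.length_cons, ih]
      omega
    · rw [if_neg h]
      simp only [List.length_nil, List.length_cons]
      omega

lemma mem_Wn (hr : 1 ≤ r) {u : List A} {c : C} :
    c ∈ Wn r γ u ↔ ∃ a v b, u = a ++ (v ++ b) ∧ v.length = r ∧ γ v = c := by
  rw [List.mem_iff_getElem?]
  constructor
  · rintro ⟨i, hi⟩
    rw [Wn_get hr] at hi
    split_ifs at hi with h
    refine ⟨u.take i, (u.drop i).take r, (u.drop i).drop r, ?_, ?_, ?_⟩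
    · rw [List.take_append_drop, List.take_append_drop]
    · simp only [List.length_take, List.length_drop]; omega
    · simpa using hi
  · rintro ⟨a, v, b, rfl, hv, hc⟩
    refine ⟨a.length, ?_⟩
    rw [Wn_get hr, if_pos (by simp; omega)]
    rw [List.drop_left, ← hv, List.take_left, hc]

/-- proper words in whose image the colour `c` does not occur -/
def S (r : ℕ) (γ : List A → C) (c : C) (u : List A) : Prop := Pr u ∧ c ∉ Wn r γ u

lemma S.inf (hr : 1 ≤ r) {c : C} {a u b : List A} (h : S r γ c (a ++ (u ++ b))) :
    S r γ c u := by
  refine ⟨(List.isChain_append.1 (List.isChain_append.1 h.1).2.1).1, ?_⟩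
  intro hc
  rw [mem_Wn hr] at hc
  obtain ⟨a', v, b', e, hv, hcv⟩ := hc
  apply h.2
  rw [mem_Wn hr]
  refine ⟨a ++ a', v, b' ++ b, ?_, hv, hcv⟩
  rw [e]; simp

lemma S.pre (hr : 1 ≤ r) {c : C} {u b : List A} (h : S r γ c (u ++ b)) : S r γ c u :=
  S.inf (a := []) hr h

lemma S.suf (hr : 1 ≤ r) {c : C} {a u : List A} (h : S r γ c (a ++ u)) : S r γ c u := by
  apply S.inf (a := a) (b := []) hr
  simpa using h

lemma glue (hr : 1 ≤ r) {c : C} {a o b : List A} (ho : o ≠ []) (hor : r ≤ o.length + 1)
    (h1 : S r γ c (a ++ o)) (h2 : S r γ c (o ++ b)) : S r γ c (a ++ (o ++ b)) := by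
  refine ⟨?_, ?_⟩
  · refine List.isChain_append.2 ⟨(List.isChain_append.1 h1.1).1, h2.1, ?_⟩
    intro p hp q hq
    have h3 := (List.isChain_append.1 h1.1).2.2 p hp
    apply h3
    rw [List.head?_append_of_ne_nil _ ho] at hq
    exact hq
  · intro hc
    rw [mem_Wn hr] at hc
    obtain ⟨s, v, t, e, hv, hcv⟩ := hc
    have hlen := congrArg List.length e
    simp only [List.length_append] at hlen
    by_cases hs : s.length + r ≤ a.length + o.length
    · apply h1.2
      rw [mem_Wn hr]
      have e1 : a ++ o = (s ++ (v ++ t)).take (a.length + o.length) := by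
        rw [← e, ← List.append_assoc, List.take_left' (by simp)]
      refine ⟨s, v, t.take (a.length + o.length - s.length - r), ?_, hv, hcv⟩
      rw [e1, List.take_append, List.take_append, List.take_of_length_le (by omega),
        List.take_of_length_le (by omega), hv]
    · apply h2.2
      rw [mem_Wn hr]
      have e1 : o ++ b = (s ++ (v ++ t)).drop a.length := by
        rw [← e, List.drop_left]
      refine ⟨s.drop a.length, v, t, ?_, hv, hcv⟩
      rw [e1, List.drop_append_of_le_length (by omega)]

/-- the basic hypotheses -/
structure Hyp (r : ℕ) (γ : List A → C) : Prop where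
  hr : 3 ≤ r
  ha : ∀ u : List A, r ≤ u.length → Pr u → Pr (Wn r γ u) ∧
    B u ≤ 2 ^ (u.length + 1) * (u.length + 1) ^ r * B (Wn r γ u)
  hb : ∀ w : List C, w ≠ [] → Pr w → 2 ^ (w.length + r) * B w ≤
    ∑ u ∈ Finset.univ.filter (fun u : Fin (w.length + r - 1) → A => Wn r γ (List.ofFn u) = w),
      B (List.ofFn u)

lemma three_colors : ∀ c x y z : C, x ≠ y → y ≠ z → x ≠ c → y ≠ c → z ≠ c → x = z := by decide

lemma D_zero_of_two {w : List C} (c : C) : Pr w → c ∉ w → D w = 0 := by
  induction w with
  | nil => intro _ _; rfl
  | cons x w ih =>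
    intro h hc
    match w, h, hc, ih with
    | [], _, _, _ => rfl
    | [y], _, _, _ => rfl
    | y :: z :: t, h, hc, ih =>
      rw [D_three]
      have h1 : x ≠ y := (List.isChain_cons_cons.1 h).1
      have h2 : y ≠ z := (List.isChain_cons_cons.1 (List.isChain_cons_cons.1 h).2).1
      have hx : x ≠ c := fun e => hc (by simp [e])
      have hy : y ≠ c := fun e => hc (by simp [e])
      have hz : z ≠ c := fun e => hc (by simp [e])
      have hxz : x = z := three_colors c x y z h1 h2 hx hy hz
      rw [if_pos hxz, ih (Pr_tail h) (fun e => hc (List.mem_cons_of_mem _ e))]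

lemma B_le_two_pow {α : Type*} [DecidableEq α] {w : List α} (h : D w = 0) : B w ≤ 2 ^ w.length := by
  have h1 : Rep 1 0 (0 + w.length) (w ++ []) := Rep.run w h Rep.nil
  have := UB w.length 1 0 w.length w (by omega) (by simpa using h1)
  simpa using this

lemma U1 (H : Hyp r γ) {c : C} {u : List A} (h : S r γ c u) (hu : r ≤ u.length) :
    B u ≤ 2 ^ ((u.length + 1) * (r + 2)) := by
  obtain ⟨h1, h2⟩ := H.ha u hu h.1
  have h3 := B_le_two_pow (D_zero_of_two c h1 h.2)
  have hlen : (Wn r γ u).length ≤ u.length := by
    rw [Wn_length (by have := H.hr; omega)]; have := H.hr; omega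
  calc B u ≤ _ := h2
    _ ≤ 2 ^ (u.length + 1) * (2 ^ (u.length + 1)) ^ r * 2 ^ (u.length + 1) := by
      have e1 : u.length + 1 ≤ 2 ^ (u.length + 1) := Nat.lt_two_pow_self.le
      have e2 : B (Wn r γ u) ≤ 2 ^ (u.length + 1) :=
        le_trans h3 (Nat.pow_le_pow_right (by norm_num) (by omega))
      gcongr
    _ = _ := by
      rw [← pow_mul, ← pow_add, ← pow_add]
      congr 1
      ring

/-- iterating a loop of the block graph -/
def X (q o : List A) : ℕ → List A
  | 0 => o
  | k + 1 => q ++ X q o k

lemma X_length (q o : List A) (k : ℕ) : (X q o k).length = k * q.length + o.length := by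
  induction k with
  | zero => simp [X]
  | succ k ih => simp only [X, List.length_append, ih]; ring

/-- a loop of the block graph avoiding a colour carries no defect -/
lemma pump (H : Hyp r γ) {c : C} {q o q' : List A} (ho : o.length = r)
    (he : q ++ o = o ++ q') (hS : S r γ c (q ++ o)) (hD : D o < D (q ++ o)) : False := by
  have hr := H.hr
  obtain ⟨y, z, o', rfl⟩ : ∃ y z o', o = y :: z :: o' := by
    match o, ho with
    | [], h => simp at h; omega
    | [y], h => simp at h; omega
    | y :: z :: o', _ => exact ⟨y, z, o', rfl⟩
  set o := y :: z :: o' with hodef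
  have hone : o ≠ [] := by simp [hodef]
  have hD1 : 1 ≤ D (q ++ [y, z]) := by
    have := D_overlap q y z o'
    rw [← hodef] at this
    omega
  have key : ∀ k, S r γ c (X q o k) ∧ (∃ b, X q o k = o ++ b) ∧ k ≤ D (X q o k) := by
    intro k
    induction k with
    | zero =>
      exact ⟨hS.suf (by omega), ⟨[], by simp [X]⟩, Nat.zero_le _⟩
    | succ k ih =>
      obtain ⟨i1, ⟨b, hb⟩, i3⟩ := ih
      refine ⟨?_, ⟨q' ++ b, ?_⟩, ?_⟩
      · rw [X, hb]
        apply glue (by omega) hone (by omega) hS
        rw [← hb]; exact i1
      · rw [X, hb, ← List.append_assoc, he, List.append_assoc]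
      · rw [X, hb]
        have := D_overlap q y z (o' ++ b)
        have e : o ++ b = y :: z :: (o' ++ b) := rfl
        rw [e, this, ← e, ← hb]
        omega
  obtain ⟨n0, h1, hn0⟩ := ((Nat.eventually_pow_lt_factorial_sub
    (2 ^ ((3 * q.length) * (r + 2)) * 2 ^ ((r + 1) * (r + 2))) 1).and
    (Filter.eventually_gt_atTop 0)).exists
  obtain ⟨k1, -, k3⟩ := key (3 * n0)
  have h2 := factorial_le n0 (X q o (3 * n0)) k1.1 k3
  have hlen := X_length q o (3 * n0)
  have h3 := U1 H k1 (by rw [hlen, ho]; omega)
  have h4 : (n0 - 1).factorial ≤ n0.factorial := Nat.factorial_le (by omega)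
  have h5 : 2 ^ (((X q o (3 * n0)).length + 1) * (r + 2)) ≤
      (2 ^ ((3 * q.length) * (r + 2)) * 2 ^ ((r + 1) * (r + 2))) ^ n0 := by
    rw [hlen, ho, ← pow_add, ← pow_mul]
    apply Nat.pow_le_pow_right (by norm_num)
    have : r + 1 ≤ (r + 1) * n0 := Nat.le_mul_of_pos_right _ (by omega)
    nlinarith
  omega

/-! ### bounded number of defects -/

def df (r : ℕ) : List A → List (List A)
  | x :: y :: z :: t => (if x ≠ z ∧ r ≤ t.length + 3 then [(x :: y :: z :: t).take r] else []) ++
      df r (y :: z :: t)
  | _ => []

lemma D_le_length (u : List A) : D u ≤ u.length := by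
  induction u with
  | nil => simp
  | cons x u ih => have := D_cons_le' x u; simp only [List.length_cons]; omega

lemma D_le_df (r : ℕ) (u : List A) : D u ≤ (df r u).length + r := by
  induction u with
  | nil => simp
  | cons x u ih =>
    match u, ih with
    | [], _ => simp
    | [y], _ => simp
    | y :: z :: t, ih =>
      rw [D_three, df, List.length_append]
      by_cases h : r ≤ t.length + 3
      · by_cases hxz : x = z
        · rw [if_pos hxz, if_neg (by simp [hxz])]
          simp only [List.length_nil]; omega
        · rw [if_neg hxz, if_pos ⟨hxz, h⟩]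
          simp only [List.length_singleton]; omega
      · have := D_le_length (x :: y :: z :: t)
        rw [D_three] at this
        simp only [List.length_cons] at this
        omega

lemma mem_df {r : ℕ} {u v : List A} : v ∈ df r u → ∃ a t, u = a ++ t ∧ v = t.take r ∧ r ≤ t.length := by
  induction u with
  | nil => intro h; simp [df] at h
  | cons x u ih =>
    intro h
    match u, ih, h with
    | [], _, h => simp [df] at h
    | [y], _, h => simp [df] at h
    | y :: z :: t, ih, h =>
      rw [df, List.mem_append] at h
      rcases h with h | h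
      · split_ifs at h with hc
        · rw [List.mem_singleton] at h
          exact ⟨[], _, rfl, h, by simp only [List.length_cons]; omega⟩
        · simp at h
      · obtain ⟨a, s, e, h1, h2⟩ := ih h
        exact ⟨x :: a, s, by rw [e]; rfl, h1, h2⟩

lemma df_nodup (H : Hyp r γ) {c : C} (u : List A) : S r γ c u → (df r u).Nodup := by
  have hr := H.hr
  induction u with
  | nil => intro _; simp [df]
  | cons x u ih =>
    intro h
    match u, ih, h with
    | [], _, _ => simp [df]
    | [y], _, _ => simp [df]
    | y :: z :: t, ih, h =>
      rw [df]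
      have h1 := ih (S.suf (a := [x]) (by omega) h)
      by_cases hc : x ≠ z ∧ r ≤ t.length + 3
      · rw [if_pos hc]
        rw [List.singleton_append, List.nodup_cons]
        refine ⟨?_, h1⟩
        intro hmem
        obtain ⟨a, s, e, e1, e2⟩ := mem_df hmem
        set o := List.take r (x :: y :: z :: t) with ho
        have holen : o.length = r := by
          rw [ho, List.length_take]; simp only [List.length_cons]; omega
        -- u = (x :: a) ++ s, s = o ++ s'
        have hs : s = o ++ s.drop r := by
          rw [e1, List.take_append_drop]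
        have hu : x :: y :: z :: t = (x :: a) ++ (o ++ s.drop r) := by
          rw [← hs, e]; rfl
        have hu2 : x :: y :: z :: t = o ++ (x :: y :: z :: t).drop r := by
          rw [ho, List.take_append_drop]
        have hpre : (x :: a) ++ o = (x :: y :: z :: t).take (a.length + 1 + r) := by
          conv_rhs => rw [hu, ← List.append_assoc]
          rw [List.take_left' (by simp [holen]; omega)]
        have hq : ∃ q', (x :: a) ++ o = o ++ q' := by
          refine ⟨((x :: y :: z :: t).drop r).take (a.length + 1), ?_⟩
          rw [hpre]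
          conv_lhs => rw [hu2]
          rw [List.take_append, List.take_of_length_le (by omega), holen,
            Nat.add_sub_cancel]
        obtain ⟨q', hq'⟩ := hq
        apply pump H holen hq'
        · have : S r γ c (((x :: a) ++ o) ++ s.drop r) := by
            rw [List.append_assoc, ← hu]; exact h
          exact this.pre (by omega)
        · -- the first triple is a defect
          have h3 : ∃ rest, (x :: a) ++ o = x :: y :: z :: rest := by
            rw [hq']
            refine ⟨(o.drop 3) ++ q', ?_⟩
            have : o = x :: y :: z :: o.drop 3 := by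
              rw [ho]
              obtain ⟨r', rfl⟩ : ∃ r', r = r' + 3 := ⟨r - 3, by omega⟩
              rfl
            conv_lhs => rw [this]
            rfl
          obtain ⟨rest, h3⟩ := h3
          have h4 : a ++ o = y :: z :: rest := by
            have := h3
            simp only [List.cons_append, List.cons.injEq, true_and] at this
            exact this
          rw [h3, D_three, if_neg hc.1, ← h4]
          have := D_right_le a o
          omega
      · rw [if_neg hc, List.nil_append]
        exact h1

lemma bounded_defects (H : Hyp r γ) {c : C} {u : List A} (h : S r γ c u) :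
    D u ≤ 4 ^ r + r := by
  have h1 := D_le_df r u
  have h2 := df_nodup H u h
  have h3 : (df r u).length ≤ 4 ^ r := by
    have hinj : ∀ v ∈ df r u, ∀ v' ∈ df r u,
        (fun i : Fin r => v.getD i 0) = (fun i : Fin r => v'.getD i 0) → v = v' := by
      intro v hv v' hv' e
      obtain ⟨a, t, -, e1, e2⟩ := mem_df hv
      obtain ⟨a', t', -, e1', e2'⟩ := mem_df hv'
      have l1 : v.length = r := by rw [e1, List.length_take]; omega
      have l2 : v'.length = r := by rw [e1', List.length_take]; omega
      apply List.ext_getElem (by omega)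
      intro i hi hi'
      have := congrFun e ⟨i, by omega⟩
      simp only at this
      rw [List.getD_eq_getElem _ _ hi, List.getD_eq_getElem _ _ hi'] at this
      exact this
    have h4 : ((df r u).map (fun v => fun i : Fin r => v.getD i 0)).Nodup := by
      apply List.Nodup.map_on
      · intro v hv v' hv' e
        exact hinj v hv v' hv' e
      · exact h2
    have h5 := h4.length_le_card
    rw [List.length_map] at h5
    simpa using h5
  omega

/-! ### counting words with few defects -/

def allA : List A := List.finRange 4

lemma mem_allA (x : A) : x ∈ allA := List.mem_finRange x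

def wl : ℕ → ℕ → List (List A)
  | 0, _ => [[]]
  | 1, _ => allA.map (fun x => [x])
  | 2, _ => allA.flatMap (fun x => allA.map (fun y => [x, y]))
  | m + 3, 0 => (wl (m + 2) 0).map (fun v => (v.getD 1 0) :: v)
  | m + 3, d + 1 => (wl (m + 2) (d + 1)).map (fun v => (v.getD 1 0) :: v) ++
      (wl (m + 2) d).flatMap (fun v => allA.map (fun x => x :: v))

lemma mem_wl (m : ℕ) : ∀ (d : ℕ) (u : List A), u.length = m → D u ≤ d → u ∈ wl m d := by
  induction m using Nat.strong_induction_on with
  | _ m ih =>
    intro d u hu hd
    match m, u, hu, ih with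
    | 0, [], _, _ => unfold wl; simp
    | 1, [x], _, _ => unfold wl; simp [mem_allA]
    | 2, [x, y], _, _ => unfold wl; simp [mem_allA]
    | m + 3, x :: y :: z :: t, hu, ih =>
      have hlen : (y :: z :: t).length = m + 2 := by simpa using hu
      rw [D_three] at hd
      by_cases hxz : x = z
      · rw [if_pos hxz] at hd
        have h1 := ih (m + 2) (by omega) d (y :: z :: t) hlen (by omega)
        have h2 : x :: y :: z :: t ∈ (wl (m + 2) d).map (fun v => (v.getD 1 0) :: v) := by
          rw [List.mem_map]
          exact ⟨_, h1, by subst hxz; rfl⟩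
        cases d with
        | zero => unfold wl; exact h2
        | succ d => unfold wl; exact List.mem_append_left _ h2
      · rw [if_neg hxz] at hd
        cases d with
        | zero => omega
        | succ d =>
          have h1 := ih (m + 2) (by omega) d (y :: z :: t) hlen (by omega)
          unfold wl
          apply List.mem_append_right
          rw [List.mem_flatMap]
          exact ⟨_, h1, by rw [List.mem_map]; exact ⟨x, mem_allA x, rfl⟩⟩

lemma wl_length (m : ℕ) : ∀ d, (wl m d).length ≤ 16 * (4 * m + 4) ^ d := by
  induction m using Nat.strong_induction_on with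
  | _ m ih =>
    intro d
    match m, ih with
    | 0, _ =>
      unfold wl
      have : 1 ≤ (4 * 0 + 4) ^ d := Nat.one_le_pow _ _ (by norm_num)
      simp only [List.length_singleton]; omega
    | 1, _ =>
      unfold wl
      have : 1 ≤ (4 * 1 + 4) ^ d := Nat.one_le_pow _ _ (by norm_num)
      simp only [List.length_map, allA, List.length_finRange]; omega
    | 2, _ =>
      unfold wl
      have : 1 ≤ (4 * 2 + 4) ^ d := Nat.one_le_pow _ _ (by norm_num)
      have e : (allA.flatMap (fun x => allA.map (fun y => [x, y]))).length = 16 := by decide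
      omega
    | m + 3, ih =>
      cases d with
      | zero =>
        unfold wl
        rw [List.length_map]
        have := ih (m + 2) (by omega) 0
        simpa using this
      | succ d =>
        unfold wl
        rw [List.length_append, List.length_map, List.length_flatMap]
        have h1 := ih (m + 2) (by omega) (d + 1)
        have h2 := ih (m + 2) (by omega) d
        simp only [List.length_map, List.map_const', List.sum_replicate, smul_eq_mul]
        have h3 : allA.length = 4 := by decide
        rw [h3]
        have h4 : (4 * (m + 2) + 4) ^ (d + 1) = (4 * (m + 2) + 4) ^ d * (4 * (m + 2) + 4) :=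
          pow_succ _ _
        have h5 : (4 * (m + 3) + 4) ^ (d + 1) = (4 * (m + 3) + 4) ^ d * (4 * (m + 3) + 4) :=
          pow_succ _ _
        have h6 : (4 * (m + 2) + 4) ^ d ≤ (4 * (m + 3) + 4) ^ d :=
          Nat.pow_le_pow_left (by omega) _
        rw [h5]
        rw [h4] at h1
        nlinarith

/-- among the words with a given image there is one with a large count -/
lemma exists_big (H : Hyp r γ) {w : List C} (hw : w ≠ []) (hp : Pr w) (d : ℕ)
    (hd : ∀ u, Pr u → Wn r γ u = w → D u ≤ d) :
    ∃ u, u.length = w.length + r - 1 ∧ Pr u ∧ Wn r γ u = w ∧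
      2 ^ (w.length + r) * B w ≤ 16 * (4 * u.length + 4) ^ d * B u := by
  by_contra hcon
  push Not at hcon
  have h1 := H.hb w hw hp
  set m := w.length + r - 1 with hm
  set Fs := Finset.univ.filter (fun u : Fin m → A => Wn r γ (List.ofFn u) = w) with hF
  set Fp := Fs.filter (fun u => Pr (List.ofFn u)) with hFp
  have h2 : ∑ u ∈ Fs, B (List.ofFn u) = ∑ u ∈ Fp, B (List.ofFn u) := by
    rw [hFp]
    symm
    apply Finset.sum_filter_of_ne
    intro u _ hne
    by_contra hc
    exact hne (B_of_not hc)
  have hcard : Fp.card ≤ 16 * (4 * m + 4) ^ d := by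
    refine le_trans ?_ (wl_length m d)
    rw [← List.length_map (f := fun l => l) (as := wl m d)]
    have : Fp.card = (Fp.image List.ofFn).card := by
      rw [Finset.card_image_of_injective]
      exact List.ofFn_injective
    rw [this]
    refine le_trans (Finset.card_le_card (t := (wl m d).toFinset) ?_) ?_
    · intro v hv
      rw [Finset.mem_image] at hv
      obtain ⟨u, hu, rfl⟩ := hv
      rw [hFp, Finset.mem_filter, hF, Finset.mem_filter] at hu
      rw [List.mem_toFinset]
      exact mem_wl m d _ (List.length_ofFn) (hd _ hu.2 hu.1.2)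
    · simpa using List.toFinset_card_le (wl m d)
  have h3 : (16 * (4 * m + 4) ^ d) * ∑ u ∈ Fp, B (List.ofFn u) ≤
      Fp.card * (2 ^ (w.length + r) * B w - 1) := by
    rw [Finset.mul_sum]
    refine le_trans (Finset.sum_le_sum (g := fun _ => 2 ^ (w.length + r) * B w - 1) ?_) ?_
    · intro u hu
      rw [hFp, Finset.mem_filter, hF, Finset.mem_filter] at hu
      have := hcon (List.ofFn u) (List.length_ofFn) hu.2 hu.1.2
      rw [List.length_ofFn] at this
      omega
    · simp
  have hBw : 0 < 2 ^ (w.length + r) * B w := Nat.mul_pos (by positivity) (B_pos hp)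
  rw [h2] at h1
  set T := ∑ u ∈ Fp, B (List.ofFn u)
  set Q := 2 ^ (w.length + r) * B w
  set P := 16 * (4 * m + 4) ^ d with hP
  have hPpos : 0 < P := by positivity
  have h4 : P * Q ≤ P * T := Nat.mul_le_mul_left _ h1
  have h5 : Fp.card * (Q - 1) ≤ P * (Q - 1) := Nat.mul_le_mul_right _ hcard
  have h6 : P * (Q - 1) < P * Q := Nat.mul_lt_mul_of_pos_left (by omega) hPpos
  omega

end Pool.Agent.R987.FD
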