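import Pool.Agent.R987.FD.Comb1

/-! Decomposition into long alternating runs, and the structure of words avoiding a colour. -/

namespace Pool.Agent.R987.FD

open Finset

section dec
variable {α : Type*} [DecidableEq α]

/-- the alternating word `R` is broken by the next letter of `v` -/
def Brk (R v : List α) : Prop := ∀ z v', v = z :: v' → D (R ++ [z]) ≠ 0

lemma split (u : List α) : u ≠ [] → ∃ R v, u = R ++ v ∧ R ≠ [] ∧ D R = 0 ∧ Brk R v := by
  induction u with
  | nil => intro h; exact absurd rfl h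
  | cons x u ih =>
    intro _
    by_cases hu : u = []
    · subst hu
      exact ⟨[x], [], rfl, by simp, rfl, fun z v' h => by simp at h⟩
    · obtain ⟨R, v, e, hR, hD, hB⟩ := ih hu
      by_cases h0 : D (x :: R) = 0
      · refine ⟨x :: R, v, by rw [e]; rfl, by simp, h0, ?_⟩
        intro z v' hz
        have h1 := hB z v' hz
        have h2 := D_cons_le x (R ++ [z])
        rw [List.cons_append]
        omega
      · match R, e, h0, hD with
        | [], _, h0, _ => simp at h0
        | [y], _, h0, _ => simp at h0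
        | y :: z :: R', e, h0, hD =>
          refine ⟨[x, y], z :: R' ++ v, by rw [e]; rfl, by simp, rfl, ?_⟩
          intro w v' hw
          have hw' : w = z := by
            simp only [List.cons_append, List.cons.injEq] at hw
            exact hw.1.symm
          subst hw'
          intro h1
          apply h0
          simp only [List.cons_append, List.nil_append, D_three, D_two] at h1 ⊢
          omega

lemma D_overlap1 (a : List α) (z : α) (b : List α) :
    D (a ++ [z]) + D (z :: b) ≤ D (a ++ z :: b) := by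
  induction a with
  | nil => simp
  | cons c a ih =>
    match a, ih with
    | [], _ => simpa using D_cons_le c (z :: b)
    | [d], ih =>
      simp only [List.cons_append, List.nil_append, D_three, D_two] at ih ⊢
      omega
    | d :: e :: a, ih =>
      simp only [List.cons_append] at ih ⊢
      rw [D_three, D_three]
      omega

inductive Gr (Λ : ℕ) : ℕ → ℕ → ℕ → List α → Prop
  | nil : Gr Λ 0 0 0 []
  | short (R : List α) {p K L : ℕ} {u : List α} : Gr Λ p K L u → Gr Λ p (K + R.length) L (R ++ u)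
  | long (R : List α) {p K L : ℕ} {u : List α} : Λ ≤ R.length → D R = 0 → Brk R u →
      Gr Λ p K L u → Gr Λ (p + 1) K (L + R.length) (R ++ u)

lemma Gr.rep {Λ p K L : ℕ} {u : List α} (h : Gr Λ p K L u) : Rep p K L u := by
  induction h with
  | nil => exact Rep.nil
  | short R _ ih => exact ih.junks R
  | long R _ hD _ _ ih => exact Rep.run R hD ih

lemma exists_Gr (Λ n : ℕ) : ∀ u : List α, u.length ≤ n →
    ∃ p K L, Gr Λ p K L u ∧ K ≤ (D u + 1) * Λ := by
  induction n with
  | zero =>
    intro u hu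
    have : u = [] := List.length_eq_zero_iff.1 (by omega)
    subst this
    exact ⟨0, 0, 0, Gr.nil, Nat.zero_le _⟩
  | succ n ih =>
    intro u hu
    by_cases h0 : u = []
    · subst h0
      exact ⟨0, 0, 0, Gr.nil, Nat.zero_le _⟩
    · obtain ⟨R, v, e, hR, hD, hB⟩ := split u h0
      have hRl : 0 < R.length := List.length_pos_iff.2 hR
      have hlen : u.length = R.length + v.length := by rw [e]; simp
      by_cases hv : v = []
      · subst hv
        subst e
        by_cases hΛ : Λ ≤ R.length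
        · exact ⟨0 + 1, 0, 0 + R.length, Gr.long R hΛ hD hB Gr.nil, Nat.zero_le _⟩
        · refine ⟨0, 0 + R.length, 0, Gr.short R Gr.nil, ?_⟩
          have : (D (R ++ []) + 1) * Λ ≥ 1 * Λ := Nat.mul_le_mul_right _ (by omega)
          omega
      · obtain ⟨p, K, L, hG, hK⟩ := ih v (by omega)
        have hDu : D v + 1 ≤ D u := by
          obtain ⟨z, v', rfl⟩ := List.exists_cons_of_ne_nil hv
          have h1 := hB z v' rfl
          have h2 := D_overlap1 R z v'
          rw [e]; omega
        have hmul : (D v + 1) * Λ + Λ ≤ (D u + 1) * Λ := by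
          have : (D v + 1 + 1) * Λ ≤ (D u + 1) * Λ := Nat.mul_le_mul_right _ (by omega)
          calc _ = (D v + 1 + 1) * Λ := by ring
            _ ≤ _ := this
        subst e
        by_cases hΛ : Λ ≤ R.length
        · exact ⟨p + 1, K, L + R.length, Gr.long R hΛ hD hB hG, by omega⟩
        · exact ⟨p, K + R.length, L, Gr.short R hG, by omega⟩

lemma Gr.extract {Λ p K L : ℕ} {u : List α} (h : Gr Λ p K L u) : ∀ p', p = p' + 1 →
    ∃ J R v K' L', u = J ++ (R ++ v) ∧ Λ ≤ R.length ∧ D R = 0 ∧ Brk R v ∧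
      Gr Λ p' K' L' v ∧ K = J.length + K' := by
  induction h with
  | nil => intro p' h; omega
  | @short R p K L u h ih =>
    intro p' hp
    obtain ⟨J, R', v, K', L', e, h1, h2, h3, h4, h5⟩ := ih p' hp
    refine ⟨R ++ J, R', v, K', L', by rw [e]; simp, h1, h2, h3, h4, by
      rw [h5, List.length_append]; omega⟩
  | @long R p K L u h1 h2 h3 h4 ih =>
    intro p' hp
    have : p = p' := by omega
    subst this
    exact ⟨[], R, u, K, L, rfl, h1, h2, h3, h4, by simp⟩

lemma Gr.zero {Λ p K L : ℕ} {u : List α} (h : Gr Λ p K L u) (hp : p = 0) : L = 0 := by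
  induction h with
  | nil => rfl
  | short R _ ih => exact ih hp
  | long R _ _ _ _ _ => omega

lemma alt_of_D {v : List α} {s t : α} (hD : D v = 0) (hP : Pr v) (hl : 2 ≤ v.length)
    (hm : ∀ c ∈ v, c = s ∨ c = t) : A2 s t v.length v := by
  match v, hl with
  | x :: y :: u, _ =>
    have h1 := eq_alt_of_D hD
    have hxy : x ≠ y := (List.isChain_cons_cons.1 hP).1
    have hx := hm x (by simp)
    have hy := hm y (by simp)
    have hlen : (x :: y :: u).length = u.length + 2 := by simp
    rw [hlen]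
    rcases hx with hx | hx <;> rcases hy with hy | hy
    · exact absurd (hx.trans hy.symm) hxy
    · left; rw [hx, hy] at h1 ⊢; exact h1
    · right; rw [hx, hy] at h1 ⊢; exact h1
    · exact absurd (hx.trans hy.symm) hxy

lemma A2_of_run {R : List α} (hD : D R = 0) (hP : Pr R) (hl : 2 ≤ R.length) :
    ∃ s t, s ≠ t ∧ R = alt s t R.length := by
  match R, hl with
  | x :: y :: u, _ =>
    exact ⟨x, y, (List.isChain_cons_cons.1 hP).1, by simpa using eq_alt_of_D hD⟩

omit [DecidableEq α] in
lemma A2.symm {s t : α} {k : ℕ} {R : List α} (h : A2 s t k R) : A2 t s k R := Or.symm h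

omit [DecidableEq α] in
lemma A2.mem {s t : α} {k : ℕ} {R : List α} (h : A2 s t k R) {c : α} (hc : c ∈ R) :
    c = s ∨ c = t := by
  rcases h with h | h
  · rw [h] at hc; exact mem_alt k hc
  · rw [h] at hc; exact (mem_alt k hc).symm

omit [DecidableEq α] in
lemma A2.pr {s t : α} (hst : s ≠ t) {k : ℕ} {R : List α} (h : A2 s t k R) : Pr R := by
  rcases h with h | h
  · rw [h]; exact alt_Pr hst k
  · rw [h]; exact alt_Pr hst.symm k

lemma A2.dz {s t : α} {k : ℕ} {R : List α} (h : A2 s t k R) : D R = 0 := by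
  rcases h with h | h <;> rw [h] <;> exact D_alt _ _ _

omit [DecidableEq α] in
lemma A2_la {s t : α} {k : ℕ} {R : List α} (h : A2 s t k R) : R = la s t k ∨ R = la t s k := by
  rw [la_eq_alt, la_eq_alt]
  rcases h with h | h <;> by_cases hk : Even k <;> simp [h, hk]

omit [DecidableEq α] in
lemma la_A2 (s t : α) (k : ℕ) : A2 s t k (la s t k) := by
  rw [la_eq_alt]
  by_cases hk : Even k
  · rw [if_pos hk]; right; rfl
  · rw [if_neg hk]; left; rfl

omit [DecidableEq α] in
lemma alt_add (m n : ℕ) : ∀ s t : α,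
    alt s t (m + n) = alt s t m ++ (if Even m then alt s t n else alt t s n) := by
  induction m with
  | zero => intro s t; simp
  | succ m ih =>
    intro s t
    rw [show m + 1 + n = (m + n) + 1 by ring, alt_succ, ih t s, alt_succ]
    by_cases hm : Even m
    · simp [hm, Nat.even_add_one]
    · simp [hm, Nat.even_add_one]

omit [DecidableEq α] in
lemma alt_prefix (s t : α) {m n : ℕ} (h : m ≤ n) : ∃ b, alt s t n = alt s t m ++ b := by
  obtain ⟨j, rfl⟩ := Nat.exists_eq_add_of_le h
  exact ⟨_, alt_add m j s t⟩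

omit [DecidableEq α] in
lemma la_suffix (s t : α) {m n : ℕ} (h : m ≤ n) : ∃ b, la s t n = b ++ la s t m := by
  obtain ⟨j, rfl⟩ := Nat.exists_eq_add_of_le h
  induction j with
  | zero => exact ⟨[], rfl⟩
  | succ j ih =>
    obtain ⟨b, hb⟩ := ih (by omega)
    obtain ⟨c, -, e⟩ := la_cons (m + j) s t
    exact ⟨c :: b, by rw [show m + (j + 1) = m + j + 1 by ring, e, hb]; rfl⟩

/-- after a long alternating word the breaking letter is a new one -/
lemma brk_ne {R : List α} {s t z : α} {k : ℕ} (h : A2 s t k R) (hk : 2 ≤ k)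
    (hP : Pr (R ++ [z])) (hD : D (R ++ [z]) ≠ 0) : z ≠ s ∧ z ≠ t := by
  constructor
  · rintro rfl
    apply hD
    have := alt_of_D (s := z) (t := t) (v := R ++ [z])
    rcases A2_la h with h' | h'
    · -- R ends with z : not proper
      exfalso
      obtain ⟨k, rfl⟩ : ∃ k', k = k' + 1 := ⟨k - 1, by omega⟩
      rw [h', la_succ, List.append_assoc] at hP
      exact (List.isChain_cons_cons.1 (List.isChain_append.1 hP).2.1).1 rfl
    · rw [h', ← la_succ]; exact D_la _ _ _
  · rintro rfl
    apply hD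
    rcases A2_la h with h' | h'
    · rw [h', ← la_succ]; exact D_la _ _ _
    · exfalso
      obtain ⟨k, rfl⟩ : ∃ k', k = k' + 1 := ⟨k - 1, by omega⟩
      rw [h', la_succ, List.append_assoc] at hP
      exact (List.isChain_cons_cons.1 (List.isChain_append.1 hP).2.1).1 rfl

/-- maximal extension to the left -/
lemma extL (n : ℕ) : ∀ (M : List α) (s t : α) (k : ℕ), M.length ≤ n → 1 ≤ k →
    Pr (M ++ alt s t k) → ∃ M' s' t' k', M ++ alt s t k = M' ++ alt s' t' k' ∧
      ((s' = s ∧ t' = t) ∨ (s' = t ∧ t' = s)) ∧ k ≤ k' ∧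
      (∀ l ∈ M'.getLast?, l ≠ s ∧ l ≠ t) ∧ (M = [] → M' = []) := by
  induction n with
  | zero =>
    intro M s t k hM _ _
    have : M = [] := List.length_eq_zero_iff.1 (by omega)
    subst this
    exact ⟨[], s, t, k, rfl, Or.inl ⟨rfl, rfl⟩, le_rfl, by simp, fun _ => rfl⟩
  | succ n ih =>
    intro M s t k hM hk hP
    rcases List.eq_nil_or_concat M with h0 | ⟨M0, q, h0⟩
    · subst h0
      exact ⟨[], s, t, k, rfl, Or.inl ⟨rfl, rfl⟩, le_rfl, by simp, fun _ => rfl⟩
    · rw [List.concat_eq_append] at h0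
      subst h0
      by_cases hq : q = s ∨ q = t
      · have hqs : q ≠ s := by
          rintro rfl
          obtain ⟨k, rfl⟩ : ∃ k', k = k' + 1 := ⟨k - 1, by omega⟩
          rw [List.append_assoc] at hP
          exact (List.isChain_cons_cons.1 (List.isChain_append.1 hP).2.1).1 rfl
        have hqt : q = t := by tauto
        subst hqt
        have e1 : (M0 ++ [q]) ++ alt s q k = M0 ++ alt q s (k + 1) := by
          rw [List.append_assoc]; rfl
        rw [e1] at hP ⊢
        obtain ⟨M', s', t', k', h1, h2, h3, h4, h5⟩ := ih M0 q s (k + 1) (by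
          simp only [List.length_append, List.length_singleton] at hM; omega) (by omega) hP
        refine ⟨M', s', t', k', h1, h2.symm, by omega, fun l hl => (h4 l hl).symm, ?_⟩
        intro h; simp at h
      · push Not at hq
        refine ⟨M0 ++ [q], s, t, k, rfl, Or.inl ⟨rfl, rfl⟩, le_rfl, ?_, ?_⟩
        · intro l hl
          simp only [List.getLast?_append, List.getLast?_singleton, Option.some_or,
            Option.mem_def, Option.some.injEq] at hl
          rw [← hl]; exact hq
        · intro h; simp at h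

end dec

variable {r : ℕ} {γ : List A → C}

/-- the letters `s,t` alternate without the colour `c` -/
def KP (r : ℕ) (γ : List A → C) (c : C) (s t : A) : Prop :=
  s ≠ t ∧ γ (alt s t r) ≠ c ∧ γ (alt t s r) ≠ c

lemma KP.symm {c : C} {s t : A} (h : KP r γ c s t) : KP r γ c t s := ⟨h.1.symm, h.2.2, h.2.1⟩

lemma KP.S_of (hr : 3 ≤ r) {c : C} {s t : A} (h : KP r γ c s t) {k : ℕ} {R : List A}
    (hR : A2 s t k R) : S r γ c R := by
  refine ⟨hR.pr h.1, ?_⟩
  intro hc
  rw [mem_Wn (by omega)] at hc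
  obtain ⟨a, v, b, e, hv, hcv⟩ := hc
  have hDv : D v = 0 := by
    have h1 := hR.dz
    rw [e] at h1
    have h2 := D_right_le a (v ++ b)
    have h3 := D_left_le v b
    omega
  have hPv : Pr v := by
    have h1 := hR.pr h.1
    rw [e] at h1
    exact (List.isChain_append.1 (List.isChain_append.1 h1).2.1).1
  have hm : ∀ c ∈ v, c = s ∨ c = t := fun c hc => hR.mem (by rw [e]; simp [hc])
  have := alt_of_D hDv hPv (by omega) hm
  rw [hv] at this
  rcases this with h1 | h1
  · rw [h1] at hcv; exact h.2.1 hcv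
  · rw [h1] at hcv; exact h.2.2 hcv

lemma key_of_S (hr : 3 ≤ r) {c : C} {s t : A} {k : ℕ} (hst : s ≠ t) (hk : r + 1 ≤ k)
    {R : List A} (hR : A2 s t k R) (h : S r γ c R) : KP r γ c s t := by
  have main : ∀ s t : A, s ≠ t → S r γ c (alt s t k) → KP r γ c s t := by
    intro s t hst h
    refine ⟨hst, ?_, ?_⟩
    · intro hc
      apply h.2
      rw [mem_Wn (by omega)]
      obtain ⟨b, hb⟩ := alt_prefix s t (show r ≤ k by omega)
      exact ⟨[], alt s t r, b, hb, by simp, hc⟩
    · intro hc
      apply h.2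
      rw [mem_Wn (by omega)]
      obtain ⟨k', rfl⟩ : ∃ k', k = k' + 1 := ⟨k - 1, by omega⟩
      obtain ⟨b, hb⟩ := alt_prefix t s (show r ≤ k' by omega)
      exact ⟨[s], alt t s r, b, by rw [alt_succ, hb]; rfl, by simp, hc⟩
  rcases hR with e | e
  · exact main s t hst (e ▸ h)
  · exact (main t s hst.symm (e ▸ h)).symm

lemma color_unique : ∀ c c' g1 g2 : C, g1 ≠ g2 → g1 ≠ c → g2 ≠ c → g1 ≠ c' → g2 ≠ c' → c = c' := by
  decide

lemma KP.unique (H : Hyp r γ) {c c' : C} {s t : A} (h : KP r γ c s t) (h' : KP r γ c' s t) :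
    c = c' := by
  have hr := H.hr
  have h1 := (H.ha (alt s t (r + 1)) (by simp) (alt_Pr h.1 _)).1
  have g0 := Wn_get (r := r) (γ := γ) (by omega) (alt s t (r + 1)) 0
  have g1 := Wn_get (r := r) (γ := γ) (by omega) (alt s t (r + 1)) 1
  rw [if_pos (by simp)] at g0
  rw [if_pos (by simp; omega)] at g1
  have e0 : List.take r (List.drop 0 (alt s t (r + 1))) = alt s t r := by
    rw [alt_snoc]; simp
  have e1 : List.take r (List.drop 1 (alt s t (r + 1))) = alt t s r := by
    rw [alt_succ]; simp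
  rw [e0] at g0
  rw [e1] at g1
  have hne : γ (alt s t r) ≠ γ (alt t s r) := by
    match hw : Wn r γ (alt s t (r + 1)), h1, g0, g1 with
    | [], _, g0, _ => simp at g0
    | [x], _, _, g1 => simp at g1
    | x :: y :: w, h1, g0, g1 =>
      simp only [List.getElem?_cons_zero, List.getElem?_cons_succ, Option.some.injEq] at g0 g1
      rw [← g0, ← g1]
      exact (List.isChain_cons_cons.1 h1).1
  exact color_unique c c' _ _ hne h.2.1 h.2.2 h'.2.1 h'.2.2

/-- the same pair of letters cannot alternate twice -/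
lemma no_repeat (H : Hyp r γ) {c : C} {a R m R' b : List A} {s t : A} {k k' : ℕ}
    (hS : S r γ c (a ++ (R ++ (m ++ (R' ++ b))))) (hR : A2 s t k R) (hk : r + 1 ≤ k)
    (hR' : A2 s t k' R') (hk' : r + 1 ≤ k') (hb : Brk R (m ++ R')) : False := by
  have hr := H.hr
  have main : ∀ s t : A, R = alt s t k → A2 s t k' R' → False := by
    intro s t hR hR'
    set o := alt s t r with ho
    have holen : o.length = r := by simp [ho]
    have hone : o ≠ [] := by intro h0; rw [h0] at holen; simp at holen; omega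
    obtain ⟨e, rest, he⟩ : ∃ e rest, R' = e ++ (o ++ rest) := by
      rcases hR' with h | h
      · obtain ⟨b, hb⟩ := alt_prefix s t (show r ≤ k' by omega)
        exact ⟨[], b, by rw [h, hb]; rfl⟩
      · obtain ⟨k', rfl⟩ : ∃ j, k' = j + 1 := ⟨k' - 1, by omega⟩
        obtain ⟨b, hb⟩ := alt_prefix s t (show r ≤ k' by omega)
        exact ⟨[t], b, by rw [h, alt_succ, hb]; rfl⟩
    obtain ⟨R1, hR1⟩ := alt_prefix s t (show r ≤ k by omega)
    rw [← ho, ← hR] at hR1
    apply pump H (q := R ++ (m ++ e)) (q' := R1 ++ (m ++ (e ++ o))) holen (c := c)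
    · rw [List.append_assoc, List.append_assoc]
      conv_lhs => rw [hR1]
      rw [List.append_assoc]
    · have : a ++ (R ++ (m ++ (R' ++ b))) = a ++ (((R ++ (m ++ e)) ++ o) ++ (rest ++ b)) := by
        rw [he]; simp
      rw [this] at hS
      exact hS.inf (by omega)
    · rw [ho, D_alt, ← ho]
      have hne : m ++ (e ++ o) ≠ [] := by simp [hone]
      obtain ⟨z, v, hz⟩ := List.exists_cons_of_ne_nil hne
      have h1 := hb z (v ++ rest) (by
        rw [he, ← List.append_assoc e o rest, ← List.append_assoc m (e ++ o) rest, hz]; rfl)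
      have h2 : (R ++ (m ++ e)) ++ o = (R ++ [z]) ++ v := by
        rw [List.append_assoc, List.append_assoc, hz]; simp
      rw [h2]
      have := D_left_le (R ++ [z]) v
      omega
  rcases hR with h | h
  · exact main s t h hR'
  · exact main t s h hR'.symm

open Classical in
/-- unordered pairs of letters alternating without the colour `c` -/
noncomputable def Ks (r : ℕ) (γ : List A → C) (c : C) : Finset (A × A) :=
  Finset.univ.filter (fun p => p.1 < p.2 ∧ KP r γ c p.1 p.2)

def key (s t : A) : A × A := if s < t then (s, t) else (t, s)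

lemma key_mem {c : C} {s t : A} (h : KP r γ c s t) : key s t ∈ Ks r γ c := by
  classical
  unfold key
  simp only [Ks, Finset.mem_filter]
  refine ⟨Finset.mem_univ _, ?_⟩
  by_cases hst : s < t
  · rw [if_pos hst]; exact ⟨hst, h⟩
  · rw [if_neg hst]
    exact ⟨lt_of_le_of_ne (not_lt.1 hst) h.1.symm, h.symm⟩

lemma key_A2 {s t : A} {k : ℕ} {R : List A} (h : A2 s t k R) :
    A2 (key s t).1 (key s t).2 k R := by
  unfold key
  by_cases hst : s < t
  · rw [if_pos hst]; exact h
  · rw [if_neg hst]; exact h.symm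

lemma key_symm {s t : A} (h : s ≠ t) : key s t = key t s := by
  revert h
  revert s t
  unfold key
  decide

lemma key_inj {s t s' t' : A} (h : key s t = key s' t') :
    (s' = s ∧ t' = t) ∨ (s' = t ∧ t' = s) := by
  revert h
  revert s t s' t'
  unfold key
  decide

lemma Ks_card_sum (H : Hyp r γ) : (Ks r γ 0).card + (Ks r γ 1).card + (Ks r γ 2).card ≤ 6 := by
  classical
  have hd : ∀ c c', c ≠ c' → Disjoint (Ks r γ c) (Ks r γ c') := by
    intro c c' hc
    rw [Finset.disjoint_left]
    intro p hp hp'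
    unfold Ks at hp hp'
    rw [Finset.mem_filter] at hp hp'
    exact hc (hp.2.2.unique H hp'.2.2)
  have h1 := Finset.card_union_of_disjoint (hd 0 1 (by decide))
  have h2 : Disjoint (Ks r γ 0 ∪ Ks r γ 1) (Ks r γ 2) := by
    rw [Finset.disjoint_union_left]
    exact ⟨hd 0 2 (by decide), hd 1 2 (by decide)⟩
  have h3 := Finset.card_union_of_disjoint h2
  rw [← h1, ← h3]
  have h4 : (Ks r γ 0 ∪ Ks r γ 1) ∪ Ks r γ 2 ⊆
      Finset.univ.filter (fun p : A × A => p.1 < p.2) := by
    intro p hp
    rw [Finset.mem_filter]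
    refine ⟨Finset.mem_univ _, ?_⟩
    simp only [Finset.mem_union, Ks, Finset.mem_filter, Finset.mem_univ, true_and] at hp
    tauto
  have h5 := Finset.card_le_card h4
  have h6 : (Finset.univ.filter (fun p : A × A => p.1 < p.2)).card = 6 := by decide
  omega

lemma keys_of_Gr (H : Hyp r γ) {c : C} {Λ p K L : ℕ} {u : List A} (h : Gr Λ p K L u)
    (hΛ : r + 1 ≤ Λ) : S r γ c u → ∃ T : Finset (A × A), T ⊆ Ks r γ c ∧ T.card = p ∧
      ∀ x ∈ T, ∃ a R m, u = a ++ (R ++ m) ∧ A2 x.1 x.2 R.length R ∧ r + 1 ≤ R.length := by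
  classical
  have hr := H.hr
  induction h with
  | nil => intro _; exact ⟨∅, by simp, by simp, by simp⟩
  | @short R p K L u h ih =>
    intro hS
    obtain ⟨T, h1, h2, h3⟩ := ih (hS.suf (by omega))
    refine ⟨T, h1, h2, ?_⟩
    intro x hx
    obtain ⟨a, R', m, e, h4⟩ := h3 x hx
    exact ⟨R ++ a, R', m, by rw [e]; simp, h4⟩
  | @long R p K L u hl hD hB h ih =>
    intro hS
    obtain ⟨T, h1, h2, h3⟩ := ih (hS.suf (by omega))
    have hSR : S r γ c R := hS.pre (by omega)
    obtain ⟨s, t, hst, hR⟩ := A2_of_run hD hSR.1 (by omega)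
    have hA : A2 s t R.length R := Or.inl hR
    have hKP := key_of_S (by omega) hst (by omega) hA hSR
    have hnot : key s t ∉ T := by
      intro hmem
      obtain ⟨a, R', m, e, h4, h5⟩ := h3 _ hmem
      have hA' := key_A2 hA
      have : R ++ u = [] ++ (R ++ (a ++ (R' ++ m))) := by rw [e]; rfl
      rw [this] at hS
      apply no_repeat H hS hA' (by omega) h4 h5
      intro z v' hz
      apply hB z (v' ++ m)
      rw [e, ← List.append_assoc, hz]; rfl
    refine ⟨insert (key s t) T, ?_, ?_, ?_⟩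
    · intro x hx
      rw [Finset.mem_insert] at hx
      rcases hx with rfl | hx
      · exact key_mem hKP
      · exact h1 hx
    · rw [Finset.card_insert_of_notMem hnot, h2]
    · intro x hx
      rw [Finset.mem_insert] at hx
      rcases hx with rfl | hx
      · exact ⟨[], R, u, rfl, key_A2 hA, by omega⟩
      · obtain ⟨a, R', m, e, h4⟩ := h3 x hx
        exact ⟨R ++ a, R', m, by rw [e]; simp, h4⟩

lemma Gr_le_card (H : Hyp r γ) {c : C} {Λ p K L : ℕ} {u : List A} (h : Gr Λ p K L u)
    (hΛ : r + 1 ≤ Λ) (hS : S r γ c u) : p ≤ (Ks r γ c).card := by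
  obtain ⟨T, h1, h2, -⟩ := keys_of_Gr H h hΛ hS
  rw [← h2]
  exact Finset.card_le_card h1

/-! ### asymptotics -/

lemma asym {p q : ℕ} (hpq : p < q) (P K : ℕ) :
    ∃ N0, ∀ N, N0 ≤ N → P * (N + 1) ^ K * p ^ N < q ^ N := by
  have hq : (0 : ℝ) < q := by exact_mod_cast (by omega : 0 < q)
  have habs : |(p : ℝ) / q| < 1 := by
    rw [abs_of_nonneg (by positivity), div_lt_one hq]
    exact_mod_cast hpq
  have ht := tendsto_pow_const_mul_const_pow_of_abs_lt_one K habs
  have ht2 := ht.const_mul ((P : ℝ) * 2 ^ K)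
  rw [mul_zero] at ht2
  have hev := (ht2.eventually_lt_const (show (0 : ℝ) < 1 by norm_num)).and
    (Filter.eventually_ge_atTop 1)
  obtain ⟨N0, hN0⟩ := Filter.eventually_atTop.1 hev
  refine ⟨N0, fun N hN => ?_⟩
  obtain ⟨h1, h2⟩ := hN0 N hN
  have h3 : ((P * (N + 1) ^ K * p ^ N : ℕ) : ℝ) < ((q ^ N : ℕ) : ℝ) := by
    push_cast
    have h4 : ((N : ℝ) + 1) ^ K ≤ 2 ^ K * (N : ℝ) ^ K := by
      rw [← mul_pow]
      apply pow_le_pow_left₀ (by positivity)
      have : (1 : ℝ) ≤ N := by exact_mod_cast h2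
      linarith
    have hqN : (0 : ℝ) < (q : ℝ) ^ N := by positivity
    calc (P : ℝ) * (N + 1) ^ K * p ^ N ≤ P * (2 ^ K * (N : ℝ) ^ K) * p ^ N := by gcongr
      _ = (P * 2 ^ K * ((N : ℝ) ^ K * (p / q) ^ N)) * q ^ N := by
          rw [div_pow]; field_simp
      _ < 1 * q ^ N := by gcongr
      _ = _ := one_mul _
  exact_mod_cast h3

lemma two_colors : ∀ c : C, ∃ a b : C, a ≠ b ∧ a ≠ c ∧ b ≠ c := by decide

/-- words avoiding the colour `c` with a large count -/
lemma big_u (H : Hyp r γ) (c : C) (n : ℕ) (hn : 1 ≤ n) : ∃ u, S r γ c u ∧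
    u.length = n + r - 1 ∧
    4 ^ u.length ≤ (2 ^ r * (16 * 4 ^ (4 ^ r + r))) * (u.length + 1) ^ (4 ^ r + r) * B u := by
  have hr := H.hr
  obtain ⟨a, b, hab, hac, hbc⟩ := two_colors c
  have hw : Pr (alt a b n) := alt_Pr hab n
  have hwn : alt a b n ≠ [] := by
    intro h0
    have := congrArg List.length h0
    simp at this; omega
  have hcw : c ∉ alt a b n := by
    intro hc
    rcases mem_alt n hc with h | h
    · exact hac h.symm
    · exact hbc h.symm
  have hS : ∀ u, Pr u → Wn r γ u = alt a b n → S r γ c u := by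
    intro u hu e
    exact ⟨hu, by rw [e]; exact hcw⟩
  obtain ⟨u, h1, h2, h3, h4⟩ := exists_big H hwn hw (4 ^ r + r)
    (fun u hu e => bounded_defects H (hS u hu e))
  rw [alt_length] at h1 h4
  refine ⟨u, hS u h2 h3, h1, ?_⟩
  have h5 : 2 ^ (n - 1) ≤ B (alt a b n) :=
    two_pow_le (n - 1) _ (by rw [alt_length]; omega) hw
  have h6 : 4 ^ u.length = 2 ^ (r - 1) * (2 ^ (n + r) * 2 ^ (n - 1)) := by
    rw [show (4 : ℕ) = 2 ^ 2 by norm_num, ← pow_mul, ← pow_add, ← pow_add, h1]
    congr 1; omega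
  have h7 : 2 ^ (r - 1) ≤ 2 ^ r := Nat.pow_le_pow_right (by norm_num) (by omega)
  calc 4 ^ u.length = 2 ^ (r - 1) * (2 ^ (n + r) * 2 ^ (n - 1)) := h6
    _ ≤ 2 ^ r * (2 ^ (n + r) * B (alt a b n)) := by gcongr
    _ ≤ 2 ^ r * (16 * (4 * u.length + 4) ^ (4 ^ r + r) * B u) := by gcongr
    _ = _ := by
      rw [show 4 * u.length + 4 = 4 * (u.length + 1) by ring, mul_pow]; ring

lemma card_ge_two (H : Hyp r γ) (c : C) : 2 ≤ (Ks r γ c).card := by
  have hr := H.hr
  by_contra hcon
  set D0 := 4 ^ r + r with hD0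
  set Λ := r + 4 with hΛ
  set K0 := (D0 + 1) * Λ with hK0
  obtain ⟨N0, hN0⟩ := asym (show 2 < 4 by norm_num) (2 ^ r * (16 * 4 ^ D0)) (D0 + K0)
  obtain ⟨u, hS, hlen, hbig⟩ := big_u H c (N0 + 1) (by omega)
  obtain ⟨p, K, L, hG, hK⟩ := exists_Gr Λ u.length u le_rfl
  have hp := Gr_le_card H hG (by omega) hS
  have hDu := bounded_defects H hS
  have hK1 : K ≤ K0 := le_trans hK (Nat.mul_le_mul_right _ (by omega))
  have hrep := hG.rep
  have hl := hrep.length
  have hB := UB u.length p K L u (by omega) hrep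
  have hB2 : B u ≤ (u.length + 1) ^ K0 * 2 ^ u.length := by
    refine le_trans hB ?_
    apply Nat.mul_le_mul
    · calc u.length ^ K ≤ (u.length + 1) ^ K := Nat.pow_le_pow_left (by omega) _
        _ ≤ _ := Nat.pow_le_pow_right (by omega) hK1
    · calc (2 * p) ^ L ≤ 2 ^ L := Nat.pow_le_pow_left (by omega) _
        _ ≤ _ := Nat.pow_le_pow_right (by norm_num) (by omega)
  have h2 := hN0 u.length (by omega)
  have h3 : 4 ^ u.length ≤ 2 ^ r * (16 * 4 ^ D0) * (u.length + 1) ^ (D0 + K0) * 2 ^ u.length := by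
    calc 4 ^ u.length ≤ _ := hbig
      _ ≤ (2 ^ r * (16 * 4 ^ D0)) * (u.length + 1) ^ D0 *
          ((u.length + 1) ^ K0 * 2 ^ u.length) := Nat.mul_le_mul_left _ hB2
      _ = _ := by rw [pow_add]; ring
  omega

lemma card_eq_two (H : Hyp r γ) (c : C) : (Ks r γ c).card = 2 := by
  have h0 := card_ge_two H 0
  have h1 := card_ge_two H 1
  have h2 := card_ge_two H 2
  have h3 := Ks_card_sum H
  fin_cases c <;> simp only [Fin.zero_eta, Fin.mk_one, Fin.reduceFinMk] <;> omega

lemma Gr_le_two (H : Hyp r γ) {c : C} {Λ p K L : ℕ} {u : List A} (h : Gr Λ p K L u)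
    (hΛ : r + 1 ≤ Λ) (hS : S r γ c u) : p ≤ 2 := by
  rw [← card_eq_two H c]
  exact Gr_le_card H h hΛ hS

/-! ### contexts -/

lemma ctxR (hr : 3 ≤ r) {c : C} {a : List A} {s t : A} {k0 : ℕ} (h : S r γ c (a ++ alt s t k0))
    (hk : r ≤ k0) (hK : KP r γ c s t) (k : ℕ) : S r γ c (a ++ alt s t k) := by
  rcases le_total k k0 with hkk | hkk
  · obtain ⟨b, hb⟩ := alt_prefix s t hkk
    rw [hb, ← List.append_assoc] at h
    exact h.pre (by omega)
  · obtain ⟨b, hb⟩ := alt_prefix s t hkk
    rw [hb]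
    apply glue (by omega) _ _ h
    · rw [← hb]; exact hK.S_of hr (Or.inl rfl)
    · intro h0
      have := congrArg List.length h0
      simp at this; omega
    · rw [alt_length]; omega

lemma ctxL (hr : 3 ≤ r) {c : C} {b : List A} {s t : A} {k0 : ℕ} (h : S r γ c (la s t k0 ++ b))
    (hk : r ≤ k0) (hK : KP r γ c s t) (k : ℕ) : S r γ c (la s t k ++ b) := by
  rcases le_total k k0 with hkk | hkk
  · obtain ⟨a, ha⟩ := la_suffix s t hkk
    rw [ha, List.append_assoc] at h
    exact h.suf (by omega)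
  · obtain ⟨a, ha⟩ := la_suffix s t hkk
    rw [ha, List.append_assoc]
    apply glue (by omega) _ _ _ h
    · intro h0
      have := congrArg List.length h0
      simp at this; omega
    · rw [la_length]; omega
    · rw [← ha]; exact hK.S_of hr (la_A2 _ _ _)

/-- separation of two alternating blocks -/
structure Sep (J : List A) (s1 t1 s2 t2 : A) : Prop where
  hd : ∀ h ∈ J.head?, h ≠ s1 ∧ h ≠ t1
  lt : ∀ l ∈ J.getLast?, l ≠ s2 ∧ l ≠ t2
  em : J = [] → s1 ≠ s2 ∧ s1 ≠ t2 ∧ t1 ≠ s2 ∧ t1 ≠ t2

/-- a good junction -/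
structure Good (r : ℕ) (γ : List A → C) (c : C) (s1 t1 s2 t2 : A) (J : List A) : Prop where
  k1 : KP r γ c s1 t1
  k2 : KP r γ c s2 t2
  kne : key s1 t1 ≠ key s2 t2
  sep : Sep J s1 t1 s2 t2
  all : ∀ n1 n2, S r γ c (la s1 t1 n1 ++ (J ++ alt s2 t2 n2))

lemma exists_good (H : Hyp r γ) (c : C) : ∃ s1 t1 s2 t2 J, Good r γ c s1 t1 s2 t2 J := by
  have hr := H.hr
  by_contra hcon
  push Not at hcon
  set D0 := 4 ^ r + r with hD0
  set Λ := r + 4 with hΛ
  set K0 := (D0 + 1) * Λ with hK0
  obtain ⟨N0, hN0⟩ := asym (show 2 < 4 by norm_num) (2 ^ r * (16 * 4 ^ D0)) (D0 + K0)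
  obtain ⟨N1, hN1⟩ := asym (show 69 < 80 by norm_num) (2 ^ r * (16 * 4 ^ D0) * 29) (D0 + K0)
  obtain ⟨u, hS, hlen, hbig⟩ := big_u H c (N0 + N1 + 1) (by omega)
  obtain ⟨p, K, L, hG, hK⟩ := exists_Gr Λ u.length u le_rfl
  have hp := Gr_le_two H hG (by omega) hS
  have hDu := bounded_defects H hS
  have hK1 : K ≤ K0 := le_trans hK (Nat.mul_le_mul_right _ (by omega))
  have hrep := hG.rep
  have hl := hrep.length
  have hp2 : p = 2 := by
    by_contra hp2
    have hB := UB u.length p K L u (by omega) hrep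
    have hB2 : B u ≤ (u.length + 1) ^ K0 * 2 ^ u.length := by
      refine le_trans hB ?_
      apply Nat.mul_le_mul
      · calc u.length ^ K ≤ (u.length + 1) ^ K := Nat.pow_le_pow_left (by omega) _
          _ ≤ _ := Nat.pow_le_pow_right (by omega) hK1
      · calc (2 * p) ^ L ≤ 2 ^ L := Nat.pow_le_pow_left (by omega) _
          _ ≤ _ := Nat.pow_le_pow_right (by norm_num) (by omega)
    have h2 := hN0 u.length (by omega)
    have h3 : 4 ^ u.length ≤ 2 ^ r * (16 * 4 ^ D0) * (u.length + 1) ^ (D0 + K0) *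
        2 ^ u.length := by
      calc 4 ^ u.length ≤ _ := hbig
        _ ≤ (2 ^ r * (16 * 4 ^ D0)) * (u.length + 1) ^ D0 *
            ((u.length + 1) ^ K0 * 2 ^ u.length) := Nat.mul_le_mul_left _ hB2
        _ = _ := by rw [pow_add]; ring
    omega
  obtain ⟨J0, R1, v, K', L', e1, hR1l, hR1D, hR1B, hG1, hK'⟩ := hG.extract 1 (by omega)
  obtain ⟨J1, R2, v2, K'', L'', e2, hR2l, hR2D, hR2B, hG2, hK''⟩ := hG1.extract 0 rfl
  have hL'' := hG2.zero rfl
  have hv2 : v2.length = K'' := by have := hG2.rep.length; omega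
  have hPu := hS.1
  rw [e1, e2] at hPu
  have hSR1 : S r γ c R1 := by rw [e1] at hS; exact hS.inf (by omega)
  have hSR2 : S r γ c R2 := by
    rw [e1, e2, ← List.append_assoc J0, ← List.append_assoc (J0 ++ R1)] at hS
    exact hS.inf (by omega)
  obtain ⟨s, t, hst, hR1⟩ := A2_of_run hR1D hSR1.1 (by omega)
  obtain ⟨s', t', hst', hR2⟩ := A2_of_run hR2D hSR2.1 (by omega)
  have hA1 : A2 s t R1.length R1 := Or.inl hR1
  have hK1' := key_of_S (by omega) hst (by omega) hA1 hSR1
  have hK2' := key_of_S (by omega) hst' (by omega) (Or.inl hR2) hSR2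
  have hkne : key s t ≠ key s' t' := by
    intro hke
    have hA2 : A2 s t R2.length R2 := by
      rcases key_inj hke with ⟨h1, h2⟩ | ⟨h1, h2⟩
      · left; rw [← h1, ← h2]; exact hR2
      · right; rw [← h1, ← h2]; exact hR2
    rw [e1, e2] at hS
    apply no_repeat H hS hA1 (by omega) hA2 (by omega)
    intro z v' hz
    apply hR1B z (v' ++ v2)
    rw [e2, ← List.append_assoc, hz]; rfl
  have hP12 : Pr (J1 ++ alt s' t' R2.length) := by
    rw [← hR2]
    have h1 : Pr (v) := by
      rw [← e2] at hPu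
      exact (List.isChain_append.1 (List.isChain_append.1 hPu).2.1).2.1
    rw [e2, ← List.append_assoc] at h1
    exact (List.isChain_append.1 h1).1
  obtain ⟨J', s2, t2, k2, e3, h2st, hk2, hJ'l, -⟩ := extL J1.length J1 s' t' R2.length le_rfl
    (by omega) hP12
  have e4 : u = J0 ++ (R1 ++ (J' ++ (alt s2 t2 k2 ++ v2))) := by
    rw [e1, e2]
    congr 2
    rw [← List.append_assoc, ← List.append_assoc, ← e3, ← hR2]
  -- the next letter after R1
  have hz : ∀ z w, J' ++ (alt s2 t2 k2 ++ v2) = z :: w → z ≠ s ∧ z ≠ t := by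
    intro z w hzw
    apply brk_ne hA1 (by omega)
    · have : Pr (R1 ++ z :: w) := by
        have hPu' := hS.1
        rw [e4, hzw] at hPu'
        exact (List.isChain_append.1 hPu').2.1
      have h2 : R1 ++ z :: w = (R1 ++ [z]) ++ w := by simp
      rw [h2] at this
      exact (List.isChain_append.1 this).1
    · apply hR1B z w
      rw [← hzw, e2, ← List.append_assoc, ← List.append_assoc, ← e3, ← hR2]
  have hKP2 : KP r γ c s2 t2 := by
    rcases h2st with ⟨h1, h2⟩ | ⟨h1, h2⟩
    · rw [h1, h2]; exact hK2'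
    · rw [h1, h2]; exact hK2'.symm
  have hkey2 : key s2 t2 = key s' t' := by
    rcases h2st with ⟨h1, h2⟩ | ⟨h1, h2⟩
    · rw [h1, h2]
    · rw [h1, h2]; exact (key_symm hst').symm
  have hJ'l2 : ∀ l ∈ J'.getLast?, l ≠ s2 ∧ l ≠ t2 := by
    intro l hl
    have := hJ'l l hl
    rcases h2st with ⟨h1, h2⟩ | ⟨h1, h2⟩
    · rw [h1, h2]; exact this
    · rw [h1, h2]; exact this.symm
  obtain ⟨k2', rfl⟩ : ∃ j, k2 = j + 1 := ⟨k2 - 1, by omega⟩
  -- good case finisher
  have finish : (J' = [] → s ≠ s2 ∧ s ≠ t2 ∧ t ≠ s2 ∧ t ≠ t2) → False := by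
    intro hem
    have hhd : ∀ h ∈ J'.head?, h ≠ s ∧ h ≠ t := by
      intro h hh
      cases J' with
      | nil => simp at hh
      | cons q J' =>
        have : q = h := by simpa using hh
        subst this
        exact hz q _ rfl
    have hSG : S r γ c (R1 ++ (J' ++ alt s2 t2 (k2' + 1))) := by
      have : u = J0 ++ ((R1 ++ (J' ++ alt s2 t2 (k2' + 1))) ++ v2) := by rw [e4]; simp
      rw [this] at hS
      exact hS.inf (by omega)
    rcases A2_la hA1 with hla | hla
    · apply hcon s t s2 t2 J'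
      refine ⟨hK1', hKP2, by rw [hkey2]; exact hkne, ⟨hhd, hJ'l2, hem⟩, ?_⟩
      intro n1 n2
      have h1 : S r γ c (la s t R1.length ++ (J' ++ alt s2 t2 (k2' + 1))) := by
        rw [← hla]; exact hSG
      have h2 := ctxL hr h1 (by omega) hK1' n1
      rw [← List.append_assoc] at h2
      have h3 := ctxR hr h2 (by omega) hKP2 n2
      rwa [List.append_assoc] at h3
    · apply hcon t s s2 t2 J'
      refine ⟨hK1'.symm, hKP2, by rw [hkey2, ← key_symm hst]; exact hkne,
        ⟨fun h hh => (hhd h hh).symm, hJ'l2, fun h => by have := hem h; tauto⟩, ?_⟩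
      intro n1 n2
      have h1 : S r γ c (la t s R1.length ++ (J' ++ alt s2 t2 (k2' + 1))) := by
        rw [← hla]; exact hSG
      have h2 := ctxL hr h1 (by omega) hK1'.symm n1
      rw [← List.append_assoc] at h2
      have h3 := ctxR hr h2 (by omega) hKP2 n2
      rwa [List.append_assoc] at h3
  by_cases hJ' : J' = []
  · -- adjacent blocks
    subst hJ'
    have hs2 : s2 ≠ s ∧ s2 ≠ t := hz s2 (alt t2 s2 k2' ++ v2) rfl
    by_cases ht2 : t2 = s ∨ t2 = t
    · -- bad junction: use the core bound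
      obtain ⟨y, hxy⟩ : ∃ y, A2 t2 y R1.length R1 := by
        rcases ht2 with h | h
        · exact ⟨t, by rw [h]; exact hA1⟩
        · exact ⟨s, by rw [h]; exact hA1.symm⟩
      obtain ⟨k1, hk1⟩ : ∃ j, R1.length = j + 1 := ⟨R1.length - 1, by omega⟩
      set Z := R1 ++ alt s2 t2 (k2' + 1) with hZ
      have hCr : ∃ b, b ≤ 29 ∧ Cr t2 y s2 b Z := by
        rcases A2_la hxy with h | h
        · exact ⟨20, by norm_num, Or.inr (Or.inl ⟨rfl, k1, k2', by rw [hZ, ← hk1, ← h]⟩)⟩
        · exact ⟨29, le_rfl, Or.inr (Or.inr ⟨rfl, k1, k2', by rw [hZ, ← hk1, ← h]⟩)⟩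
      obtain ⟨b, hb, hCr⟩ := hCr
      have hu : u = J0 ++ (Z ++ v2) := by rw [e4, hZ]; simp
      have hcore := core_UB t2 y s2 (J0.length + v2.length + Z.length) b J0 Z v2 rfl hCr
      rw [← hu] at hcore
      have hul : J0.length + v2.length + Z.length = u.length := by
        rw [hu]; simp; omega
      rw [hul] at hcore
      have hJK : J0.length + v2.length ≤ K0 := by omega
      have hZl : Z.length ≤ u.length := by omega
      have h20 : 20 ^ u.length * B u ≤ 29 * (u.length + 1) ^ K0 * 69 ^ u.length := by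
        have e5 : (20 : ℕ) ^ u.length = 20 ^ (u.length - Z.length) * 20 ^ Z.length := by
          rw [← pow_add]; congr 1; omega
        have e6 : (69 : ℕ) ^ u.length = 69 ^ (u.length - Z.length) * 69 ^ Z.length := by
          rw [← pow_add]; congr 1; omega
        calc 20 ^ u.length * B u = 20 ^ (u.length - Z.length) * (20 ^ Z.length * B u) := by
              rw [e5]; ring
          _ ≤ 69 ^ (u.length - Z.length) * (b * u.length ^ (J0.length + v2.length) *
              69 ^ Z.length) := by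
              apply Nat.mul_le_mul _ hcore
              exact Nat.pow_le_pow_left (by norm_num) _
          _ = b * u.length ^ (J0.length + v2.length) * 69 ^ u.length := by rw [e6]; ring
          _ ≤ 29 * (u.length + 1) ^ K0 * 69 ^ u.length := by
              apply Nat.mul_le_mul_right
              apply Nat.mul_le_mul hb
              calc u.length ^ (J0.length + v2.length) ≤ (u.length + 1) ^ (J0.length + v2.length) :=
                    Nat.pow_le_pow_left (by omega) _
                _ ≤ _ := Nat.pow_le_pow_right (by omega) hJK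
      have h2 := hN1 u.length (by omega)
      have h3 : 80 ^ u.length ≤ 2 ^ r * (16 * 4 ^ D0) * 29 * (u.length + 1) ^ (D0 + K0) *
          69 ^ u.length := by
        calc 80 ^ u.length = 20 ^ u.length * 4 ^ u.length := by rw [← mul_pow]; norm_num
          _ ≤ 20 ^ u.length * ((2 ^ r * (16 * 4 ^ D0)) * (u.length + 1) ^ D0 * B u) :=
              Nat.mul_le_mul_left _ hbig
          _ = (2 ^ r * (16 * 4 ^ D0)) * (u.length + 1) ^ D0 * (20 ^ u.length * B u) := by ring
          _ ≤ (2 ^ r * (16 * 4 ^ D0)) * (u.length + 1) ^ D0 *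
              (29 * (u.length + 1) ^ K0 * 69 ^ u.length) := Nat.mul_le_mul_left _ h20
          _ = _ := by rw [pow_add]; ring
      omega
    · push Not at ht2
      exact finish (fun _ => ⟨hs2.1.symm, ht2.1.symm, hs2.2.symm, ht2.2.symm⟩)
  · exact finish (fun h => absurd h hJ')

end Pool.Agent.R987.FD
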