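import Pool.Agent.R987.FD.Comb2

/-! The final contradiction. -/

namespace Pool.Agent.R987.FD

open Finset

variable {r : ℕ} {γ : List A → C}

lemma Wn_append (hr : 1 ≤ r) (o b : List A) (ho : o.length = r) : ∀ a : List A,
    Wn r γ (a ++ (o ++ b)) = Wn r γ (a ++ o) ++ (Wn r γ (o ++ b)).tail := by
  intro a
  induction a with
  | nil =>
    obtain ⟨x, o', rfl⟩ : ∃ x o', o = x :: o' := by
      cases o with
      | nil => simp at ho; omega
      | cons x o' => exact ⟨x, o', rfl⟩
    simp only [List.nil_append, List.cons_append]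
    have h1 : Wn r γ (x :: (o' ++ b)) = γ (x :: o') :: Wn r γ (o' ++ b) := by
      rw [Wn, if_pos (by simp only [List.length_cons] at ho; simp only [List.length_append]; omega)]
      have : (x :: (o' ++ b)).take r = x :: o' := by
        rw [← List.cons_append, List.take_left' ho]
      rw [this]
    have h2 : Wn r γ (x :: o') = [γ (x :: o')] := by
      rw [Wn, if_pos (by simp only [List.length_cons] at ho; omega)]
      have : (x :: o').take r = x :: o' := List.take_of_length_le (by omega)
      rw [this]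
      have h3 : (Wn r γ o').length = 0 := by
        rw [Wn_length hr]; simp only [List.length_cons] at ho; omega
      rw [List.length_eq_zero_iff.1 h3]
    rw [h1, h2]
    rfl
  | cons x a ih =>
    simp only [List.cons_append]
    rw [Wn, if_pos (by simp only [List.length_append]; omega), ih]
    conv_rhs => rw [Wn, if_pos (by simp only [List.length_append]; omega)]
    have : (x :: (a ++ (o ++ b))).take r = (x :: (a ++ o)).take r := by
      rw [← List.append_assoc, ← List.cons_append, List.take_append_of_le_length]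
      simp only [List.length_cons, List.length_append]; omega
    rw [this]; rfl

lemma Wn_single (hr : 1 ≤ r) {o : List A} (ho : o.length = r) : Wn r γ o = [γ o] := by
  obtain ⟨x, o', rfl⟩ : ∃ x o', o = x :: o' := by
    cases o with
    | nil => simp at ho; omega
    | cons x o' => exact ⟨x, o', rfl⟩
  rw [Wn, if_pos (by simp only [List.length_cons] at ho; omega)]
  have : (x :: o').take r = x :: o' := List.take_of_length_le (by omega)
  rw [this]
  have h3 : (Wn r γ o').length = 0 := by
    rw [Wn_length hr]; simp only [List.length_cons] at ho; omega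
  rw [List.length_eq_zero_iff.1 h3]

lemma c01 : ∀ x : C, x ≠ 2 → x = 0 ∨ x = 1 := by decide
lemma c20 : ∀ x : C, x ≠ 1 → x = 2 ∨ x = 0 := by decide
lemma c20' : ∀ x : C, x ≠ 1 → x ≠ 0 → x = 2 := by decide

lemma form_la {w : List C} (hP : Pr w) (h2 : (2 : C) ∉ w) (hl : w.getLast? = some 0) :
    w = la 0 1 w.length := by
  have hD := D_zero_of_two 2 hP h2
  have hm : ∀ c ∈ w, c = 0 ∨ c = 1 := fun c hc => c01 c (fun e => h2 (e ▸ hc))
  rcases Nat.lt_or_ge w.length 2 with hlt | hge
  · match w, hlt, hl with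
    | [], _, hl => simp at hl
    | [x], _, hl =>
      simp only [List.getLast?_singleton, Option.some.injEq] at hl
      rw [hl]; rfl
    | x :: y :: w, hlt, _ => simp at hlt
  · rcases A2_la (alt_of_D hD hP hge hm) with h | h
    · exact h
    · exfalso
      obtain ⟨k, hk⟩ : ∃ k, w.length = k + 1 := ⟨w.length - 1, by omega⟩
      rw [hk, la_succ] at h
      rw [h] at hl
      simp at hl

lemma form_alt {w : List C} (hP : Pr ((0 : C) :: w)) (h1 : (1 : C) ∉ w) : w = alt 2 0 w.length := by
  match w, hP, h1 with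
  | [], _, _ => rfl
  | [x], hP, h1 =>
    have hx0 : x ≠ 0 := ((List.isChain_cons_cons.1 hP).1).symm
    have hx1 : x ≠ 1 := fun e => h1 (by simp [e])
    rw [c20' x hx1 hx0]; rfl
  | x :: y :: w, hP, h1 =>
    have hx0 : x ≠ 0 := ((List.isChain_cons_cons.1 hP).1).symm
    have hx1 : x ≠ 1 := fun e => h1 (by simp [e])
    have hx := c20' x hx1 hx0
    have hPw := Pr_tail hP
    have hD := D_zero_of_two 1 hPw h1
    have hm : ∀ c ∈ x :: y :: w, c = 2 ∨ c = 0 := fun c hc => c20 c (fun e => h1 (e ▸ hc))
    rcases alt_of_D hD hPw (by simp) hm with h | h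
    · exact h
    · exfalso
      simp only [List.length_cons, alt_succ, List.cons.injEq] at h
      exact hx0 h.1

lemma form (H : Hyp r γ) {a o b : List A} (ho : o.length = r) (h2 : S r γ 2 (a ++ o))
    (h1 : S r γ 1 (o ++ b)) (hg : γ o = 0) (hb : b ≠ []) :
    ∃ k l, Wn r γ (a ++ (o ++ b)) = la 0 1 (k + 1) ++ alt 2 0 (l + 1) := by
  have hr := H.hr
  have hbl : 0 < b.length := List.length_pos_iff.2 hb
  rw [Wn_append (by omega) o b ho a]
  have p1 := (H.ha (a ++ o) (by simp; omega) h2.1).1
  have p2 := (H.ha (o ++ b) (by simp; omega) h1.1).1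
  have l1 : (Wn r γ (a ++ o)).length = a.length + 1 := by
    rw [Wn_length (by omega), List.length_append]; omega
  have l2 : (Wn r γ (o ++ b)).length = b.length + 1 := by
    rw [Wn_length (by omega), List.length_append]; omega
  have e1 : Wn r γ (a ++ o) = la 0 1 (a.length + 1) := by
    rw [← l1]
    apply form_la p1 h2.2
    rw [List.getLast?_eq_getElem?, l1, Nat.add_sub_cancel, Wn_get (by omega),
      if_pos (by simp; omega), List.drop_left, List.take_of_length_le (by omega), hg]
  have e0 : ∃ w, Wn r γ (o ++ b) = 0 :: w := by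
    have := Wn_get (r := r) (γ := γ) (by omega) (o ++ b) 0
    rw [if_pos (by simp; omega), List.drop_zero, List.take_left' ho, hg] at this
    cases hw : Wn r γ (o ++ b) with
    | nil => rw [hw] at this; simp at this
    | cons x w =>
      rw [hw] at this
      simp only [List.getElem?_cons_zero, Option.some.injEq] at this
      exact ⟨w, by rw [this]⟩
  obtain ⟨w, hw⟩ := e0
  have h1' := h1.2
  rw [hw] at p2 l2 h1' ⊢
  have e2 : w = alt 2 0 w.length := form_alt p2 (fun h => h1' (List.mem_cons_of_mem _ h))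
  have hwl : w.length = b.length := by simpa using l2
  refine ⟨a.length, b.length - 1, ?_⟩
  rw [e1, List.tail_cons, e2, hwl]
  congr 2
  omega

lemma dec (H : Hyp r γ) {u : List A} {k l : ℕ} (hP : Pr u)
    (hw : Wn r γ u = la 0 1 (k + 1) ++ alt 2 0 (l + 1)) :
    ∃ a o b, u = a ++ (o ++ b) ∧ a.length = k ∧ o.length = r ∧ b.length = l + 1 ∧
      S r γ 2 (a ++ o) ∧ S r γ 1 (o ++ b) ∧ γ o = 0 := by
  have hr := H.hr
  have hlen : u.length = k + l + 1 + r := by
    have := Wn_length (r := r) (γ := γ) (by omega) u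
    rw [hw] at this
    simp only [List.length_append, la_length, alt_length] at this
    omega
  obtain ⟨a, o, b, e, ha, ho, hb⟩ : ∃ a o b, u = a ++ (o ++ b) ∧ a.length = k ∧
      o.length = r ∧ b.length = l + 1 := by
    refine ⟨u.take k, (u.drop k).take r, (u.drop k).drop r, ?_, ?_, ?_, ?_⟩
    · rw [List.take_append_drop, List.take_append_drop]
    · simp; omega
    · simp; omega
    · simp; omega
  have hget : ∀ i, i + r ≤ u.length → (la (0 : C) 1 (k + 1) ++ alt 2 0 (l + 1))[i]? =
      some (γ ((u.drop i).take r)) := by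
    intro i hi
    rw [← hw, Wn_get (by omega), if_pos hi]
  have hlast : (la (0 : C) 1 (k + 1) ++ alt 2 0 (l + 1))[k]? = some 0 := by
    rw [la_succ, List.append_assoc, List.getElem?_append_right (by simp)]
    simp
  refine ⟨a, o, b, e, ha, ho, hb, ⟨?_, ?_⟩, ⟨?_, ?_⟩, ?_⟩
  · rw [e, ← List.append_assoc] at hP
    exact (List.isChain_append.1 hP).1
  · intro h2
    rw [mem_Wn (by omega)] at h2
    obtain ⟨x, v, y, e2, hv, hc⟩ := h2
    have hl2 := congrArg List.length e2
    simp only [List.length_append] at hl2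
    have hg := hget x.length (by omega)
    have e3 : u = x ++ (v ++ (y ++ b)) := by
      rw [e, ← List.append_assoc, e2]; simp
    rw [e3, List.drop_left, List.take_left' hv, hc] at hg
    rw [List.getElem?_append_left (by simp; omega)] at hg
    have := List.mem_of_getElem? hg
    rcases mem_la _ this with h | h <;> exact absurd h (by decide)
  · rw [e] at hP
    exact (List.isChain_append.1 hP).2.1
  · intro h1
    rw [mem_Wn (by omega)] at h1
    obtain ⟨x, v, y, e2, hv, hc⟩ := h1
    have hl2 := congrArg List.length e2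
    simp only [List.length_append] at hl2
    have hg := hget (k + x.length) (by omega)
    have e3 : u = (a ++ x) ++ (v ++ y) := by rw [e, e2]; simp
    rw [e3, show k + x.length = (a ++ x).length by simp [ha], List.drop_left,
      List.take_left' hv, hc] at hg
    rw [show (a ++ x).length = k + x.length by simp [ha]] at hg
    rcases Nat.eq_zero_or_pos x.length with h0 | h0
    · rw [h0] at hg
      change (la (0 : C) 1 (k + 1) ++ alt 2 0 (l + 1))[k]? = some 1 at hg
      rw [hlast] at hg
      exact absurd hg (by decide)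
    · rw [List.getElem?_append_right (by simp; omega)] at hg
      have := List.mem_of_getElem? hg
      rcases mem_alt _ this with h | h <;> exact absurd h (by decide)
  · have hg := hget k (by omega)
    rw [hlast, e, ← ha, List.drop_left, List.take_left' ho] at hg
    simpa using hg.symm

/-- two long runs -/
structure Two (r : ℕ) (γ : List A → C) (c : C) (x : List A) (J0 P1 J1 P2 J2 : List A)
    (s1 t1 s2 t2 : A) : Prop where
  e : x = J0 ++ (P1 ++ (J1 ++ (P2 ++ J2)))
  h1 : A2 s1 t1 P1.length P1
  h2 : P2 = alt s2 t2 P2.length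
  l1 : r + 4 ≤ P1.length
  l2 : r + 4 ≤ P2.length
  k1 : KP r γ c s1 t1
  k2 : KP r γ c s2 t2
  kne : key s1 t1 ≠ key s2 t2
  brk : Brk P1 (J1 ++ (P2 ++ J2))

lemma exists_Two (H : Hyp r γ) {c : C} {x : List A} (hS : S r γ c x) {K L : ℕ}
    (hG : Gr (r + 4) 2 K L x) : ∃ J0 P1 J1 P2 J2 s1 t1 s2 t2,
      Two r γ c x J0 P1 J1 P2 J2 s1 t1 s2 t2 := by
  have hr := H.hr
  obtain ⟨J0, R1, v, K', L', e1, hR1l, hR1D, hR1B, hG1, hK'⟩ := hG.extract 1 (by omega)
  obtain ⟨J1, R2, v2, K'', L'', e2, hR2l, hR2D, hR2B, hG2, hK''⟩ := hG1.extract 0 rfl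
  have hSR1 : S r γ c R1 := by rw [e1] at hS; exact hS.inf (by omega)
  have hSR2 : S r γ c R2 := by
    rw [e1, e2, ← List.append_assoc J0, ← List.append_assoc (J0 ++ R1)] at hS
    exact hS.inf (by omega)
  obtain ⟨s, t, hst, hR1⟩ := A2_of_run hR1D hSR1.1 (by omega)
  obtain ⟨s', t', hst', hR2⟩ := A2_of_run hR2D hSR2.1 (by omega)
  have hA1 : A2 s t R1.length R1 := Or.inl hR1
  have hK1' := key_of_S (by omega) hst (by omega) hA1 hSR1
  have hK2' := key_of_S (by omega) hst' (by omega) (Or.inl hR2) hSR2
  refine ⟨J0, R1, J1, R2, v2, s, t, s', t', ⟨by rw [e1, e2], hA1, hR2, hR1l, hR2l, hK1', hK2', ?_,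
    by rw [← e2]; exact hR1B⟩⟩
  intro hke
  have hA2 : A2 s t R2.length R2 := by
    rcases key_inj hke with ⟨h1, h2⟩ | ⟨h1, h2⟩
    · left; rw [← h1, ← h2]; exact hR2
    · right; rw [← h1, ← h2]; exact hR2
  rw [e1, e2] at hS
  apply no_repeat H hS hA1 (by omega) hA2 (by omega)
  intro z v' hz
  apply hR1B z (v' ++ v2)
  rw [e2, ← List.append_assoc, hz]; rfl

lemma par {s t : A} (n0 : ℕ) {a b : A} (h : (a = s ∧ b = t) ∨ (a = t ∧ b = s)) :
    ∃ n, n0 ≤ n ∧ n ≤ n0 + 1 ∧ alt s t n = la a b n ∧
      (∀ e, alt s t n ++ alt b a e = alt s t (n + e)) := by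
  have aux : ∀ n : ℕ, (if Even n then (a = t ∧ b = s) else (a = s ∧ b = t)) →
      alt s t n = la a b n ∧ (∀ e, alt s t n ++ alt b a e = alt s t (n + e)) := by
    intro n hn
    by_cases hev : Even n
    · rw [if_pos hev] at hn
      obtain ⟨rfl, rfl⟩ := hn
      refine ⟨by rw [la_eq_alt, if_pos hev], fun e => by rw [alt_add, if_pos hev]⟩
    · rw [if_neg hev] at hn
      obtain ⟨rfl, rfl⟩ := hn
      refine ⟨by rw [la_eq_alt, if_neg hev], fun e => by rw [alt_add, if_neg hev]⟩
  rcases h with h | h
  · -- need odd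
    by_cases h0 : Even n0
    · refine ⟨n0 + 1, by omega, le_rfl, aux _ ?_⟩
      rw [if_neg (by simpa [Nat.even_add_one] using h0)]; exact h
    · exact ⟨n0, le_rfl, by omega, aux _ (by rw [if_neg h0]; exact h)⟩
  · by_cases h0 : Even n0
    · exact ⟨n0, le_rfl, by omega, aux _ (by rw [if_pos h0]; exact h)⟩
    · refine ⟨n0 + 1, by omega, le_rfl, aux _ ?_⟩
      rw [if_pos (by simpa [Nat.even_add_one] using h0)]; exact h

/-- the order of the two pairs is determined -/
lemma match_keys (H : Hyp r γ) {c : C} {x : List A} (hS : S r γ c x)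
    {J0 P1 J1 P2 J2 : List A} {s1 t1 s2 t2 : A} (hT : Two r γ c x J0 P1 J1 P2 J2 s1 t1 s2 t2)
    {a1 b1 a2 b2 : A} {J : List A} (hG : Good r γ c a1 b1 a2 b2 J) :
    key a1 b1 = key s1 t1 ∧ key a2 b2 = key s2 t2 := by
  classical
  have hr := H.hr
  have hcard := card_eq_two H c
  have hsub : ({key s1 t1, key s2 t2} : Finset (A × A)) ⊆ Ks r γ c := by
    intro y hy
    rw [Finset.mem_insert, Finset.mem_singleton] at hy
    rcases hy with rfl | rfl
    · exact key_mem hT.k1
    · exact key_mem hT.k2
  have heq : ({key s1 t1, key s2 t2} : Finset (A × A)) = Ks r γ c := by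
    apply Finset.eq_of_subset_of_card_le hsub
    rw [hcard, Finset.card_pair hT.kne]
  have m1 : key a1 b1 = key s1 t1 ∨ key a1 b1 = key s2 t2 := by
    have := key_mem hG.k1
    rw [← heq, Finset.mem_insert, Finset.mem_singleton] at this
    exact this
  have m2 : key a2 b2 = key s1 t1 ∨ key a2 b2 = key s2 t2 := by
    have := key_mem hG.k2
    rw [← heq, Finset.mem_insert, Finset.mem_singleton] at this
    exact this
  have hne := hG.kne
  rcases m1 with m1 | m1
  · rcases m2 with m2 | m2
    · exact absurd (m1.trans m2.symm) hne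
    · exact ⟨m1, m2⟩
  · rcases m2 with m2 | m2
    · -- reversed order : impossible
      exfalso
      have hS' := hS
      rw [hT.e] at hS'
      have h1 : S r γ c ((P1 ++ J1) ++ alt s2 t2 P2.length) := by
        have : J0 ++ (P1 ++ (J1 ++ (P2 ++ J2))) = J0 ++ (((P1 ++ J1) ++ P2) ++ J2) := by simp
        rw [this] at hS'
        have h2 := hS'.inf (by omega)
        rwa [hT.h2] at h2
      obtain ⟨n, hn, -, hn2, -⟩ := par (s := s2) (t := t2) r (a := a1) (b := b1) (by
        rcases key_inj m1.symm with h | h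
        · exact Or.inl h
        · exact Or.inr h)
      have h3 := ctxR hr h1 (by have := hT.l2; omega) hT.k2 n
      have h4 := hG.all n (r + 1)
      rw [← hn2] at h4
      have hone : alt s2 t2 n ≠ [] := by
        intro h0
        have := congrArg List.length h0
        simp at this; omega
      have h5 := glue (by omega) hone (by rw [alt_length]; omega) h3 h4
      have h6 : S r γ c ([] ++ (P1 ++ ((J1 ++ (alt s2 t2 n ++ J)) ++ (alt a2 b2 (r + 1) ++ [])))) := by
        have : (P1 ++ J1) ++ (alt s2 t2 n ++ (J ++ alt a2 b2 (r + 1))) =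
          [] ++ (P1 ++ ((J1 ++ (alt s2 t2 n ++ J)) ++ (alt a2 b2 (r + 1) ++ []))) := by simp
        rw [← this]; exact h5
      have hA2 : A2 s1 t1 (r + 1) (alt a2 b2 (r + 1)) := by
        rcases key_inj m2 with ⟨e1, e2⟩ | ⟨e1, e2⟩
        · rw [e1, e2]; left; rfl
        · rw [e1, e2]; right; rfl
      apply no_repeat H h6 hT.h1 (by have := hT.l1; omega) hA2 le_rfl
      -- Brk
      intro z v' hz
      have hb := hT.brk
      have hP2 : ∃ w, P2 = s2 :: w := by
        obtain ⟨j, hj⟩ : ∃ j, P2.length = j + 1 := ⟨P2.length - 1, by have := hT.l2; omega⟩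
        exact ⟨alt t2 s2 j, by rw [hT.h2, hj]; rfl⟩
      obtain ⟨w, hw⟩ := hP2
      have hn' : ∃ w', alt s2 t2 n = s2 :: w' := by
        obtain ⟨j, hj⟩ : ∃ j, n = j + 1 := ⟨n - 1, by omega⟩
        exact ⟨alt t2 s2 j, by rw [hj]; rfl⟩
      obtain ⟨w', hw'⟩ := hn'
      cases J1 with
      | nil =>
        rw [hw'] at hz
        simp only [List.nil_append, List.cons_append, List.cons.injEq] at hz
        rw [← hz.1]
        exact hb s2 (w ++ J2) (by rw [hw]; rfl)
      | cons q J1 =>
        simp only [List.cons_append, List.cons.injEq] at hz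
        rw [← hz.1]
        exact hb q (J1 ++ (P2 ++ J2)) rfl
    · exact absurd (m1.trans m2.symm) hne

/-- maximal extension to the right -/
lemma extR {α : Type*} [DecidableEq α] (M : List α) : ∀ s t : α, ∃ e M', M = alt s t e ++ M' ∧
    (∀ h ∈ M'.head?, h ≠ (if Even e then s else t)) := by
  induction M with
  | nil => intro s t; exact ⟨0, [], rfl, by simp⟩
  | cons q M ih =>
    intro s t
    by_cases hq : q = s
    · obtain ⟨e, M', h1, h2⟩ := ih t s
      refine ⟨e + 1, M', by rw [hq, h1]; rfl, ?_⟩
      intro h hh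
      have := h2 h hh
      by_cases he : Even e
      · rw [if_pos he] at this
        rw [if_neg (by simpa [Nat.even_add_one] using he)]
        exact this
      · rw [if_neg he] at this
        rw [if_pos (by simpa [Nat.even_add_one] using he)]
        exact this
    · refine ⟨0, q :: M, rfl, ?_⟩
      intro h hh
      simp only [List.head?_cons, Option.mem_def, Option.some.injEq] at hh
      rw [← hh]; simpa using hq

lemma sep_pr {J X Y : List A} {s1 t1 s2 t2 : A} (hX : ∀ l ∈ X.getLast?, l = s1 ∨ l = t1)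
    (hY : ∀ h ∈ Y.head?, h = s2 ∨ h = t2) (hs : Sep J s1 t1 s2 t2) (pX : Pr X) (pJ : Pr J)
    (pY : Pr Y) : Pr (X ++ (J ++ Y)) := by
  by_cases hJ : J = []
  · subst hJ
    refine List.isChain_append.2 ⟨pX, pY, ?_⟩
    intro p hp q hq
    have h1 := hX p hp
    have h2 := hY q hq
    have h3 := hs.em rfl
    rcases h1 with rfl | rfl <;> rcases h2 with rfl | rfl <;> tauto
  · refine List.isChain_append.2 ⟨pX, List.isChain_append.2 ⟨pJ, pY, ?_⟩, ?_⟩
    · intro p hp q hq
      have h1 := hs.lt p hp
      rcases hY q hq with rfl | rfl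
      · exact h1.1
      · exact h1.2
    · intro p hp q hq
      rw [List.head?_append_of_ne_nil _ hJ] at hq
      have h1 := hs.hd q hq
      rcases hX p hp with rfl | rfl
      · exact h1.1.symm
      · exact h1.2.symm

lemma A2_last {s t : A} {k : ℕ} {R : List A} (h : A2 s t k R) :
    ∀ l ∈ R.getLast?, l = s ∨ l = t := fun l hl => h.mem (List.mem_of_getLast? hl)

lemma A2_head {s t : A} {k : ℕ} {R : List A} (h : A2 s t k R) :
    ∀ l ∈ R.head?, l = s ∨ l = t := fun l hl => h.mem (List.mem_of_mem_head? hl)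

end Pool.Agent.R987.FD
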