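import Pool.Agent.R987.FD.Comb3

/-! The final contradiction. -/

namespace Pool.Agent.R987.FD

open Finset

variable {r : ℕ} {γ : List A → C}

/-- a word whose image is a two block word, with four long runs -/
lemma exists_four (H : Hyp r γ) : ∃ a o b, o.length = r ∧ b ≠ [] ∧
    S r γ 2 (a ++ o) ∧ S r γ 1 (o ++ b) ∧ γ o = 0 ∧
    (∃ K L, Gr (r + 4) 2 K L (a ++ o)) ∧ (∃ K L, Gr (r + 4) 2 K L b) := by
  have hr := H.hr
  set D0 := 4 ^ r + r with hD0
  set K0 := (D0 + 1) * (r + 4) with hK0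
  set P := 7 * 16 * 4 ^ (2 * D0) * (r + 3) ^ (2 * D0 + 2 * K0 + 1) * 6 ^ (r + 2) with hP
  obtain ⟨N, hN0⟩ := asym (show 30 < 34 by norm_num) P (2 * D0 + 2 * K0 + 1)
  have hN := hN0 N le_rfl
  obtain ⟨k, l, hkl, hbig⟩ := two_LB (x := (0 : C)) (y := 1) (z := 2) (by decide) (by decide)
    (by decide) N
  unfold fa at hbig
  set w := la (0 : C) 1 (k + 1) ++ alt 2 0 (l + 1) with hw
  have hPw : Pr w := P1 (by decide) (by decide) k l
  have hwne : w ≠ [] := by simp [hw, la_succ]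
  have hwl : w.length = N + 3 := by simp [hw]; omega
  have hdef : ∀ u, Pr u → Wn r γ u = w → D u ≤ 2 * D0 := by
    intro u hu e
    obtain ⟨a, o, b, e1, -, ho, -, h2, h1, -⟩ := dec H hu e
    have b2 := bounded_defects H h2
    have b1 := bounded_defects H h1
    obtain ⟨y, z, o', rfl⟩ : ∃ y z o', o = y :: z :: o' := by
      match o, ho with
      | [], h => simp at h; omega
      | [y], h => simp at h; omega
      | y :: z :: o', _ => exact ⟨y, z, o', rfl⟩
    have c1 := D_overlap a y z (o' ++ b)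
    have c2 := D_left_le (a ++ [y, z]) o'
    have e2 : (a ++ [y, z]) ++ o' = a ++ (y :: z :: o') := by simp
    rw [e2] at c2
    have e3 : u = a ++ y :: z :: (o' ++ b) := by rw [e1]; simp
    have e4 : (y :: z :: o') ++ b = y :: z :: (o' ++ b) := by simp
    rw [e4] at b1
    rw [e3]; omega
  obtain ⟨u, hul, hPu, hWu, hub⟩ := exists_big H hwne hPw (2 * D0) hdef
  obtain ⟨a, o, b, e1, ha, ho, hb, h2, h1, hg⟩ := dec H hPu hWu
  have hbne : b ≠ [] := by intro h0; rw [h0] at hb; simp at hb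
  have hSb : S r γ 1 b := h1.suf (by omega)
  obtain ⟨p1, K1, L1, hG1, hK1⟩ := exists_Gr (r + 4) (a ++ o).length (a ++ o) le_rfl
  obtain ⟨p2, K2, L2, hG2, hK2⟩ := exists_Gr (r + 4) b.length b le_rfl
  have hp1 := Gr_le_two H hG1 (by omega) h2
  have hp2 := Gr_le_two H hG2 (by omega) hSb
  have hD1 := bounded_defects H h2
  have hD2 := bounded_defects H hSb
  have hK1' : K1 ≤ K0 := le_trans hK1 (Nat.mul_le_mul_right _ (by omega))
  have hK2' : K2 ≤ K0 := le_trans hK2 (Nat.mul_le_mul_right _ (by omega))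
  have hrep := hG1.rep.append hG2.rep
  rw [List.append_assoc, ← e1] at hrep
  have hul2 := hrep.length
  have hp : p1 + p2 = 4 := by
    by_contra hp
    have hUB := UB u.length _ _ _ u (by omega) hrep
    have hUB2 : B u ≤ (u.length + 1) ^ (2 * K0) * 6 ^ u.length := by
      refine le_trans hUB ?_
      apply Nat.mul_le_mul
      · calc u.length ^ (K1 + K2) ≤ (u.length + 1) ^ (K1 + K2) := Nat.pow_le_pow_left (by omega) _
          _ ≤ _ := Nat.pow_le_pow_right (by omega) (by omega)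
      · calc (2 * (p1 + p2)) ^ (L1 + L2) ≤ 6 ^ (L1 + L2) := Nat.pow_le_pow_left (by omega) _
          _ ≤ _ := Nat.pow_le_pow_right (by norm_num) (by omega)
    have hm : u.length = N + (r + 2) := by omega
    have hlt : N + 2 ≤ u.length + 1 := by omega
    have hm1 : u.length + 1 ≤ (N + 1) * (r + 3) := by nlinarith
    have h3 : 34 ^ N ≤ P * (N + 1) ^ (2 * D0 + 2 * K0 + 1) * 30 ^ N := by
      calc 34 ^ N = 17 ^ N * 2 ^ N := by rw [← mul_pow]; norm_num
        _ ≤ (7 * 5 ^ N * (N + 2) * B w) * 2 ^ (w.length + r) := by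
            apply Nat.mul_le_mul hbig
            exact Nat.pow_le_pow_right (by norm_num) (by omega)
        _ = 7 * 5 ^ N * (N + 2) * (2 ^ (w.length + r) * B w) := by ring
        _ ≤ 7 * 5 ^ N * (N + 2) * (16 * (4 * u.length + 4) ^ (2 * D0) * B u) :=
            Nat.mul_le_mul_left _ hub
        _ ≤ 7 * 5 ^ N * (u.length + 1) * (16 * (4 * u.length + 4) ^ (2 * D0) *
            ((u.length + 1) ^ (2 * K0) * 6 ^ u.length)) := by gcongr
        _ = 7 * 16 * 4 ^ (2 * D0) * (u.length + 1) ^ (2 * D0 + 2 * K0 + 1) * 5 ^ N *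
            6 ^ u.length := by
            rw [show 4 * u.length + 4 = 4 * (u.length + 1) by ring, mul_pow, pow_succ, pow_add]
            ring
        _ ≤ 7 * 16 * 4 ^ (2 * D0) * ((N + 1) * (r + 3)) ^ (2 * D0 + 2 * K0 + 1) * 5 ^ N *
            6 ^ u.length := by gcongr
        _ = P * (N + 1) ^ (2 * D0 + 2 * K0 + 1) * 30 ^ N := by
            rw [hP, hm, pow_add 6 N (r + 2), mul_pow, show (30 : ℕ) = 5 * 6 by norm_num, mul_pow]
            ring
    omega
  have q1 : p1 = 2 := by omega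
  have q2 : p2 = 2 := by omega
  subst q1 q2
  exact ⟨a, o, b, ho, hbne, h2, h1, hg, ⟨K1, L1, hG1⟩, ⟨K2, L2, hG2⟩⟩

lemma suffix_cmp {α : Type*} {x o y z : List α} (h : x ++ o = y ++ z) (hl : o.length ≤ z.length) :
    ∃ e, z = e ++ o := by
  have h1 : o <:+ y ++ z := ⟨x, h⟩
  have h2 : z <:+ y ++ z := ⟨y, rfl⟩
  obtain ⟨e, he⟩ := List.suffix_of_suffix_length_le h1 h2 hl
  exact ⟨e, he.symm⟩

lemma mono2 {α : Type*} [DecidableEq α] {x y : List α} {s t : α}
    (hP : ∀ n, Pr (x ++ (alt s t (n + 1) ++ y))) (n j : ℕ) :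
    B (x ++ (alt s t (n + 1) ++ y)) ≤ B (x ++ (alt s t (n + 1 + j) ++ y)) := by
  induction j with
  | zero => exact le_rfl
  | succ j ih =>
    refine le_trans ih ?_
    have h1 := hP (n + 1 + j)
    have e : x ++ (alt s t (n + 1 + j + 1) ++ y) =
        (x ++ alt s t (n + 1 + j)) ++ (if Even (n + 1 + j) then s else t) :: y := by
      rw [alt_snoc]; simp
    rw [e] at h1
    have h2 := B_mono h1
    rw [← e, List.append_assoc] at h2
    exact h2

theorem main (H : Hyp r γ) : False := by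
  have hr := H.hr
  obtain ⟨a, o, b, ho, hbne, h2, h1, hg, ⟨K1, L1, hG1⟩, ⟨K2, L2, hG2⟩⟩ := exists_four H
  have hSb : S r γ 1 b := h1.suf (by omega)
  obtain ⟨J0, P1, J1, P2, J2, s1, t1, s2, t2, T⟩ := exists_Two H h2 hG1
  obtain ⟨J3, P3, J4, P4, J5, s3, t3, s4, t4, T'⟩ := exists_Two H hSb hG2
  obtain ⟨a1, b1, a2, b2, J, G⟩ := exists_good H 2
  obtain ⟨a3, b3, a4, b4, J', G'⟩ := exists_good H 1
  obtain ⟨-, mk2⟩ := match_keys H h2 T G
  obtain ⟨mk3, -⟩ := match_keys H hSb T' G'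
  -- the second run, read from its last letter
  obtain ⟨c2, d2, hc2, hP2⟩ : ∃ c2 d2, ((c2 = s2 ∧ d2 = t2) ∨ (c2 = t2 ∧ d2 = s2)) ∧
      P2 = la c2 d2 P2.length := by
    rcases A2_la (Or.inl T.h2 : A2 s2 t2 P2.length P2) with h | h
    · exact ⟨s2, t2, Or.inl ⟨rfl, rfl⟩, h⟩
    · exact ⟨t2, s2, Or.inr ⟨rfl, rfl⟩, h⟩
  have hKc2 : KP r γ 2 c2 d2 := by
    rcases hc2 with ⟨h, h'⟩ | ⟨h, h'⟩
    · rw [h, h']; exact T.k2
    · rw [h, h']; exact T.k2.symm
  -- the third run, read from its first letter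
  obtain ⟨c3, d3, hP3, hKc3, hk3⟩ : ∃ c3 d3, P3 = alt c3 d3 P3.length ∧ KP r γ 1 c3 d3 ∧
      key c3 d3 = key s3 t3 := by
    rcases T'.h1 with h | h
    · exact ⟨s3, t3, h, T'.k1, rfl⟩
    · exact ⟨t3, s3, h, T'.k1.symm, (key_symm T'.k1.1).symm⟩
  have h23 : (a2 = c2 ∧ b2 = d2) ∨ (a2 = d2 ∧ b2 = c2) := by
    rcases key_inj mk2.symm with ⟨e1, e2⟩ | ⟨e1, e2⟩ <;>
    rcases hc2 with ⟨e3, e4⟩ | ⟨e3, e4⟩
    · left; exact ⟨e1.trans e3.symm, e2.trans e4.symm⟩
    · right; exact ⟨e1.trans e4.symm, e2.trans e3.symm⟩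
    · right; exact ⟨e1.trans e4.symm, e2.trans e3.symm⟩
    · left; exact ⟨e1.trans e3.symm, e2.trans e4.symm⟩
  have h33 : (a3 = c3 ∧ b3 = d3) ∨ (a3 = d3 ∧ b3 = c3) := key_inj (hk3.trans mk3.symm)
  have hkey23 : ¬ ((c3 = c2 ∨ c3 = d2) ∧ (d3 = c2 ∨ d3 = d2)) := by
    rintro ⟨q1, q2⟩
    have hne := hKc3.1
    have : KP r γ 1 c2 d2 := by
      rcases q1 with rfl | rfl <;> rcases q2 with rfl | rfl
      · exact absurd rfl hne
      · exact hKc3
      · exact hKc3.symm
      · exact absurd rfl hne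
    exact absurd (this.unique H hKc2) (by decide)
  -- contexts
  have hctx2 : ∀ n, S r γ 2 (la c2 d2 n ++ J2) := by
    intro n
    apply ctxL hr (k0 := P2.length) _ (by have := T.l2; omega) hKc2
    rw [← hP2]
    have h3 := h2
    rw [T.e, ← List.append_assoc P1, ← List.append_assoc J0] at h3
    have h4 : S r γ 2 (J0 ++ (P1 ++ J1) ++ (P2 ++ J2)) := by
      simpa [List.append_assoc] using h3
    exact h4.suf (by omega)
  have hctx3 : ∀ n, S r γ 1 ((o ++ J3) ++ alt c3 d3 n) := by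
    intro n
    apply ctxR hr (k0 := P3.length) _ (by have := T'.l1; omega) hKc3
    rw [← hP3]
    have h3 := h1
    rw [T'.e] at h3
    have h4 : S r γ 1 (((o ++ J3) ++ P3) ++ (J4 ++ (P4 ++ J5))) := by
      simpa [List.append_assoc] using h3
    exact h4.pre (by omega)
  -- o as a suffix
  obtain ⟨e3, he3⟩ : ∃ e3, la c2 d2 r ++ J2 = e3 ++ o := by
    obtain ⟨e2, he2⟩ := la_suffix c2 d2 (show r ≤ P2.length by have := T.l2; omega)
    apply suffix_cmp (x := a) (y := J0 ++ (P1 ++ (J1 ++ e2)))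
    · rw [T.e, hP2, he2]; simp
    · simp; omega
  -- the middle part
  obtain ⟨e, M, hM, hMhd⟩ := extR ((J2 ++ J3) ++ alt c3 d3 3) d2 c2
  have hMne : M ≠ [] := by
    rintro rfl
    apply hkey23
    rw [List.append_nil] at hM
    have m1 : c3 ∈ alt d2 c2 e := by rw [← hM]; simp
    have m2 : d3 ∈ alt d2 c2 e := by rw [← hM]; simp
    exact ⟨(mem_alt _ m1).symm, (mem_alt _ m2).symm⟩
  have hMlast : ∀ l ∈ M.getLast?, l = c3 := by
    intro l hl
    have h3 : ((J2 ++ J3) ++ alt c3 d3 3).getLast? = M.getLast? := by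
      rw [hM, List.getLast?_append_of_ne_nil _ hMne]
    have h4 : ((J2 ++ J3) ++ alt c3 d3 3).getLast? = some c3 := by
      simp [List.getLast?_append]
    rw [h4] at h3
    rw [← h3] at hl
    simpa using hl.symm
  -- properness of the pieces
  have pJ : Pr J := by
    have := (G.all 0 0).1
    simpa using this
  have pJ' : Pr J' := by
    have := (G'.all 0 0).1
    simpa using this
  -- the full word P2 J2 J3 P3 is proper
  have hPfull : ∀ n n3, Pr (la c2 d2 (n + r) ++ ((J2 ++ J3) ++ alt c3 d3 n3)) := by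
    intro n n3
    obtain ⟨e2, he2⟩ := la_suffix c2 d2 (show r ≤ n + r by omega)
    have g1 : Pr ((e2 ++ e3) ++ o) := by
      have := (hctx2 (n + r)).1
      rw [he2, List.append_assoc, he3] at this
      simpa using this
    have g2 : Pr (o ++ (J3 ++ alt c3 d3 n3)) := by
      have := (hctx3 n3).1
      simpa using this
    have g3 : Pr ((e2 ++ e3) ++ (o ++ (J3 ++ alt c3 d3 n3))) := by
      refine List.isChain_append.2 ⟨(List.isChain_append.1 g1).1, g2, ?_⟩
      intro p hp q hq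
      rw [List.head?_append_of_ne_nil _ (by intro h0; rw [h0] at ho; simp at ho; omega)] at hq
      exact (List.isChain_append.1 g1).2.2 p hp q hq
    have e4 : la c2 d2 (n + r) ++ ((J2 ++ J3) ++ alt c3 d3 n3) =
        (e2 ++ e3) ++ (o ++ (J3 ++ alt c3 d3 n3)) := by
      rw [he2]
      calc (e2 ++ la c2 d2 r) ++ ((J2 ++ J3) ++ alt c3 d3 n3)
          = e2 ++ ((la c2 d2 r ++ J2) ++ (J3 ++ alt c3 d3 n3)) := by simp
        _ = _ := by rw [he3]; simp
    rw [e4]; exact g3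
  have hPM : Pr (alt d2 c2 e ++ M) := by
    rw [← hM]
    exact (List.isChain_append.1 (hPfull 0 3)).2.1
  have pM : Pr M := (List.isChain_append.1 hPM).2.1
  have hMhd2 : ∀ h ∈ M.head?, h ≠ c2 ∧ h ≠ d2 := by
    intro h hh
    have n1 := hMhd h hh
    -- the previous letter of the run
    have hla : la c2 d2 (0 + r) ++ alt d2 c2 e = alt d2 c2 0 ++ (la c2 d2 (0 + r) ++ alt d2 c2 e) := rfl
    have g1 : Pr ((la c2 d2 (0 + r) ++ alt d2 c2 e) ++ M) := by
      have := hPfull 0 3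
      rw [hM, ← List.append_assoc] at this
      exact this
    have n2 : h ≠ (if Even e then c2 else d2) := by
      have hl := (List.isChain_append.1 g1).2.2
      rintro rfl
      refine hl (if Even e then c2 else d2) ?_ _ hh rfl
      -- last letter of la c2 d2 r ++ alt d2 c2 e
      cases e with
      | zero =>
        obtain ⟨j, hj⟩ : ∃ j, 0 + r = j + 1 := ⟨r - 1, by omega⟩
        rw [hj, la_succ]
        simp
      | succ e =>
        rw [alt_snoc]
        by_cases he : Even e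
        · simp [he, Nat.even_add_one]
        · simp [he, Nat.even_add_one]
    by_cases he : Even e
    · rw [if_pos he] at n1 n2; exact ⟨n2, n1⟩
    · rw [if_neg he] at n1 n2; exact ⟨n1, n2⟩
  have hMhd3 : ∀ h ∈ M.head?, h ≠ a2 ∧ h ≠ b2 := by
    intro h hh
    have := hMhd2 h hh
    rcases h23 with ⟨q1, q2⟩ | ⟨q1, q2⟩
    · rw [q1, q2]; exact this
    · rw [q1, q2]; exact this.symm
  have hsep3 : Sep J' c3 d3 a4 b4 := by
    have hs := G'.sep
    rcases h33 with ⟨q1, q2⟩ | ⟨q1, q2⟩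
    · rw [q1, q2] at hs; exact hs
    · rw [q1, q2] at hs
      exact ⟨fun h hh => (hs.hd h hh).symm, hs.lt, fun h => by have := hs.em h; tauto⟩
  -- properness of the family
  have hfam : ∀ k1 k2 k3 k4 R1 R2 R3 R4,
      Adm a1 b1 a2 b2 d3 c3 a4 b4 k1 k2 k3 k4 R1 R2 R3 R4 → Pr (U4 J M J' R1 R2 R3 R4) := by
    intro k1 k2 k3 k4 R1 R2 R3 R4 ha
    have hA3 : A2 c3 d3 (k3 + 1) R3 := Or.inr ha.h3
    have x3 : Pr (R3 ++ (J' ++ R4)) :=
      sep_pr (A2_last hA3) (A2_head ha.h4) hsep3 (hA3.pr hKc3.1) pJ' (ha.h4.pr G'.k2.1)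
    have x2 : Pr (M ++ (R3 ++ (J' ++ R4))) := by
      refine List.isChain_append.2 ⟨pM, x3, ?_⟩
      intro p hp q hq
      have e5 := hMlast p hp
      have e6 : q = d3 := by
        rw [ha.h3] at hq
        simpa using hq.symm
      rw [e5, e6]; exact hKc3.1
    have x1 : Pr (R2 ++ (M ++ (R3 ++ (J' ++ R4)))) := by
      refine List.isChain_append.2 ⟨ha.h2.pr G.k2.1, x2, ?_⟩
      intro p hp q hq
      rw [List.head?_append_of_ne_nil _ hMne] at hq
      have e5 := hMhd3 q hq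
      rcases A2_last ha.h2 p hp with rfl | rfl
      · exact e5.1.symm
      · exact e5.2.symm
    apply sep_pr (A2_last ha.h1) _ G.sep (ha.h1.pr G.k1.1) pJ x1
    intro h hh
    rw [List.head?_append_of_ne_nil] at hh
    · exact A2_head ha.h2 h hh
    · intro h0
      have := ha.h2.len
      rw [h0] at this
      simp at this
  -- constants
  set C0 := 2 * r + 8 + e + J.length + M.length + J'.length with hC0
  obtain ⟨N, hN0⟩ := asym (show 138 < 140 by norm_num) (40 * (C0 + 1) ^ r * 138 ^ C0) (3 + r)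
  have hN := hN0 N le_rfl
  obtain ⟨k1, k2, k3, k4, hsum, hLB⟩ := four_LB J M J' a1 b1 a2 b2 d3 c3 a4 b4 hfam N
  have hlb := hLB (la a1 b1 (k1 + 1)) (alt a2 b2 (k2 + 1)) (alt d3 c3 (k3 + 1)) (alt a4 b4 (k4 + 1))
    ⟨la_A2 _ _ _, Or.inl rfl, rfl, Or.inl rfl⟩
  -- choose the right parities
  obtain ⟨n2, hn2, hn2', hW2, hW2e⟩ := par (s := a2) (t := b2) (k2 + 1 + r) (a := c2) (b := d2) (by
    rcases h23 with ⟨q1, q2⟩ | ⟨q1, q2⟩
    · exact Or.inl ⟨q1.symm, q2.symm⟩
    · exact Or.inr ⟨q2.symm, q1.symm⟩)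
  obtain ⟨n3, hn3, hn3', hW3, -⟩ := par (s := c3) (t := d3) (k3 + 1 + r + 3) (a := a3) (b := b3) h33
  set R1 := la a1 b1 (k1 + 1) with hR1
  set R4 := alt a4 b4 (k4 + 1) with hR4
  set U := U4 J M J' R1 (alt a2 b2 (n2 + e)) (alt d3 c3 (n3 - 3)) R4 with hU
  have hB1 : B (U4 J M J' R1 (alt a2 b2 (k2 + 1)) (alt d3 c3 (k3 + 1)) R4) ≤ B U := by
    have s1 : B (U4 J M J' R1 (alt a2 b2 (k2 + 1)) (alt d3 c3 (k3 + 1)) R4) ≤
        B (U4 J M J' R1 (alt a2 b2 (k2 + 1 + (n2 + e - (k2 + 1)))) (alt d3 c3 (k3 + 1)) R4) := by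
      have := mono2 (x := R1 ++ J) (y := M ++ (alt d3 c3 (k3 + 1) ++ (J' ++ R4))) (s := a2) (t := b2)
        (fun n => by
          have := hfam k1 n k3 k4 R1 (alt a2 b2 (n + 1)) (alt d3 c3 (k3 + 1)) R4
            ⟨la_A2 _ _ _, Or.inl rfl, rfl, Or.inl rfl⟩
          simpa [U4, List.append_assoc] using this) k2 (n2 + e - (k2 + 1))
      simpa only [U4, List.append_assoc] using this
    have s2 : B (U4 J M J' R1 (alt a2 b2 (k2 + 1 + (n2 + e - (k2 + 1)))) (alt d3 c3 (k3 + 1)) R4) ≤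
        B (U4 J M J' R1 (alt a2 b2 (k2 + 1 + (n2 + e - (k2 + 1))))
          (alt d3 c3 (k3 + 1 + (n3 - 3 - (k3 + 1)))) R4) := by
      have := mono2 (x := R1 ++ (J ++ (alt a2 b2 (k2 + 1 + (n2 + e - (k2 + 1))) ++ M)))
        (y := J' ++ R4) (s := d3) (t := c3)
        (fun n => by
          have := hfam k1 (k2 + (n2 + e - (k2 + 1))) n k4 R1
            (alt a2 b2 (k2 + (n2 + e - (k2 + 1)) + 1)) (alt d3 c3 (n + 1)) R4
            ⟨la_A2 _ _ _, Or.inl rfl, rfl, Or.inl rfl⟩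
          rw [show k2 + (n2 + e - (k2 + 1)) + 1 = k2 + 1 + (n2 + e - (k2 + 1)) by ring] at this
          simpa [U4, List.append_assoc] using this) k3 (n3 - 3 - (k3 + 1))
      simpa only [U4, List.append_assoc] using this
    refine le_trans s1 (le_trans s2 (le_of_eq ?_))
    rw [show k2 + 1 + (n2 + e - (k2 + 1)) = n2 + e by omega,
      show k3 + 1 + (n3 - 3 - (k3 + 1)) = n3 - 3 by omega]
  -- rewrite U
  have hW3' : alt c3 d3 n3 = alt c3 d3 3 ++ alt d3 c3 (n3 - 3) := by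
    conv_lhs => rw [show n3 = 3 + (n3 - 3) by omega, alt_add]
    simp [show ¬ Even 3 by decide]
  obtain ⟨e1, he1⟩ := la_suffix c2 d2 (show r ≤ n2 by omega)
  have hUeq : U = (R1 ++ (J ++ (e1 ++ e3))) ++ (o ++ (J3 ++ (alt c3 d3 n3 ++ (J' ++ R4)))) := by
    rw [hU, U4, ← hW2e e, hW2]
    have : la c2 d2 n2 ++ alt d2 c2 e ++ (M ++ (alt d3 c3 (n3 - 3) ++ (J' ++ R4))) =
        la c2 d2 n2 ++ ((alt d2 c2 e ++ M) ++ (alt d3 c3 (n3 - 3) ++ (J' ++ R4))) := by simp
    rw [this, ← hM, he1, hW3']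
    calc R1 ++ (J ++ (e1 ++ la c2 d2 r ++ (J2 ++ J3 ++ alt c3 d3 3 ++
          (alt d3 c3 (n3 - 3) ++ (J' ++ R4)))))
        = R1 ++ (J ++ (e1 ++ ((la c2 d2 r ++ J2) ++ (J3 ++ (alt c3 d3 3 ++
          (alt d3 c3 (n3 - 3) ++ (J' ++ R4))))))) := by simp
      _ = _ := by rw [he3]; simp
  have hS2 : S r γ 2 ((R1 ++ (J ++ (e1 ++ e3))) ++ o) := by
    have g1 : S r γ 2 ((R1 ++ J) ++ alt a2 b2 n2) := by
      have := G.all (k1 + 1) n2
      simpa [List.append_assoc] using this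
    have g2 : S r γ 2 (alt a2 b2 n2 ++ J2) := by
      rw [hW2]; exact hctx2 n2
    have g3 := glue (by omega) (by
      intro h0
      have := congrArg List.length h0
      simp at this; omega) (by rw [alt_length]; omega) g1 g2
    have e5 : (R1 ++ J) ++ (alt a2 b2 n2 ++ J2) = (R1 ++ (J ++ (e1 ++ e3))) ++ o := by
      rw [hW2, he1]
      calc R1 ++ J ++ (e1 ++ la c2 d2 r ++ J2) = R1 ++ J ++ (e1 ++ (la c2 d2 r ++ J2)) := by simp
        _ = _ := by rw [he3]; simp
    rw [← e5]; exact g3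
  have hS1 : S r γ 1 (o ++ (J3 ++ (alt c3 d3 n3 ++ (J' ++ R4)))) := by
    have g1 := hctx3 n3
    have g2 : S r γ 1 (alt c3 d3 n3 ++ (J' ++ R4)) := by
      rw [hW3]; exact G'.all n3 (k4 + 1)
    have g3 := glue (by omega) (by
      intro h0
      have := congrArg List.length h0
      simp at this; omega) (by rw [alt_length]; omega) g1 g2
    simpa [List.append_assoc] using g3
  obtain ⟨k, l, hWU⟩ := form H ho hS2 hS1 hg (by
    intro h0
    have := congrArg List.length h0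
    simp at this; omega)
  rw [← hUeq] at hWU
  have hPU : Pr U := by
    have := hfam k1 (n2 + e - 1) (n3 - 3 - 1) k4 R1 (alt a2 b2 (n2 + e)) (alt d3 c3 (n3 - 3)) R4
      ⟨la_A2 _ _ _, Or.inl (by congr 1; omega), by congr 1; omega, Or.inl rfl⟩
    exact this
  have hUlen : U.length = (k1 + 1) + J.length + (n2 + e) + M.length + (n3 - 3) + J'.length +
      (k4 + 1) := by
    rw [hU, U4, hR1, hR4]
    simp only [List.length_append, la_length, alt_length]
    ring
  have hUB : U.length ≤ N + C0 := by omega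
  have hUN : N ≤ U.length := by omega
  obtain ⟨-, ha2⟩ := H.ha U (by omega) hPU
  -- bound for the image
  set w := Wn r γ U with hw
  have hwl : w.length ≤ U.length := by
    rw [hw, Wn_length (by omega)]; omega
  have hcore : 20 ^ w.length * B w ≤ 20 * 69 ^ w.length := by
    have hCr : Cr (0 : C) 1 2 20 w := Or.inr (Or.inl ⟨rfl, k, l, hWU⟩)
    have := core_UB (0 : C) 1 2 w.length 20 [] w [] (by simp) hCr
    simpa using this
  have h20 : 20 ^ U.length * B w ≤ 20 * 69 ^ U.length := by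
    have e5 : (20 : ℕ) ^ U.length = 20 ^ (U.length - w.length) * 20 ^ w.length := by
      rw [← pow_add]; congr 1; omega
    have e6 : (69 : ℕ) ^ U.length = 69 ^ (U.length - w.length) * 69 ^ w.length := by
      rw [← pow_add]; congr 1; omega
    calc 20 ^ U.length * B w = 20 ^ (U.length - w.length) * (20 ^ w.length * B w) := by
          rw [e5]; ring
      _ ≤ 69 ^ (U.length - w.length) * (20 * 69 ^ w.length) := by
          apply Nat.mul_le_mul _ hcore
          exact Nat.pow_le_pow_left (by norm_num) _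
      _ = _ := by rw [e6]; ring
  have hfin : 140 ^ N ≤ 40 * (C0 + 1) ^ r * 138 ^ C0 * (N + 1) ^ (3 + r) * 138 ^ N := by
    have hm1 : U.length + 1 ≤ (N + 1) * (C0 + 1) := by nlinarith
    calc 140 ^ N = 20 ^ N * 7 ^ N := by rw [← mul_pow]; norm_num
      _ ≤ 20 ^ U.length * ((N + 1) ^ 3 * B U) := by
          apply Nat.mul_le_mul (Nat.pow_le_pow_right (by norm_num) hUN)
          exact le_trans hlb (Nat.mul_le_mul_left _ hB1)
      _ ≤ 20 ^ U.length * ((N + 1) ^ 3 * (2 ^ (U.length + 1) * (U.length + 1) ^ r * B w)) := by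
          gcongr
      _ = (N + 1) ^ 3 * 2 ^ (U.length + 1) * (U.length + 1) ^ r * (20 ^ U.length * B w) := by ring
      _ ≤ (N + 1) ^ 3 * 2 ^ (U.length + 1) * (U.length + 1) ^ r * (20 * 69 ^ U.length) := by
          gcongr
      _ = 40 * (N + 1) ^ 3 * (U.length + 1) ^ r * 138 ^ U.length := by
          rw [show (138 : ℕ) = 2 * 69 by norm_num, mul_pow, pow_succ]; ring
      _ ≤ 40 * (N + 1) ^ 3 * ((N + 1) * (C0 + 1)) ^ r * 138 ^ (N + C0) := by
          gcongr
          norm_num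
      _ = _ := by rw [mul_pow, pow_add, pow_add]; ring
  omega

end Pool.Agent.R987.FD
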