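import Pool.Agent.R987.FD.Upper

/-! Lower bounds for the number of deletion orders. -/

namespace Pool.Agent.R987.FD

open Finset

variable {α : Type*}

lemma ds_dropLast_le (F : List α → ℕ) {R : List α} (h : R ≠ []) : F R.dropLast ≤ ds F R := by
  have := ds_ge F R.dropLast [] (R.getLast h)
  rwa [List.append_nil, List.dropLast_append_getLast] at this

lemma ds_two (F : List α → ℕ) {R : List α} (h : 2 ≤ R.length) :
    F R.tail + F R.dropLast ≤ ds F R := by
  match R, h with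
  | x :: y :: R, _ =>
    rw [ds_cons]
    have := ds_dropLast_le (fun v => F (x :: v)) (R := y :: R) (by simp)
    exact Nat.add_le_add_left this _

section two
variable [DecidableEq α]

omit [DecidableEq α] in
lemma P1 {x y z : α} (hxy : x ≠ y) (hxz : x ≠ z) (k l : ℕ) :
    Pr (la x y (k + 1) ++ alt z x (l + 1)) := by
  apply List.isChain_append.2 ⟨la_Pr hxy _, alt_Pr hxz.symm _, ?_⟩
  intro p hp q hq
  simp only [la_succ, List.getLast?_append, List.getLast?_singleton, Option.some_or,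
    Option.mem_def, Option.some.injEq, alt_succ, List.head?_cons] at hp hq
  rw [← hp, ← hq]; exact hxz

omit [DecidableEq α] in
lemma P2 {x y z : α} (hxy : x ≠ y) (hxz : x ≠ z) (hyz : y ≠ z) (k l : ℕ) :
    Pr (la y x k ++ alt z x (l + 1)) := by
  apply List.isChain_append.2 ⟨la_Pr hxy.symm _, alt_Pr hxz.symm _, ?_⟩
  intro p hp q hq
  have h1 : p ∈ la y x k := List.mem_of_getLast? hp
  have h2 : q = z := by
    simp only [Option.mem_def, alt_succ, List.head?_cons, Option.some.injEq] at hq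
    exact hq.symm
  rcases mem_la k h1 with h | h
  · rw [h, h2]; exact hyz
  · rw [h, h2]; exact hxz

/-- type I count -/
def fa (x y z : α) (k l : ℕ) : ℕ := B (la x y (k + 1) ++ alt z x (l + 1))
/-- type II count -/
def fb (x y z : α) (k l : ℕ) : ℕ := B (la y x k ++ alt z x (l + 1))

lemma fa_rec {x y z : α} (hxy : x ≠ y) (hxz : x ≠ z) (k l : ℕ) :
    (match k with | 0 => 0 | k + 1 => fa x y z k l) + fb x y z k l +
      (match l with | 0 => 0 | l + 1 => fa x y z k l) ≤ fa x y z k l := by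
  unfold fa
  rw [B_eq (P1 hxy hxz k l) (by simp [la_succ]), ds_append]
  apply Nat.add_le_add
  · cases k with
    | zero =>
      have := ds_dropLast_le (fun t => B (t ++ alt z x (l + 1))) (R := la x y 1) (by simp [la_succ])
      rw [la_dropLast] at this
      simpa [fb] using this
    | succ k =>
      have := ds_two (fun t => B (t ++ alt z x (l + 1))) (R := la x y (k + 1 + 1)) (by simp)
      rw [la_dropLast, la_tail] at this
      exact this
  · cases l with
    | zero => exact Nat.zero_le _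
    | succ l =>
      have := ds_dropLast_le (fun t => B (la x y (k + 1) ++ t)) (R := alt z x (l + 1 + 1)) (by simp)
      rw [alt_dropLast] at this
      exact this

lemma fb_rec {x y z : α} (hxy : x ≠ y) (hxz : x ≠ z) (hyz : y ≠ z) (k l : ℕ) :
    ((match k with | 0 => 0 | k + 1 => fb x y z k l) +
      (match k with | 0 => 0 | 1 => 0 | k + 2 => fa x y z k l)) +
      ((match l with | 0 => 0 | 1 => 0 | l + 2 => fa x y z k l) +
       (match l with | 0 => 0 | l + 1 => fb x y z k l)) ≤ fb x y z k l := by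
  unfold fb
  rw [B_eq (P2 hxy hxz hyz k l) (by simp), ds_append]
  apply Nat.add_le_add
  · match k with
    | 0 => simp
    | 1 =>
      have := ds_dropLast_le (fun t => B (t ++ alt z x (l + 1))) (R := la y x 1) (by simp [la_succ])
      rw [la_dropLast] at this
      simpa using this
    | k + 2 =>
      have := ds_two (fun t => B (t ++ alt z x (l + 1))) (R := la y x (k + 1 + 1)) (by simp)
      rw [la_dropLast, la_tail] at this
      exact this
  · match l with
    | 0 => simp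
    | 1 =>
      have := ds_dropLast_le (fun t => B (la y x k ++ t)) (R := alt z x (1 + 1)) (by simp)
      rw [alt_dropLast] at this
      simpa using this
    | l + 2 =>
      have := ds_two (fun t => B (la y x k ++ t)) (R := alt z x (l + 2 + 1)) (by simp)
      rw [alt_dropLast, alt_tail] at this
      have e3 : la y x k ++ alt x z (l + 2) = la x y (k + 1) ++ alt z x (l + 1) := by
        rw [la_succ x y k, alt_succ, List.append_assoc]; rfl
      rw [e3] at this
      exact this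

/-- lower bound for the two block words -/
theorem two_LB {x y z : α} (hxy : x ≠ y) (hxz : x ≠ z) (hyz : y ≠ z) (N : ℕ) :
    ∃ k l, k + l = N + 1 ∧ 17 ^ N ≤ 7 * 5 ^ N * (N + 2) * fa x y z k l := by
  set A : ℕ → ℕ := fun n => ∑ p ∈ antidiagonal n, fa x y z p.1 p.2 with hA
  set C : ℕ → ℕ := fun n => ∑ p ∈ antidiagonal n, fb x y z p.1 p.2 with hC
  have hA1 : ∀ n, 2 * A n + C (n + 1) ≤ A (n + 1) := by
    intro n
    have h1 : ∑ p ∈ antidiagonal (n + 1), ((match p.1 with | 0 => 0 | k + 1 => fa x y z k p.2) +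
        fb x y z p.1 p.2 + (match p.2 with | 0 => 0 | l + 1 => fa x y z p.1 l)) ≤ A (n + 1) :=
      Finset.sum_le_sum fun p _ => fa_rec hxy hxz p.1 p.2
    rw [Finset.sum_add_distrib, Finset.sum_add_distrib, Finset.Nat.sum_antidiagonal_succ] at h1
    have h2 : ∑ p ∈ antidiagonal (n + 1), (match p.2 with | 0 => 0 | l + 1 => fa x y z p.1 l) =
        A n := by
      rw [Finset.Nat.sum_antidiagonal_succ']
      simp [hA]
    rw [h2] at h1
    simp only [hA, hC] at h1 ⊢
    omega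
  have hC1 : ∀ n, 2 * C (n + 1) + 2 * A n ≤ C (n + 2) := by
    intro n
    have h1 : ∑ p ∈ antidiagonal (n + 2), (((match p.1 with | 0 => 0 | k + 1 => fb x y z k p.2) +
      (match p.1 with | 0 => 0 | 1 => 0 | k + 2 => fa x y z k p.2)) +
      ((match p.2 with | 0 => 0 | 1 => 0 | l + 2 => fa x y z p.1 l) +
       (match p.2 with | 0 => 0 | l + 1 => fb x y z p.1 l))) ≤ C (n + 2) :=
      Finset.sum_le_sum fun p _ => fb_rec hxy hxz hyz p.1 p.2
    simp only [Finset.sum_add_distrib] at h1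
    have e1 : ∑ p ∈ antidiagonal (n + 2), (match p.1 with | 0 => 0 | k + 1 => fb x y z k p.2) =
        C (n + 1) := by
      rw [Finset.Nat.sum_antidiagonal_succ]; simp [hC]
    have e2 : ∑ p ∈ antidiagonal (n + 2), (match p.2 with | 0 => 0 | l + 1 => fb x y z p.1 l) =
        C (n + 1) := by
      rw [Finset.Nat.sum_antidiagonal_succ']; simp [hC]
    have e3 : ∑ p ∈ antidiagonal (n + 2),
        (match p.1 with | 0 => 0 | 1 => 0 | k + 2 => fa x y z k p.2) = A n := by
      rw [Finset.Nat.sum_antidiagonal_succ]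
      simp only [zero_add]
      rw [Finset.Nat.sum_antidiagonal_succ]
      simp [hA]
    have e4 : ∑ p ∈ antidiagonal (n + 2),
        (match p.2 with | 0 => 0 | 1 => 0 | l + 2 => fa x y z p.1 l) = A n := by
      rw [Finset.Nat.sum_antidiagonal_succ']
      simp only [zero_add]
      rw [Finset.Nat.sum_antidiagonal_succ']
      simp [hA]
    rw [e1, e2, e3, e4] at h1
    omega
  have hS : ∀ n, 17 ^ n ≤ 5 ^ n * (10 * A n + 7 * C (n + 1)) := by
    intro n
    induction n with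
    | zero =>
      have : 0 < A 0 := by
        simp only [hA, Finset.Nat.antidiagonal_zero, Finset.sum_singleton]
        exact B_pos (P1 hxy hxz 0 0)
      simp only [pow_zero, one_mul]
      omega
    | succ n ih =>
      have h1 := hA1 n
      have h2 := hC1 n
      calc 17 ^ (n + 1) = 17 * 17 ^ n := by rw [pow_succ]; ring
        _ ≤ 17 * (5 ^ n * (10 * A n + 7 * C (n + 1))) := Nat.mul_le_mul_left _ ih
        _ = 5 ^ n * (170 * A n + 119 * C (n + 1)) := by ring
        _ ≤ 5 ^ n * (5 * (10 * A (n + 1) + 7 * C (n + 1 + 1))) := by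
            apply Nat.mul_le_mul_left
            have e : n + 1 + 1 = n + 2 := rfl
            rw [e]
            omega
        _ = _ := by rw [pow_succ]; ring
  -- choose the best term
  have h1 := hS N
  have h2 := hA1 N
  by_contra hcon
  push Not at hcon
  have h3 : (7 * 5 ^ N * (N + 2)) * A (N + 1) ≤
      ∑ p ∈ antidiagonal (N + 1), (17 ^ N - 1) := by
    simp only [hA, Finset.mul_sum]
    apply Finset.sum_le_sum
    intro p hp
    have := hcon p.1 p.2 (by simpa using hp)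
    omega
  rw [Finset.sum_const, Finset.Nat.card_antidiagonal, smul_eq_mul] at h3
  have h4 : 17 ^ N * (N + 2) ≤ (7 * 5 ^ N * (N + 2)) * A (N + 1) := by
    calc 17 ^ N * (N + 2) ≤ (5 ^ N * (10 * A N + 7 * C (N + 1))) * (N + 2) :=
          Nat.mul_le_mul_right _ h1
      _ ≤ (5 ^ N * (7 * A (N + 1))) * (N + 2) := by
          apply Nat.mul_le_mul_right
          apply Nat.mul_le_mul_left
          omega
      _ = _ := by ring
  have h5 : 0 < 17 ^ N := by positivity
  have h6 : (N + 1 + 1) * (17 ^ N - 1) < 17 ^ N * (N + 2) := by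
    calc (N + 1 + 1) * (17 ^ N - 1) < (N + 2) * 17 ^ N :=
          Nat.mul_lt_mul_of_pos_left (by omega) (by omega)
      _ = _ := by ring
  omega

end two

/-! ### four blocks -/

/-- shift of a function on the naturals -/
def pm (f : ℕ → ℕ) : ℕ → ℕ
  | 0 => 0
  | k + 1 => f k

@[simp] lemma pm_zero (f : ℕ → ℕ) : pm f 0 = 0 := rfl
@[simp] lemma pm_succ (f : ℕ → ℕ) (k : ℕ) : pm f (k + 1) = f k := rfl

/-- alternating words in the letters `s,t` -/
def A2 (s t : α) (k : ℕ) (R : List α) : Prop := R = alt s t k ∨ R = alt t s k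

lemma A2.len {s t : α} {k : ℕ} {R : List α} (h : A2 s t k R) : R.length = k := by
  rcases h with h | h <;> simp [h]

lemma A2.tail {s t : α} {k : ℕ} {R : List α} (h : A2 s t (k + 1) R) : A2 s t k R.tail := by
  rcases h with h | h
  · right; rw [h]; rfl
  · left; rw [h]; rfl

lemma A2.dropLast {s t : α} {k : ℕ} {R : List α} (h : A2 s t (k + 1) R) :
    A2 s t k R.dropLast := by
  rcases h with h | h
  · left; rw [h, alt_dropLast]
  · right; rw [h, alt_dropLast]

section four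
variable [DecidableEq α]

/-- the four block word -/
def U4 (J M J' R1 R2 R3 R4 : List α) : List α := R1 ++ (J ++ (R2 ++ (M ++ (R3 ++ (J' ++ R4)))))

structure Adm (s1 t1 s2 t2 s3 t3 s4 t4 : α) (k1 k2 k3 k4 : ℕ) (R1 R2 R3 R4 : List α) : Prop where
  h1 : A2 s1 t1 (k1 + 1) R1
  h2 : A2 s2 t2 (k2 + 1) R2
  h3 : R3 = alt s3 t3 (k3 + 1)
  h4 : A2 s4 t4 (k4 + 1) R4

variable (J M J' : List α) (s1 t1 s2 t2 s3 t3 s4 t4 : α)

noncomputable def F4 (k1 k2 k3 k4 : ℕ) : ℕ :=
  sInf {n | ∃ R1 R2 R3 R4, Adm s1 t1 s2 t2 s3 t3 s4 t4 k1 k2 k3 k4 R1 R2 R3 R4 ∧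
    n = B (U4 J M J' R1 R2 R3 R4)}

lemma F4_le {k1 k2 k3 k4 : ℕ} {R1 R2 R3 R4 : List α}
    (h : Adm s1 t1 s2 t2 s3 t3 s4 t4 k1 k2 k3 k4 R1 R2 R3 R4) :
    F4 J M J' s1 t1 s2 t2 s3 t3 s4 t4 k1 k2 k3 k4 ≤ B (U4 J M J' R1 R2 R3 R4) :=
  Nat.sInf_le ⟨R1, R2, R3, R4, h, rfl⟩

lemma F4_mem (k1 k2 k3 k4 : ℕ) : ∃ R1 R2 R3 R4,
    Adm s1 t1 s2 t2 s3 t3 s4 t4 k1 k2 k3 k4 R1 R2 R3 R4 ∧
    F4 J M J' s1 t1 s2 t2 s3 t3 s4 t4 k1 k2 k3 k4 = B (U4 J M J' R1 R2 R3 R4) :=
  Nat.sInf_mem (s := {n | ∃ R1 R2 R3 R4, Adm s1 t1 s2 t2 s3 t3 s4 t4 k1 k2 k3 k4 R1 R2 R3 R4 ∧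
    n = B (U4 J M J' R1 R2 R3 R4)})
    ⟨_, _, _, _, _, ⟨Or.inl rfl, Or.inl rfl, rfl, Or.inl rfl⟩, rfl⟩

lemma F4_rec (hPr : ∀ k1 k2 k3 k4 R1 R2 R3 R4,
      Adm s1 t1 s2 t2 s3 t3 s4 t4 k1 k2 k3 k4 R1 R2 R3 R4 → Pr (U4 J M J' R1 R2 R3 R4))
    (k1 k2 k3 k4 : ℕ) :
    2 * (pm (fun k1 => F4 J M J' s1 t1 s2 t2 s3 t3 s4 t4 k1 k2 k3 k4) k1) +
    2 * (pm (fun k2 => F4 J M J' s1 t1 s2 t2 s3 t3 s4 t4 k1 k2 k3 k4) k2) +
    (pm (fun k3 => F4 J M J' s1 t1 s2 t2 s3 t3 s4 t4 k1 k2 k3 k4) k3) +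
    2 * (pm (fun k4 => F4 J M J' s1 t1 s2 t2 s3 t3 s4 t4 k1 k2 k3 k4) k4) ≤
    F4 J M J' s1 t1 s2 t2 s3 t3 s4 t4 k1 k2 k3 k4 := by
  obtain ⟨R1, R2, R3, R4, h, e⟩ := F4_mem J M J' s1 t1 s2 t2 s3 t3 s4 t4 k1 k2 k3 k4
  have hp := hPr _ _ _ _ _ _ _ _ h
  have hne : U4 J M J' R1 R2 R3 R4 ≠ [] := by
    intro h0
    have := congrArg List.length h0
    simp only [U4, List.length_append, h.h1.len, List.length_nil] at this
    omega
  rw [e, B_eq hp hne]
  unfold U4
  rw [ds_append, ds_append, ds_append, ds_append, ds_append, ds_append]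
  have a1 : 2 * (pm (fun k1 => F4 J M J' s1 t1 s2 t2 s3 t3 s4 t4 k1 k2 k3 k4) k1)
      ≤ ds (fun t => B (t ++ (J ++ (R2 ++ (M ++ (R3 ++ (J' ++ R4))))))) R1 := by
    cases k1 with
    | zero => simp
    | succ k1 =>
      have q := ds_two (fun t => B (t ++ (J ++ (R2 ++ (M ++ (R3 ++ (J' ++ R4))))))) (R := R1)
        (by rw [h.h1.len]; omega)
      have q1 := F4_le J M J' s1 t1 s2 t2 s3 t3 s4 t4 (k1 := k1) (k2 := k2) (k3 := k3) (k4 := k4)
        ⟨h.h1.tail, h.h2, h.h3, h.h4⟩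
      have q2 := F4_le J M J' s1 t1 s2 t2 s3 t3 s4 t4 (k1 := k1) (k2 := k2) (k3 := k3) (k4 := k4)
        ⟨h.h1.dropLast, h.h2, h.h3, h.h4⟩
      unfold U4 at q1 q2
      dsimp only [pm_succ] at q ⊢
      omega
  have a2 : 2 * (pm (fun k2 => F4 J M J' s1 t1 s2 t2 s3 t3 s4 t4 k1 k2 k3 k4) k2)
      ≤ ds (fun t => B (R1 ++ (J ++ (t ++ (M ++ (R3 ++ (J' ++ R4))))))) R2 := by
    cases k2 with
    | zero => simp
    | succ k2 =>
      have q := ds_two (fun t => B (R1 ++ (J ++ (t ++ (M ++ (R3 ++ (J' ++ R4))))))) (R := R2)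
        (by rw [h.h2.len]; omega)
      have q1 := F4_le J M J' s1 t1 s2 t2 s3 t3 s4 t4 (k1 := k1) (k2 := k2) (k3 := k3) (k4 := k4)
        ⟨h.h1, h.h2.tail, h.h3, h.h4⟩
      have q2 := F4_le J M J' s1 t1 s2 t2 s3 t3 s4 t4 (k1 := k1) (k2 := k2) (k3 := k3) (k4 := k4)
        ⟨h.h1, h.h2.dropLast, h.h3, h.h4⟩
      unfold U4 at q1 q2
      dsimp only [pm_succ] at q ⊢
      omega
  have a3 : (pm (fun k3 => F4 J M J' s1 t1 s2 t2 s3 t3 s4 t4 k1 k2 k3 k4) k3)
      ≤ ds (fun t => B (R1 ++ (J ++ (R2 ++ (M ++ (t ++ (J' ++ R4))))))) R3 := by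
    cases k3 with
    | zero => simp
    | succ k3 =>
      have q := ds_dropLast_le (fun t => B (R1 ++ (J ++ (R2 ++ (M ++ (t ++ (J' ++ R4)))))))
        (R := R3) (by rw [h.h3]; simp)
      have q1 := F4_le J M J' s1 t1 s2 t2 s3 t3 s4 t4 (k1 := k1) (k2 := k2) (k3 := k3) (k4 := k4)
        (R3 := R3.dropLast) ⟨h.h1, h.h2, by rw [h.h3, alt_dropLast], h.h4⟩
      unfold U4 at q1
      dsimp only [pm_succ] at q ⊢
      omega
  have a4 : 2 * (pm (fun k4 => F4 J M J' s1 t1 s2 t2 s3 t3 s4 t4 k1 k2 k3 k4) k4)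
      ≤ ds (fun t => B (R1 ++ (J ++ (R2 ++ (M ++ (R3 ++ (J' ++ t))))))) R4 := by
    cases k4 with
    | zero => simp
    | succ k4 =>
      have q := ds_two (fun t => B (R1 ++ (J ++ (R2 ++ (M ++ (R3 ++ (J' ++ t))))))) (R := R4)
        (by rw [h.h4.len]; omega)
      have q1 := F4_le J M J' s1 t1 s2 t2 s3 t3 s4 t4 (k1 := k1) (k2 := k2) (k3 := k3) (k4 := k4)
        ⟨h.h1, h.h2, h.h3, h.h4.tail⟩
      have q2 := F4_le J M J' s1 t1 s2 t2 s3 t3 s4 t4 (k1 := k1) (k2 := k2) (k3 := k3) (k4 := k4)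
        ⟨h.h1, h.h2, h.h3, h.h4.dropLast⟩
      unfold U4 at q1 q2
      dsimp only [pm_succ] at q ⊢
      omega
  omega

theorem four_LB (hPr : ∀ k1 k2 k3 k4 R1 R2 R3 R4,
      Adm s1 t1 s2 t2 s3 t3 s4 t4 k1 k2 k3 k4 R1 R2 R3 R4 → Pr (U4 J M J' R1 R2 R3 R4)) (N : ℕ) :
    ∃ k1 k2 k3 k4, k1 + k2 + (k3 + k4) = N ∧ ∀ R1 R2 R3 R4,
      Adm s1 t1 s2 t2 s3 t3 s4 t4 k1 k2 k3 k4 R1 R2 R3 R4 →
      7 ^ N ≤ (N + 1) ^ 3 * B (U4 J M J' R1 R2 R3 R4) := by
  set F := F4 J M J' s1 t1 s2 t2 s3 t3 s4 t4 with hF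
  set T : ℕ → ℕ := fun n => ∑ p ∈ antidiagonal n, ∑ q ∈ antidiagonal p.1,
    ∑ r ∈ antidiagonal p.2, F q.1 q.2 r.1 r.2 with hT
  have hrec : ∀ n, 7 * T n ≤ T (n + 1) := by
    intro n
    have h1 : ∑ p ∈ antidiagonal (n + 1), ∑ q ∈ antidiagonal p.1, ∑ r ∈ antidiagonal p.2,
        (2 * (pm (fun k => F k q.2 r.1 r.2) q.1) +
        2 * (pm (fun k => F q.1 k r.1 r.2) q.2) +
        (pm (fun k => F q.1 q.2 k r.2) r.1) +
        2 * (pm (fun k => F q.1 q.2 r.1 k) r.2)) ≤ T (n + 1) := by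
      apply Finset.sum_le_sum; intro p _
      apply Finset.sum_le_sum; intro q _
      apply Finset.sum_le_sum; intro r _
      exact F4_rec J M J' s1 t1 s2 t2 s3 t3 s4 t4 hPr q.1 q.2 r.1 r.2
    simp only [Finset.sum_add_distrib, ← Finset.mul_sum] at h1
    have e1 : ∑ p ∈ antidiagonal (n + 1), ∑ q ∈ antidiagonal p.1, ∑ r ∈ antidiagonal p.2,
        (pm (fun k => F k q.2 r.1 r.2) q.1) = T n := by
      rw [Finset.Nat.sum_antidiagonal_succ]
      simp only [pm_zero, Finset.Nat.antidiagonal_zero, Finset.sum_singleton, Finset.sum_const_zero,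
        zero_add]
      apply Finset.sum_congr rfl; intro p _
      rw [Finset.Nat.sum_antidiagonal_succ]
      simp
    have e2 : ∑ p ∈ antidiagonal (n + 1), ∑ q ∈ antidiagonal p.1, ∑ r ∈ antidiagonal p.2,
        (pm (fun k => F q.1 k r.1 r.2) q.2) = T n := by
      rw [Finset.Nat.sum_antidiagonal_succ]
      simp only [pm_zero, Finset.Nat.antidiagonal_zero, Finset.sum_singleton, Finset.sum_const_zero,
        zero_add]
      apply Finset.sum_congr rfl; intro p _
      rw [Finset.Nat.sum_antidiagonal_succ']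
      simp
    have e3 : ∑ p ∈ antidiagonal (n + 1), ∑ q ∈ antidiagonal p.1, ∑ r ∈ antidiagonal p.2,
        (pm (fun k => F q.1 q.2 k r.2) r.1) = T n := by
      rw [Finset.Nat.sum_antidiagonal_succ']
      simp only [pm_zero, Finset.Nat.antidiagonal_zero, Finset.sum_singleton, Finset.sum_const_zero,
        add_zero, zero_add]
      apply Finset.sum_congr rfl; intro p _
      apply Finset.sum_congr rfl; intro q _
      rw [Finset.Nat.sum_antidiagonal_succ]
      simp
    have e4 : ∑ p ∈ antidiagonal (n + 1), ∑ q ∈ antidiagonal p.1, ∑ r ∈ antidiagonal p.2,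
        (pm (fun k => F q.1 q.2 r.1 k) r.2) = T n := by
      rw [Finset.Nat.sum_antidiagonal_succ']
      simp only [pm_zero, Finset.Nat.antidiagonal_zero, Finset.sum_singleton, Finset.sum_const_zero,
        add_zero, zero_add]
      apply Finset.sum_congr rfl; intro p _
      apply Finset.sum_congr rfl; intro q _
      rw [Finset.Nat.sum_antidiagonal_succ']
      simp
    rw [e1, e2, e3, e4] at h1
    omega
  have hpow : ∀ n, 7 ^ n ≤ T n := by
    intro n
    induction n with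
    | zero =>
      have : 0 < T 0 := by
        simp only [hT, Finset.Nat.antidiagonal_zero, Finset.sum_singleton]
        obtain ⟨R1, R2, R3, R4, h, e⟩ := F4_mem J M J' s1 t1 s2 t2 s3 t3 s4 t4 0 0 0 0
        rw [hF, e]
        exact B_pos (hPr _ _ _ _ _ _ _ _ h)
      rw [pow_zero]; omega
    | succ n ih =>
      calc 7 ^ (n + 1) = 7 * 7 ^ n := by rw [pow_succ]; ring
        _ ≤ 7 * T n := Nat.mul_le_mul_left _ ih
        _ ≤ _ := hrec n
  by_contra hcon
  push Not at hcon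
  have hF' : ∀ k1 k2 k3 k4, k1 + k2 + (k3 + k4) = N →
      (N + 1) ^ 3 * F k1 k2 k3 k4 ≤ 7 ^ N - 1 := by
    intro k1 k2 k3 k4 hk
    obtain ⟨R1, R2, R3, R4, h, hlt⟩ := hcon k1 k2 k3 k4 hk
    have := F4_le J M J' s1 t1 s2 t2 s3 t3 s4 t4 h
    have h2 := Nat.mul_le_mul_left ((N + 1) ^ 3) this
    rw [hF]
    omega
  have h3 : (N + 1) ^ 3 * T N ≤ (N + 1) ^ 3 * (7 ^ N - 1) := by
    calc (N + 1) ^ 3 * T N = ∑ p ∈ antidiagonal N, ∑ q ∈ antidiagonal p.1,
        ∑ r ∈ antidiagonal p.2, (N + 1) ^ 3 * F q.1 q.2 r.1 r.2 := by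
          simp only [hT, Finset.mul_sum]
      _ ≤ ∑ p ∈ antidiagonal N, ∑ q ∈ antidiagonal p.1,
        ∑ r ∈ antidiagonal p.2, (7 ^ N - 1) := by
          apply Finset.sum_le_sum; intro p hp
          apply Finset.sum_le_sum; intro q hq
          apply Finset.sum_le_sum; intro r hr
          have hp' : p.1 + p.2 = N := by simpa using hp
          have hq' : q.1 + q.2 = p.1 := by simpa using hq
          have hr' : r.1 + r.2 = p.2 := by simpa using hr
          exact hF' _ _ _ _ (by omega)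
      _ ≤ ∑ p ∈ antidiagonal N, (N + 1) ^ 2 * (7 ^ N - 1) := by
          apply Finset.sum_le_sum; intro p hp
          have hp' : p.1 + p.2 = N := by simpa using hp
          simp only [Finset.sum_const, Finset.Nat.card_antidiagonal, smul_eq_mul]
          rw [← mul_assoc]
          apply Nat.mul_le_mul_right
          calc (p.1 + 1) * (p.2 + 1) ≤ (N + 1) * (N + 1) := by gcongr <;> omega
            _ = _ := by ring
      _ = _ := by
          simp only [Finset.sum_const, Finset.Nat.card_antidiagonal, smul_eq_mul]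
          ring
  have h4 := hpow N
  have h5 : (N + 1) ^ 3 * 7 ^ N ≤ (N + 1) ^ 3 * (7 ^ N - 1) :=
    le_trans (Nat.mul_le_mul_left _ h4) h3
  have h6 : 0 < 7 ^ N := by positivity
  have h7 := Nat.le_of_mul_le_mul_left h5 (by positivity)
  omega

end four

end Pool.Agent.R987.FD
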