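import Pool.Agent.R987.FD.Comb4

/-! Random arrival orders, and the normalising constants. -/

namespace Pool.Agent.R987.FD

open Finset

/-- The letters `z 0, z 1, …` arrive in the order `σ` (`z j` arrives at time `σ j`), and at every
time `t` the subsequence of the letters that have arrived by time `t` has no two consecutive equal
terms. -/
def Event {q n : ℕ} (z : Fin n → Fin q) (σ : Equiv.Perm (Fin n)) : Prop :=
  ∀ t i j : Fin n, i < j → σ i ≤ t → σ j ≤ t → (∀ k, i < k → k < j → t < σ k) → z i ≠ z j

/-- the permutation sending `i0` to the last element and inducing `τ` on the rest -/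
noncomputable def ext {n : ℕ} (i0 : Fin (n + 1)) (τ : Equiv.Perm (Fin n)) :
    Equiv.Perm (Fin (n + 1)) :=
  Equiv.ofBijective (i0.insertNth (α := fun _ => Fin (n + 1)) (Fin.last n)
    (fun j => (τ j).castSucc)) (by
    apply Finite.injective_iff_bijective.1
    intro a b hab
    rcases Fin.eq_self_or_eq_succAbove i0 a with ha | ⟨a, rfl⟩ <;>
    rcases Fin.eq_self_or_eq_succAbove i0 b with hb | ⟨b, rfl⟩
    · rw [ha, hb]
    · rw [ha, Fin.insertNth_apply_same, Fin.insertNth_apply_succAbove] at hab
      exact absurd hab (Fin.castSucc_lt_last _).ne'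
    · rw [hb, Fin.insertNth_apply_same, Fin.insertNth_apply_succAbove] at hab
      exact absurd hab (Fin.castSucc_lt_last _).ne
    · rw [Fin.insertNth_apply_succAbove, Fin.insertNth_apply_succAbove] at hab
      have := τ.injective (Fin.castSucc_injective n hab)
      rw [this])

lemma ext_self {n : ℕ} (i0 : Fin (n + 1)) (τ : Equiv.Perm (Fin n)) :
    ext i0 τ i0 = Fin.last n := by
  simp [ext]

lemma ext_succAbove {n : ℕ} (i0 : Fin (n + 1)) (τ : Equiv.Perm (Fin n)) (j : Fin n) :
    ext i0 τ (i0.succAbove j) = (τ j).castSucc := by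
  simp [ext]

lemma ext_bij {n : ℕ} : Function.Bijective
    (fun p : Fin (n + 1) × Equiv.Perm (Fin n) => ext p.1 p.2) := by
  rw [Fintype.bijective_iff_injective_and_card]
  constructor
  · rintro ⟨i, τ⟩ ⟨i', τ'⟩ h
    simp only at h
    have h1 : i = i' := by
      have e1 := ext_self i τ
      rw [h] at e1
      rcases Fin.eq_self_or_eq_succAbove i' i with h2 | ⟨j, h2⟩
      · exact h2
      · rw [h2, ext_succAbove] at e1
        exact absurd e1 (Fin.castSucc_lt_last _).ne
    subst h1
    congr 1
    apply Equiv.ext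
    intro j
    have e1 := ext_succAbove i τ j
    rw [h, ext_succAbove] at e1
    exact (Fin.castSucc_injective n e1).symm
  · rw [Fintype.card_prod, Fintype.card_perm, Fintype.card_perm, Fintype.card_fin,
      Fintype.card_fin, Nat.factorial_succ]

lemma pr_ofFn {q n : ℕ} (w : Fin n → Fin q) : Pr (List.ofFn w) ↔
    ∀ (i) (hi : i + 1 < n), w ⟨i, Nat.lt_of_succ_lt hi⟩ ≠ w ⟨i + 1, hi⟩ :=
  List.isChain_ofFn

lemma event_iff {q n : ℕ} (w : Fin (n + 1) → Fin q) (i0 : Fin (n + 1))
    (τ : Equiv.Perm (Fin n)) : Event w (ext i0 τ) ↔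
      Pr (List.ofFn w) ∧ Event (fun j => w (i0.succAbove j)) τ := by
  constructor
  · intro h
    constructor
    · rw [pr_ofFn]
      intro i hi
      apply h (Fin.last n) _ _ _ (Fin.le_last _) (Fin.le_last _)
      · intro k hk1 hk2
        simp only [Fin.lt_def] at hk1 hk2
        omega
      · simp [Fin.lt_def]
    · intro t i j hij hi hj hk
      apply h t.castSucc _ _ (Fin.strictMono_succAbove i0 hij)
      · rw [ext_succAbove]; exact Fin.castSucc_le_castSucc_iff.2 hi
      · rw [ext_succAbove]; exact Fin.castSucc_le_castSucc_iff.2 hj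
      · intro k hk1 hk2
        rcases Fin.eq_self_or_eq_succAbove i0 k with rfl | ⟨k, rfl⟩
        · rw [ext_self]; exact Fin.castSucc_lt_last _
        · rw [ext_succAbove]
          apply Fin.castSucc_lt_castSucc_iff.2
          exact hk k ((Fin.strictMono_succAbove i0).lt_iff_lt.1 hk1)
            ((Fin.strictMono_succAbove i0).lt_iff_lt.1 hk2)
  · rintro ⟨h1, h2⟩ t i j hij hi hj hk
    rcases Fin.eq_castSucc_or_eq_last t with ⟨t, rfl⟩ | rfl
    · rcases Fin.eq_self_or_eq_succAbove i0 i with rfl | ⟨i, rfl⟩
      · rw [ext_self] at hi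
        exact absurd (lt_of_lt_of_le (Fin.castSucc_lt_last t) hi) (lt_irrefl _)
      rcases Fin.eq_self_or_eq_succAbove i0 j with rfl | ⟨j, rfl⟩
      · rw [ext_self] at hj
        exact absurd (lt_of_lt_of_le (Fin.castSucc_lt_last t) hj) (lt_irrefl _)
      rw [ext_succAbove] at hi hj
      apply h2 t i j ((Fin.strictMono_succAbove i0).lt_iff_lt.1 hij)
        (Fin.castSucc_le_castSucc_iff.1 hi) (Fin.castSucc_le_castSucc_iff.1 hj)
      intro k hk1 hk2
      have := hk (i0.succAbove k) (Fin.strictMono_succAbove i0 hk1)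
        (Fin.strictMono_succAbove i0 hk2)
      rw [ext_succAbove] at this
      exact Fin.castSucc_lt_castSucc_iff.1 this
    · -- all letters have arrived
      have hji : (j : ℕ) = i + 1 := by
        by_contra hne
        simp only [Fin.lt_def] at hij
        have hlt : (i : ℕ) + 1 < n + 1 := by have := j.2; omega
        have := hk ⟨i + 1, hlt⟩ (by simp [Fin.lt_def]) (by simp only [Fin.lt_def]; omega)
        exact absurd (lt_of_lt_of_le this (Fin.le_last _)) (lt_irrefl _)
      have h3 := (pr_ofFn w).1 h1 i (by have := j.2; omega)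
      have e : j = ⟨(i : ℕ) + 1, by have := j.2; omega⟩ := Fin.ext hji
      rw [e]; exact h3

open Classical in
/-- number of admissible arrival orders -/
noncomputable def cnt {q n : ℕ} (w : Fin n → Fin q) : ℕ :=
  ∑ σ : Equiv.Perm (Fin n), if Event w σ then 1 else 0

lemma cnt_succ {q n : ℕ} (w : Fin (n + 1) → Fin q) : cnt w =
    if Pr (List.ofFn w) then ∑ i : Fin (n + 1), cnt (fun j => w (i.succAbove j)) else 0 := by
  classical
  unfold cnt
  rw [← ext_bij.sum_comp (fun σ => if Event w σ then 1 else 0), Fintype.sum_prod_type]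
  simp only [event_iff]
  by_cases h : Pr (List.ofFn w)
  · simp only [h, true_and, if_true]
  · simp only [h, false_and, if_false, Finset.sum_const_zero]

lemma ds_ofFn {α : Type*} (n : ℕ) : ∀ (w : Fin (n + 1) → α) (F : List α → ℕ),
    ds F (List.ofFn w) = ∑ i : Fin (n + 1), F (List.ofFn (fun j => w (i.succAbove j))) := by
  induction n with
  | zero =>
    intro w F
    simp [List.ofFn_succ]
  | succ n ih =>
    intro w F
    rw [List.ofFn_succ, ds_cons, ih (fun i => w i.succ)]
    conv_rhs => rw [Fin.sum_univ_succ]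
    congr 1
    apply Finset.sum_congr rfl
    intro i _
    congr 1
    conv_rhs => rw [List.ofFn_succ]
    simp

theorem cnt_eq {q : ℕ} (n : ℕ) : ∀ w : Fin n → Fin q, cnt w = B (List.ofFn w) := by
  induction n with
  | zero =>
    intro w
    unfold cnt
    have : ∀ σ : Equiv.Perm (Fin 0), Event w σ := fun σ t => t.elim0
    simp [this]
  | succ n ih =>
    intro w
    rw [cnt_succ]
    by_cases h : Pr (List.ofFn w)
    · rw [if_pos h, B_eq h (by simp [List.ofFn_succ]), ds_ofFn]
      apply Finset.sum_congr rfl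
      intro i _
      exact ih _
    · rw [if_neg h, B_of_not h]

/-! ### normalisation -/

/-- sum over all words of length `n` -/
def sw (q : ℕ) : ℕ → (List (Fin q) → ℕ) → ℕ
  | 0, F => F []
  | n + 1, F => ∑ x : Fin q, sw q n (fun v => F (x :: v))

lemma sw_eq {q : ℕ} (n : ℕ) : ∀ F : List (Fin q) → ℕ,
    ∑ z : Fin n → Fin q, F (List.ofFn z) = sw q n F := by
  induction n with
  | zero => intro F; simp [sw]
  | succ n ih =>
    intro F
    rw [sw, ← (Fin.consEquiv (fun _ => Fin q)).sum_comp, Fintype.sum_prod_type]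
    apply Finset.sum_congr rfl
    intro x _
    rw [← ih]
    apply Finset.sum_congr rfl
    intro v _
    congr 1
    simp [Fin.consEquiv, List.ofFn_succ]

lemma sw_add {q : ℕ} (n : ℕ) : ∀ F G : List (Fin q) → ℕ,
    sw q n (fun v => F v + G v) = sw q n F + sw q n G := by
  induction n with
  | zero => intro F G; rfl
  | succ n ih => intro F G; simp only [sw, ih, Finset.sum_add_distrib]

lemma sw_sum {q : ℕ} {ι : Type*} (s : Finset ι) (n : ℕ) : ∀ F : ι → List (Fin q) → ℕ,
    sw q n (fun v => ∑ i ∈ s, F i v) = ∑ i ∈ s, sw q n (F i) := by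
  induction n with
  | zero => intro F; rfl
  | succ n ih => intro F; simp only [sw, ih]; rw [Finset.sum_comm]

lemma sw_congr {q : ℕ} (n : ℕ) : ∀ F G : List (Fin q) → ℕ,
    (∀ v, v.length = n → F v = G v) → sw q n F = sw q n G := by
  induction n with
  | zero => intro F G h; exact h [] rfl
  | succ n ih =>
    intro F G h
    simp only [sw]
    apply Finset.sum_congr rfl
    intro x _
    exact ih _ _ (fun v hv => h (x :: v) (by simp [hv]))

lemma sw_mul {q : ℕ} (c : ℕ) (n : ℕ) : ∀ F : List (Fin q) → ℕ,
    sw q n (fun v => F v * c) = sw q n F * c := by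
  induction n with
  | zero => intro F; rfl
  | succ n ih => intro F; simp only [sw, ih, Finset.sum_mul]

/-- sum over all insertions of the letter `x` -/
def is {α : Type*} (x : α) : (List α → ℕ) → List α → ℕ
  | F, [] => F [x]
  | F, y :: u => F (x :: y :: u) + is x (fun v => F (y :: v)) u

lemma duality {q : ℕ} (n : ℕ) : ∀ K : List (Fin q) → List (Fin q) → ℕ,
    sw q (n + 1) (fun u => ds (K u) u) =
      sw q n (fun v => ∑ x : Fin q, is x (fun u => K u v) v) := by
  induction n with
  | zero => intro K; simp [sw, is]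
  | succ n ih =>
    intro K
    rw [sw]
    simp only [ds_cons]
    have h1 : ∀ x : Fin q, sw q (n + 1) (fun v => K (x :: v) v + ds (fun t => K (x :: v) (x :: t)) v)
        = sw q (n + 1) (fun v => K (x :: v) v) +
          sw q n (fun v => ∑ y : Fin q, is y (fun u => K (x :: u) (x :: v)) v) := by
      intro x
      rw [sw_add, ih (fun u v => K (x :: u) (x :: v))]
    simp only [h1, Finset.sum_add_distrib]
    conv_rhs => rw [sw]
    simp only [is, Finset.sum_add_distrib, sw_add]
    congr 1
    simp only [sw]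
    simp only [sw_sum]
    rw [Finset.sum_comm]

def ind (P : Prop) [Decidable P] : ℕ := if P then 1 else 0

lemma is_congr {α : Type*} (x : α) (u : List α) : ∀ F G : List α → ℕ,
    (∀ v, F v = G v) → is x F u = is x G u := by
  intro F G h
  have : F = G := funext h
  rw [this]

lemma card_ne_one {q : ℕ} (y : Fin (q + 2)) : ∑ x : Fin (q + 2), ind (x ≠ y) = q + 1 := by
  unfold ind
  rw [← Finset.card_filter, Finset.filter_ne', Finset.card_erase_of_mem (Finset.mem_univ _)]
  simp

lemma card_ne_two {q : ℕ} {y z : Fin (q + 2)} (h : y ≠ z) :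
    ∑ x : Fin (q + 2), ind (y ≠ x ∧ x ≠ z) = q := by
  unfold ind
  rw [← Finset.card_filter]
  have : Finset.univ.filter (fun x : Fin (q + 2) => y ≠ x ∧ x ≠ z) =
      (Finset.univ.erase y).erase z := by
    ext x
    simp only [Finset.mem_filter, Finset.mem_univ, true_and, Finset.mem_erase, and_true]
    constructor
    · rintro ⟨h1, h2⟩; exact ⟨h2, h1.symm⟩
    · rintro ⟨h1, h2⟩; exact ⟨h2.symm, h1⟩
  rw [this, Finset.card_erase_of_mem, Finset.card_erase_of_mem (Finset.mem_univ _)]
  · simp
  · simp [h.symm]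

lemma ins_count' {q : ℕ} (u : List (Fin (q + 2))) : ∀ y : Fin (q + 2), Pr (y :: u) →
    ∑ x : Fin (q + 2), is x (fun w => ind (Pr (y :: w))) u = q * u.length + (q + 1) := by
  induction u with
  | nil =>
    intro y _
    have : ∀ x : Fin (q + 2), is x (fun w => ind (Pr (y :: w))) [] = ind (x ≠ y) := by
      intro x
      simp only [is, ind, List.isChain_cons_cons, List.isChain_singleton, and_true]
      simp [ne_comm]
    simp only [this, card_ne_one]
    simp
  | cons z u ih =>
    intro y h
    have hyz : y ≠ z := (List.isChain_cons_cons.1 h).1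
    have hzu : Pr (z :: u) := Pr_tail h
    simp only [is, Finset.sum_add_distrib]
    have h1 : ∀ x : Fin (q + 2), ind (Pr (y :: x :: z :: u)) = ind (y ≠ x ∧ x ≠ z) := by
      intro x
      unfold ind
      congr 1
      simp only [List.isChain_cons_cons, eq_iff_iff]
      constructor
      · rintro ⟨a, b, -⟩; exact ⟨a, b⟩
      · rintro ⟨a, b⟩; exact ⟨a, b, hzu⟩
    have h2 : ∀ x : Fin (q + 2), is x (fun v => ind (Pr (y :: z :: v))) u =
        is x (fun v => ind (Pr (z :: v))) u := by
      intro x
      apply is_congr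
      intro v
      unfold ind
      congr 1
      simp only [List.isChain_cons_cons, eq_iff_iff]
      exact ⟨fun h => h.2, fun h => ⟨hyz, h⟩⟩
    simp only [h1, h2, card_ne_two hyz, ih z hzu, List.length_cons]
    ring

lemma ins_count {q : ℕ} (y : Fin (q + 2)) (u : List (Fin (q + 2))) (h : Pr (y :: u)) :
    ∑ x : Fin (q + 2), is x (fun w => ind (Pr w)) (y :: u) = q * (u.length + 2) + 2 := by
  simp only [is, Finset.sum_add_distrib, ins_count' u y h]
  have h1 : ∀ x : Fin (q + 2), ind (Pr (x :: y :: u)) = ind (x ≠ y) := by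
    intro x
    unfold ind
    congr 1
    simp only [List.isChain_cons_cons, eq_iff_iff]
    exact ⟨fun h => h.1, fun h' => ⟨h', h⟩⟩
  simp only [h1, card_ne_one]
  ring

/-- the normalising constant -/
def Zc (q n : ℕ) : ℕ := sw q n B

lemma is_mul {α : Type*} (x : α) (c : ℕ) (u : List α) : ∀ F : List α → ℕ,
    is x (fun v => F v * c) u = is x F u * c := by
  induction u with
  | nil => intro F; rfl
  | cons y u ih => intro F; simp only [is, ih]; ring

lemma Zc_succ (q n : ℕ) : Zc (q + 2) (n + 2) = Zc (q + 2) (n + 1) * (q * (n + 2) + 2) := by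
  have h1 : Zc (q + 2) (n + 2) = sw (q + 2) (n + 1 + 1) (fun u => ds (fun v => ind (Pr u) * B v) u) := by
    unfold Zc
    apply sw_congr
    intro u hu
    by_cases h : Pr u
    · rw [B_eq h (by intro h0; rw [h0] at hu; simp at hu)]
      simp [ind, h]
    · rw [B_of_not h]
      simp only [ind, if_neg h, zero_mul]
      rw [show (fun v : List (Fin (q + 2)) => (0 : ℕ)) = fun v => 0 * B v by simp, ds_mul]
      simp
  rw [h1, duality]
  unfold Zc
  rw [← sw_mul]
  apply sw_congr
  intro v hv
  simp only [is_mul, ← Finset.sum_mul]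
  by_cases h : Pr v
  · obtain ⟨y, u, rfl⟩ : ∃ y u, v = y :: u := by
      cases v with
      | nil => simp at hv
      | cons y u => exact ⟨y, u, rfl⟩
    rw [ins_count y u h]
    have : u.length = n := by simpa using hv
    rw [this]; ring
  · rw [B_of_not h]; simp

lemma Zc_zero (q : ℕ) : Zc q 0 = 1 := rfl

lemma Zc_one (q : ℕ) : Zc q 1 = q := by
  unfold Zc sw sw
  have : ∀ x : Fin q, B [x] = 1 := by
    intro x
    rw [B_eq (List.isChain_singleton _) (by simp)]
    simp
  simp [this]

lemma Z4 (n : ℕ) : Zc 4 n = 2 ^ n * (n + 1).factorial := by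
  induction n with
  | zero => simp [Zc_zero]
  | succ n ih =>
    cases n with
    | zero => rw [Zc_one]; rfl
    | succ n =>
      rw [Zc_succ 2 n, ih, Nat.factorial_succ (n + 1 + 1), pow_succ]
      ring

lemma Z3 (n : ℕ) : 2 * Zc 3 n = (n + 2).factorial := by
  induction n with
  | zero => simp [Zc_zero]
  | succ n ih =>
    cases n with
    | zero => rw [Zc_one]; rfl
    | succ n =>
      rw [Zc_succ 1 n, ← mul_assoc, ih, Nat.factorial_succ (n + 1 + 2)]
      ring

end Pool.Agent.R987.FD
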