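import Pool.Agent.R987.FD.Basic

/-! Upper bounds for the number of deletion orders. -/

namespace Pool.Agent.R987.FD

variable {α : Type*}

lemma ds_mul (c : ℕ) (u : List α) : ∀ F : List α → ℕ, ds (fun v => c * F v) u = c * ds F u := by
  induction u with
  | nil => intro F; simp
  | cons x u ih => intro F; simp only [ds_cons, ih]; ring

lemma ds_le_len (u : List α) : ∀ (F : List α → ℕ) (M : ℕ),
    (∀ v, v.length + 1 = u.length → F v ≤ M) → ds F u ≤ u.length * M := by
  induction u with
  | nil => intro F M _; simp
  | cons x u ih =>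
    intro F M h
    simp only [ds_cons, List.length_cons]
    have h1 := h u (by simp)
    have h2 := ih (fun v => F (x :: v)) M (fun v hv => h _ (by simp [hv]))
    nlinarith

variable [DecidableEq α]

lemma ds_run_aux (R : List α) : ∀ (x y : α) (G : List α → ℕ), (∀ v, ¬ Pr v → G v = 0) →
    D (x :: y :: R) = 0 → ds (fun v => G (x :: v)) (y :: R) ≤ G (x :: (y :: R).dropLast) := by
  induction R with
  | nil => intro x y G _ _; simp
  | cons z R ih =>
    intro x y G hG hD
    rw [D_three] at hD
    have hxz : x = z := by
      by_contra hne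
      rw [if_neg hne] at hD
      omega
    have h0 : G (x :: z :: R) = 0 := by
      apply hG
      intro hp
      exact (List.isChain_cons_cons.1 hp).1 hxz
    rw [ds_cons, h0, zero_add]
    have := ih y z (fun v => G (x :: v)) (fun v hv => hG _ (fun hp => hv (Pr_tail hp)))
      (by omega)
    exact this

lemma ds_run (G : List α → ℕ) (hG : ∀ v, ¬ Pr v → G v = 0) (R : List α) (hR : D R = 0) :
    ds G R ≤ (if R.length = 0 then 0 else G R.tail) + (if R.length ≤ 1 then 0 else G R.dropLast) := by
  match R with
  | [] => simp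
  | [x] => simp
  | x :: y :: R =>
    rw [ds_cons]
    have := ds_run_aux R x y G hG hR
    simp only [List.length_cons, List.tail_cons]
    rw [if_neg (by omega), if_neg (by omega)]
    exact Nat.add_le_add_left this _

/-- representation of a word by `p` alternating blocks of total length `L` and `K` letters -/
inductive Rep : ℕ → ℕ → ℕ → List α → Prop
  | nil : Rep 0 0 0 []
  | junk (x : α) {p K L : ℕ} {u : List α} : Rep p K L u → Rep p (K + 1) L (x :: u)
  | run (R : List α) {p K L : ℕ} {u : List α} : D R = 0 → Rep p K L u →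
      Rep (p + 1) K (L + R.length) (R ++ u)

lemma Rep.length {p K L : ℕ} {u : List α} (h : Rep p K L u) : u.length = K + L := by
  induction h with
  | nil => rfl
  | junk x _ ih => simp [ih]; omega
  | run R _ _ ih => simp [ih]; omega

lemma Rep.junks (J : List α) {p K L : ℕ} {u : List α} (h : Rep p K L u) :
    Rep p (K + J.length) L (J ++ u) := by
  induction J with
  | nil => simpa using h
  | cons x J ih => exact Rep.junk x ih

lemma Rep.append {p K L : ℕ} {u : List α} (h : Rep p K L u) {p' K' L' : ℕ} {u' : List α}
    (h' : Rep p' K' L' u') : Rep (p + p') (K + K') (L + L') (u ++ u') := by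
  induction h with
  | nil => simpa using h'
  | @junk x p K L u _ ih =>
    have := Rep.junk x ih
    rw [show K + 1 + K' = K + K' + 1 by ring]
    exact this
  | @run R p K L u hR _ ih =>
    have := Rep.run R hR ih
    rw [show p + 1 + p' = p + p' + 1 by ring, show L + R.length + L' = L + L' + R.length by ring,
      List.append_assoc]
    exact this

lemma D_tail_zero {R : List α} (h : D R = 0) : D R.tail = 0 := by
  cases R with
  | nil => rfl
  | cons x R => have := D_cons_le x R; simp only [List.tail_cons]; omega

lemma D_dropLast_zero {R : List α} (h : D R = 0) : D R.dropLast = 0 := by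
  rcases List.eq_nil_or_concat R with h0 | ⟨s, y, h0⟩
  · subst h0; rfl
  · subst h0
    simp only [List.concat_eq_append, List.dropLast_concat] at *
    have := D_left_le s [y]
    omega

lemma Rep.step {p K L : ℕ} {u : List α} (h : Rep p K L u) : ∀ (F : List α → ℕ) (X Y : ℕ),
    (∀ v, ¬ Pr v → F v = 0) →
    (∀ K' v, K' + 1 = K → Rep p K' L v → F v ≤ X) →
    (∀ L' v, L' + 1 = L → Rep p K L' v → F v ≤ Y) →
    ds F u ≤ K * X + 2 * p * Y := by
  induction h with
  | nil => intro F X Y _ _ _; simp
  | @junk x p K L u h ih =>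
    intro F X Y h0 hX hY
    rw [ds_cons]
    have h1 : F u ≤ X := hX K u rfl h
    have h2 := ih (fun v => F (x :: v)) X Y (fun v hv => h0 _ (fun hp => hv (Pr_tail hp)))
      (fun K' v hK hv => hX (K' + 1) _ (by omega) (Rep.junk x hv))
      (fun L' v hL hv => hY L' _ hL (Rep.junk x hv))
    have h3 : (K + 1) * X = K * X + X := by ring
    omega
  | @run R p K L u hR h ih =>
    intro F X Y h0 hX hY
    rw [ds_append]
    have h1 := ds_run (fun t => F (t ++ u)) (fun v hv => h0 _ (fun hp => hv
      (List.isChain_append.1 hp).1)) R hR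
    have h2 := ih (fun v => F (R ++ v)) X Y (fun v hv => h0 _ (fun hp => hv
      (List.isChain_append.1 hp).2.1))
      (fun K' v hK hv => hX K' _ hK (Rep.run R hR hv))
      (fun L' v hL hv => hY (L' + R.length) _ (by omega) (Rep.run R hR hv))
    have h3 : (if R.length = 0 then 0 else F (R.tail ++ u)) ≤ Y := by
      split_ifs with hc
      · exact Nat.zero_le _
      · apply hY (L + R.tail.length) _ _ (Rep.run _ (D_tail_zero hR) h)
        simp only [List.length_tail]; omega
    have h4 : (if R.length ≤ 1 then 0 else F (R.dropLast ++ u)) ≤ Y := by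
      split_ifs with hc
      · exact Nat.zero_le _
      · apply hY (L + R.dropLast.length) _ _ (Rep.run _ (D_dropLast_zero hR) h)
        simp only [List.length_dropLast]; omega
    have h5 : 2 * (p + 1) * Y = 2 * p * Y + 2 * Y := by ring
    omega

lemma pow_ineq (n K : ℕ) : K * n ^ (K - 1) + n ^ K ≤ (n + 1) ^ K := by
  induction K with
  | zero => simp
  | succ K ih =>
    have h1 : (n + 1) ^ (K + 1) = (n + 1) ^ K * (n + 1) := pow_succ _ _
    rw [h1, Nat.add_sub_cancel]
    have h2 := Nat.mul_le_mul_right (n + 1) ih
    have h3 : K * n ^ K ≤ K * n ^ (K - 1) * n := by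
      cases K with
      | zero => simp
      | succ K =>
        rw [Nat.add_sub_cancel, pow_succ n K, mul_assoc]
    calc (K + 1) * n ^ K + n ^ (K + 1) = K * n ^ K + n ^ K * (n + 1) := by ring
      _ ≤ K * n ^ (K - 1) * n + n ^ K * (n + 1) := Nat.add_le_add_right h3 _
      _ ≤ (K * n ^ (K - 1) + n ^ K) * (n + 1) := by nlinarith [Nat.zero_le (K * n ^ (K - 1))]
      _ ≤ _ := h2

theorem UB (n : ℕ) : ∀ (p K L : ℕ) (u : List α), K + L = n → Rep p K L u →
    B u ≤ n ^ K * (2 * p) ^ L := by
  induction n with
  | zero =>
    intro p K L u hn h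
    have hK : K = 0 := by omega
    have hL : L = 0 := by omega
    subst hK hL
    have := h.length
    have hu : u = [] := List.length_eq_zero_iff.1 this
    subst hu
    simp
  | succ n ih =>
    intro p K L u hn h
    by_cases hp : Pr u
    swap
    · rw [B_of_not hp]; exact Nat.zero_le _
    have hlen := h.length
    have hu : u ≠ [] := by intro h0; rw [h0] at hlen; simp at hlen; omega
    rw [B_eq hp hu]
    rcases Nat.eq_zero_or_pos L with hL | hL
    · subst hL
      have := h.step B (n ^ (K - 1) * (2 * p) ^ 0) 0 (fun v hv => B_of_not hv)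
        (fun K' v hK hv => by
          have := ih p K' 0 v (by omega) hv
          rwa [show K - 1 = K' by omega])
        (fun L' v hL _ => by omega)
      have h2 := pow_ineq n K
      simp only [pow_zero, mul_one, mul_zero, add_zero] at this ⊢
      exact le_trans this (le_trans (Nat.le_add_right _ _) h2)
    · have := h.step B (n ^ (K - 1) * (2 * p) ^ L) (n ^ K * (2 * p) ^ (L - 1))
        (fun v hv => B_of_not hv)
        (fun K' v hK hv => by
          have := ih p K' L v (by omega) hv
          rwa [show K - 1 = K' by omega])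
        (fun L' v hL hv => by
          have := ih p K L' v (by omega) hv
          rwa [show L - 1 = L' by omega])
      have h2 := pow_ineq n K
      have h3 : (2 * p) ^ L = 2 * p * (2 * p) ^ (L - 1) := by
        rw [← pow_succ', Nat.sub_add_cancel hL]
      calc _ ≤ _ := this
        _ = (K * n ^ (K - 1) + n ^ K) * (2 * p) ^ L := by rw [h3]; ring
        _ ≤ _ := Nat.mul_le_mul_right _ h2

/-! ### two alternating blocks sharing a letter -/

def Cr (x y z : α) (b : ℕ) (Z : List α) : Prop :=
  (b = 20 ∧ D Z = 0) ∨ (b = 20 ∧ ∃ k l, Z = la x y (k + 1) ++ alt z x (l + 1)) ∨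
    (b = 29 ∧ ∃ k l, Z = la y x (k + 1) ++ alt z x (l + 1))

omit [DecidableEq α] in
lemma alt_tail (s t : α) (k : ℕ) : (alt s t (k + 1)).tail = alt t s k := rfl

omit [DecidableEq α] in
lemma alt_dropLast (s t : α) (k : ℕ) : (alt s t (k + 1)).dropLast = alt s t k := by
  rw [alt_snoc, List.dropLast_concat]

omit [DecidableEq α] in
lemma la_dropLast (s t : α) (k : ℕ) : (la s t (k + 1)).dropLast = la t s k := by
  rw [la_succ, List.dropLast_concat]

lemma core_step {x y z : α} {b : ℕ} {Z : List α} (h : Cr x y z b Z)
    (F : List α → ℕ) (Y : ℕ) (h0 : ∀ v, ¬ Pr v → F v = 0)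
    (hF : ∀ b' Z', Z'.length + 1 = Z.length → Cr x y z b' Z' → F Z' ≤ b' * Y) :
    20 * ds F Z ≤ 69 * (b * Y) := by
  rcases h with ⟨hb, hD⟩ | ⟨hb, k, l, hZ⟩ | ⟨hb, k, l, hZ⟩
  · have h1 := ds_run F h0 Z hD
    have h2 : (if Z.length = 0 then 0 else F Z.tail) ≤ 20 * Y := by
      split_ifs with hc
      · exact Nat.zero_le _
      · exact hF 20 _ (by simp only [List.length_tail]; omega) (Or.inl ⟨rfl, D_tail_zero hD⟩)
    have h3 : (if Z.length ≤ 1 then 0 else F Z.dropLast) ≤ 20 * Y := by
      split_ifs with hc
      · exact Nat.zero_le _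
      · exact hF 20 _ (by simp only [List.length_dropLast]; omega)
          (Or.inl ⟨rfl, D_dropLast_zero hD⟩)
    subst hb
    omega
  · subst hZ hb
    rw [ds_append]
    have h1 := ds_run (fun t => F (t ++ alt z x (l + 1))) (fun v hv => h0 _ (fun hp => hv
      (List.isChain_append.1 hp).1)) (la x y (k + 1)) (D_la _ _ _)
    have h2 := ds_run (fun t => F (la x y (k + 1) ++ t)) (fun v hv => h0 _ (fun hp => hv
      (List.isChain_append.1 hp).2.1)) (alt z x (l + 1)) (D_alt _ _ _)
    simp only [la_length, alt_length, la_dropLast, alt_dropLast, la_tail, alt_tail] at h1 h2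
    have e1 : (if k + 1 = 0 then 0 else F (la x y k ++ alt z x (l + 1))) +
        (if k + 1 ≤ 1 then 0 else F (la y x k ++ alt z x (l + 1))) ≤ 49 * Y := by
      rw [if_neg (by omega)]
      cases k with
      | zero =>
        rw [if_pos (by omega)]
        have := hF 20 (la x y 0 ++ alt z x (l + 1)) (by simp <;> omega) (Or.inl ⟨rfl, by
          exact D_alt (l + 1) z x⟩)
        omega
      | succ k =>
        rw [if_neg (by omega)]
        have a1 := hF 20 (la x y (k + 1) ++ alt z x (l + 1)) (by simp <;> omega)
          (Or.inr (Or.inl ⟨rfl, k, l, rfl⟩))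
        have a2 := hF 29 (la y x (k + 1) ++ alt z x (l + 1)) (by simp <;> omega)
          (Or.inr (Or.inr ⟨rfl, k, l, rfl⟩))
        omega
    have e2 : (if l + 1 = 0 then 0 else F (la x y (k + 1) ++ alt x z l)) +
        (if l + 1 ≤ 1 then 0 else F (la x y (k + 1) ++ alt z x l)) ≤ 20 * Y := by
      rw [if_neg (by omega)]
      cases l with
      | zero =>
        rw [if_pos (by omega)]
        have := hF 20 (la x y (k + 1) ++ alt x z 0) (by simp <;> omega)
          (Or.inl ⟨rfl, by simpa using D_la (k + 1) x y⟩)
        omega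
      | succ l =>
        rw [if_neg (by omega)]
        have a1 : F (la x y (k + 1) ++ alt x z (l + 1)) = 0 := by
          apply h0
          intro hp
          rw [la_succ, alt_succ, List.append_assoc] at hp
          have h3 := (List.isChain_append.1 hp).2.1
          exact (List.isChain_cons_cons.1 h3).1 rfl
        have a2 := hF 20 (la x y (k + 1) ++ alt z x (l + 1)) (by simp <;> omega)
          (Or.inr (Or.inl ⟨rfl, k, l, rfl⟩))
        omega
    omega
  · subst hZ hb
    rw [ds_append]
    have h1 := ds_run (fun t => F (t ++ alt z x (l + 1))) (fun v hv => h0 _ (fun hp => hv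
      (List.isChain_append.1 hp).1)) (la y x (k + 1)) (D_la _ _ _)
    have h2 := ds_run (fun t => F (la y x (k + 1) ++ t)) (fun v hv => h0 _ (fun hp => hv
      (List.isChain_append.1 hp).2.1)) (alt z x (l + 1)) (D_alt _ _ _)
    simp only [la_length, alt_length, la_dropLast, alt_dropLast, la_tail, alt_tail] at h1 h2
    have e1 : (if k + 1 = 0 then 0 else F (la y x k ++ alt z x (l + 1))) +
        (if k + 1 ≤ 1 then 0 else F (la x y k ++ alt z x (l + 1))) ≤ 49 * Y := by
      rw [if_neg (by omega)]
      cases k with
      | zero =>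
        rw [if_pos (by omega)]
        have := hF 20 (la y x 0 ++ alt z x (l + 1)) (by simp <;> omega) (Or.inl ⟨rfl, by
          exact D_alt (l + 1) z x⟩)
        omega
      | succ k =>
        rw [if_neg (by omega)]
        have a1 := hF 29 (la y x (k + 1) ++ alt z x (l + 1)) (by simp <;> omega)
          (Or.inr (Or.inr ⟨rfl, k, l, rfl⟩))
        have a2 := hF 20 (la x y (k + 1) ++ alt z x (l + 1)) (by simp <;> omega)
          (Or.inr (Or.inl ⟨rfl, k, l, rfl⟩))
        omega
    have e2 : (if l + 1 = 0 then 0 else F (la y x (k + 1) ++ alt x z l)) +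
        (if l + 1 ≤ 1 then 0 else F (la y x (k + 1) ++ alt z x l)) ≤ 49 * Y := by
      rw [if_neg (by omega)]
      cases l with
      | zero =>
        rw [if_pos (by omega)]
        have := hF 20 (la y x (k + 1) ++ alt x z 0) (by simp <;> omega)
          (Or.inl ⟨rfl, by simpa using D_la (k + 1) y x⟩)
        omega
      | succ l =>
        rw [if_neg (by omega)]
        have a2 := hF 29 (la y x (k + 1) ++ alt z x (l + 1)) (by simp <;> omega)
          (Or.inr (Or.inr ⟨rfl, k, l, rfl⟩))
        have e3 : la y x (k + 1) ++ alt x z (l + 1) = la x y (k + 2) ++ alt z x l := by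
          rw [la_succ x y (k + 1), alt_succ, List.append_assoc]; rfl
        have a1 : F (la y x (k + 1) ++ alt x z (l + 1)) ≤ 20 * Y := by
          rw [e3]
          cases l with
          | zero =>
            exact hF 20 _ (by simp <;> omega) (Or.inl ⟨rfl, by simpa using D_la (k + 2) x y⟩)
          | succ l =>
            exact hF 20 _ (by simp; omega) (Or.inr (Or.inl ⟨rfl, k + 1, l, rfl⟩))
        omega
    omega

theorem core_UB (x y z : α) (n : ℕ) : ∀ (b : ℕ) (J0 Z J1 : List α),
    J0.length + J1.length + Z.length = n → Cr x y z b Z →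
    20 ^ Z.length * B (J0 ++ (Z ++ J1)) ≤ b * n ^ (J0.length + J1.length) * 69 ^ Z.length := by
  induction n with
  | zero =>
    intro b J0 Z J1 hn h
    have h1 : J0 = [] := List.length_eq_zero_iff.1 (by omega)
    have h2 : J1 = [] := List.length_eq_zero_iff.1 (by omega)
    have h3 : Z = [] := List.length_eq_zero_iff.1 (by omega)
    subst h1 h2 h3
    have hb : 1 ≤ b := by rcases h with h | h | h <;> omega
    simpa using hb
  | succ n ih =>
    intro b J0 Z J1 hn h
    by_cases hp : Pr (J0 ++ (Z ++ J1))
    swap
    · rw [B_of_not hp]; simp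
    have hu : J0 ++ (Z ++ J1) ≠ [] := by
      intro h0
      have := congrArg List.length h0
      simp only [List.length_append, List.length_nil] at this
      omega
    rw [B_eq hp hu, ds_append, ds_append]
    set K := J0.length + J1.length with hK
    -- junk deletions
    have hj0 : 20 ^ Z.length * ds (fun t => B (t ++ (Z ++ J1))) J0 ≤
        J0.length * (b * n ^ (K - 1) * 69 ^ Z.length) := by
      rw [← ds_mul]
      apply ds_le_len
      intro v hv
      have := ih b v Z J1 (by omega) h
      rwa [show v.length + J1.length = K - 1 by omega] at this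
    have hj1 : 20 ^ Z.length * ds (fun t => B (J0 ++ (Z ++ t))) J1 ≤
        J1.length * (b * n ^ (K - 1) * 69 ^ Z.length) := by
      rw [← ds_mul]
      apply ds_le_len
      intro v hv
      have := ih b J0 Z v (by omega) h
      rwa [show J0.length + v.length = K - 1 by omega] at this
    have hz : 20 ^ Z.length * ds (fun t => B (J0 ++ (t ++ J1))) Z ≤ b * n ^ K * 69 ^ Z.length := by
      rcases Nat.eq_zero_or_pos Z.length with h0 | h0
      · have hz0 : Z = [] := List.length_eq_zero_iff.1 h0
        subst hz0
        simp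
      · have key := core_step h (fun t => 20 ^ (Z.length - 1) * B (J0 ++ (t ++ J1)))
          (n ^ K * 69 ^ (Z.length - 1)) (by
            intro v hv
            have : ¬ Pr (J0 ++ (v ++ J1)) := fun hq => hv
              (List.isChain_append.1 (List.isChain_append.1 hq).2.1).1
            show 20 ^ (Z.length - 1) * B (J0 ++ (v ++ J1)) = 0
            rw [B_of_not this, mul_zero]) (by
            intro b' Z' hZ' hc
            have := ih b' J0 Z' J1 (by omega) hc
            show 20 ^ (Z.length - 1) * B (J0 ++ (Z' ++ J1)) ≤ _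
            rw [show Z.length - 1 = Z'.length by omega]
            calc _ ≤ _ := this
              _ = _ := by ring)
        rw [ds_mul] at key
        have e1 : (20 : ℕ) ^ Z.length = 20 * 20 ^ (Z.length - 1) := by
          rw [← pow_succ', Nat.sub_add_cancel h0]
        have e2 : (69 : ℕ) ^ Z.length = 69 * 69 ^ (Z.length - 1) := by
          rw [← pow_succ', Nat.sub_add_cancel h0]
        calc 20 ^ Z.length * ds (fun t => B (J0 ++ (t ++ J1))) Z
            = 20 * (20 ^ (Z.length - 1) * ds (fun t => B (J0 ++ (t ++ J1))) Z) := by rw [e1]; ring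
          _ ≤ 69 * (b * (n ^ K * 69 ^ (Z.length - 1))) := key
          _ = _ := by rw [e2]; ring
    have hpow := pow_ineq n K
    calc 20 ^ Z.length * (ds (fun t => B (t ++ (Z ++ J1))) J0 +
          (ds (fun t => B (J0 ++ (t ++ J1))) Z + ds (fun t => B (J0 ++ (Z ++ t))) J1))
        = 20 ^ Z.length * ds (fun t => B (t ++ (Z ++ J1))) J0 +
          20 ^ Z.length * ds (fun t => B (J0 ++ (t ++ J1))) Z +
          20 ^ Z.length * ds (fun t => B (J0 ++ (Z ++ t))) J1 := by ring
      _ ≤ J0.length * (b * n ^ (K - 1) * 69 ^ Z.length) + b * n ^ K * 69 ^ Z.length +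
          J1.length * (b * n ^ (K - 1) * 69 ^ Z.length) := by omega
      _ = b * (K * n ^ (K - 1) + n ^ K) * 69 ^ Z.length := by rw [hK]; ring
      _ ≤ b * (n + 1) ^ K * 69 ^ Z.length := by gcongr

end Pool.Agent.R987.FD
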